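import Mathlib
import Pool.Agent.LibTet88.Defs

/-! # Hamiltonian tetrahedralizations of polytopes with a triangle-free graph: definitions

Board GP88. Points: `Ed 3`. `V` is the vertex set of a 3-polytope: `Gen V`. Facets: `Fct V F` (LibTet88.Defs), edges: `edg V`
(two-element sets), adjacency `Adj V x y` (LibPol19.Defs). -/

set_option autoImplicit false

namespace Pool.Agent.LibGP88

open Finset Pool.Agent.LibPol19 Pool.Agent.LibTet88
open scoped Classical

/-- vertex sets of 3-polytopes -/
structure Gen (V : Finset (Ed 3)) : Prop where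
  vert : IsVert V
  full : Full V

/-- the set of all facets -/
noncomputable def fcs (V : Finset (Ed 3)) : Finset (Finset (Ed 3)) := V.powerset.filter fun F => Fct V F

/-- two facets with a common edge -/
def Nx (V : Finset (Ed 3)) (F G : Finset (Ed 3)) : Prop := Fct V F ∧ Fct V G ∧ ∃ e ∈ edg V, e ⊆ F ∧ e ⊆ G

/-- no three pairwise adjacent vertices -/
def TF (V : Finset (Ed 3)) : Prop := ∀ x y z, Adj V x y → Adj V y z → Adj V x z → False

/-- the set `A` induces a forest -/
def Frs (V A : Finset (Ed 3)) : Prop := ∀ W : Finset (Ed 3), W ⊆ A → W.Nonempty → ∃ x ∈ W, (W.filter fun u => Adj V x u).card ≤ 1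

/-! ## Counting classes -/

/-- the number of classes of the equivalence relation generated by `r` on the finite set `S` -/
noncomputable def ncl {α : Type} (S : Finset α) (r : α → α → Prop) : ℕ :=
  (S.image fun a => S.filter fun b => Relation.EqvGen r a b).card

/-- the edges inside `U` -/
noncomputable def EU (V U : Finset (Ed 3)) : Finset (Finset (Ed 3)) := (edg V).filter fun e => e ⊆ U

/-- two facets with a common edge which is not in the set `E` of edges -/
def rE (V : Finset (Ed 3)) (E : Finset (Finset (Ed 3))) (F G : Finset (Ed 3)) : Prop :=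
  Fct V F ∧ Fct V G ∧ ∃ e ∈ edg V, e ∉ E ∧ e ⊆ F ∧ e ⊆ G

/-- a set of facets closed under adjacency across the edges not in `E` -/
structure Cls (V : Finset (Ed 3)) (E X : Finset (Finset (Ed 3))) : Prop where
  sub : ∀ F ∈ X, Fct V F
  clo : ∀ F ∈ X, ∀ G, rE V E F G → G ∈ X

/-- the edges contained in exactly one member of `X` -/
noncomputable def bdy (V : Finset (Ed 3)) (X : Finset (Finset (Ed 3))) : Finset (Finset (Ed 3)) :=
  (edg V).filter fun e => (X.filter fun F => e ⊆ F).card = 1

/-! ## The star of a vertex -/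

/-- the vertices different from `w` on the facets through `w` -/
noncomputable def Zw (V : Finset (Ed 3)) (w : Ed 3) : Finset (Ed 3) :=
  V.filter fun x => x ≠ w ∧ ∃ A, Fct V A ∧ w ∈ A ∧ x ∈ A

/-- the edges not containing `w` of the facets through `w` -/
noncomputable def Ze (V : Finset (Ed 3)) (w : Ed 3) : Finset (Finset (Ed 3)) :=
  (edg V).filter fun e => w ∉ e ∧ ∃ A, Fct V A ∧ w ∈ A ∧ e ⊆ A

/-- the facets through `w` -/
noncomputable def fat (V : Finset (Ed 3)) (w : Ed 3) : Finset (Finset (Ed 3)) := (fcs V).filter fun F => w ∈ F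

/-- a chord: an edge joining two vertices of the star which is on no facet through `w` -/
def Chrd (V : Finset (Ed 3)) (w x y : Ed 3) : Prop := x ∈ Zw V w ∧ y ∈ Zw V w ∧ Adj V x y ∧ ({x, y} : Finset (Ed 3)) ∉ Ze V w

/-- an edge with one end in `A` and one end in `B` -/
def Mx (A B e : Finset (Ed 3)) : Prop := (∃ a ∈ e, a ∈ A) ∧ ∃ b ∈ e, b ∈ B

/-- a good colouring: `A`, `B` are disjoint forests covering the vertices different from `w`, and exactly two edges of the
boundary of the star of `w` join `A` to `B` -/
structure Col (V : Finset (Ed 3)) (w : Ed 3) (A B g g' : Finset (Ed 3)) : Prop where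
  uni : A ∪ B = V.erase w
  dis : Disjoint A B
  fa : Frs V A
  fb : Frs V B
  ze : g ∈ Ze V w
  ze' : g' ∈ Ze V w
  ne : g ≠ g'
  mx : ∀ e ∈ Ze V w, Mx A B e ↔ e = g ∨ e = g'

end Pool.Agent.LibGP88
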