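import Mathlib
import Pool.Agent.LibGP88.Defs
import Pool.Agent.LibTet88.Basic
import Pool.Agent.LibPol19.G16

/-! Row G1 (hrep). Board GP88. A 3-polytope is the intersection of its facet half spaces.
Suppose z ∉ hl V. Two proofs; choose one.
(A) Let o be the centroid of V (o := (1 / V.card) • ∑ v ∈ V, v). For every facet F: L F o < k F (o is an average of values ≤ k F, and not all equal k F, since otherwise V ⊆ F and dm V = 3 (Full) but dm F = 2).
The segment from o to z: I := {t ∈ [0, 1] | o + t • (z - o) ∈ hl V} is compact (hl V is compact: Set.Finite.isCompact_convexHull) and contains 0, not 1; let t be its maximum, t < 1, p := o + t • (z - o) ∈ hl V.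
p is not in the interior of hl V (else t would not be the maximum). So there is a supporting functional: hl V convex, interior nonempty or not: use geometric_hahn_banach_open_point / the fact that a point of a convex set not in
its interior has a functional m ≠ 0 with m q ≤ m p for all q ∈ hl V (if the interior is nonempty: geometric_hahn_banach_open_point for the interior, then closure; the interior is nonempty because affineSpan V = ⊤
(interior_convexHull_nonempty_iff_affineSpan_eq_top)). m is not constant on V (m ≠ 0 and Full), so A := V.filter (m v = m p) ≠ V; p ∈ hl A (hl_filter), so A is nonempty and a face of V (functional m, value m p), A ≠ V.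
x ∈ V \ A: exists_facet (LibPol19.G16): a facet F ⊇ A. Then L F p = k F (p ∈ hl A ⊆ hl F, eq_of_hl). But L F o < k F and L F z ≤ k F, t < 1: L F p = (1 - t) L F o + t L F z < k F. Contradiction.
(B) as in the proof of LibTet88.G1 with the cone at the vertex maximising m. -/

set_option autoImplicit false

namespace Pool.Agent.LibGP88

open Finset Pool.Agent.LibPol19 Pool.Agent.LibTet88
open scoped Classical

private theorem dm_V' {V : Finset (Ed 3)} (hV : Gen V) : dm V = 3 := by
  have h := hV.full
  unfold Full at h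
  unfold dm
  rw [h, finrank_top, finrank_euclideanSpace_fin]

/-- a point of the hull of a 3-polytope which is not in its interior has a supporting functional -/
private theorem supp {V : Finset (Ed 3)} (hV : Gen V) (hne : V.Nonempty) {p : Ed 3}
    (hpi : p ∉ interior (hl V)) : ∃ m : Ed 3 →ₗ[ℝ] ℝ, (∀ v ∈ V, m v ≤ m p) ∧ ∃ v ∈ V, m v < m p := by
  have hint : (interior (hl V)).Nonempty := by
    unfold hl
    rw [interior_convexHull_nonempty_iff_affineSpan_eq_top]
    have h1 := hV.full
    unfold Full at h1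
    rw [AffineSubspace.affineSpan_eq_top_iff_vectorSpan_eq_top_of_nonempty]
    · exact h1
    · exact_mod_cast hne
  have hcv : Convex ℝ (hl V) := convex_convexHull ℝ _
  obtain ⟨f, hf⟩ := geometric_hahn_banach_open_point hcv.interior isOpen_interior hpi
  obtain ⟨o, ho⟩ := hint
  have hle : ∀ q ∈ hl V, f q ≤ f p := by
    have h1 : hl V ⊆ closure (interior (hl V)) := by
      rw [hcv.closure_interior_eq_closure_of_nonempty_interior ⟨o, ho⟩]
      exact subset_closure
    have h2 : closure (interior (hl V)) ⊆ {q | f q ≤ f p} := by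
      refine closure_minimal (fun q hq => (hf q hq).le) ?_
      exact isClosed_le f.continuous continuous_const
    exact fun q hq => h2 (h1 hq)
  refine ⟨(f : Ed 3 →ₗ[ℝ] ℝ), fun v hv => hle v (mem_hl hv), ?_⟩
  by_contra hcon
  push Not at hcon
  have h3 : f p ≤ f o := by
    exact ge_of_hl (f : Ed 3 →ₗ[ℝ] ℝ) (fun v hv => hcon v hv) (interior_subset ho)
  exact absurd (hf o ho) (not_lt.2 h3)

/-- G1: a 3-polytope is the intersection of its facet half spaces -/
theorem hrep {V : Finset (Ed 3)} (hV : Gen V) (hne : V.Nonempty) {L : Finset (Ed 3) → Ed 3 →ₗ[ℝ] ℝ}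
    {k : Finset (Ed 3) → ℝ} (hL : ∀ F, Fct V F → ∀ v ∈ V, L F v ≤ k F ∧ (L F v = k F ↔ v ∈ F)) {z : Ed 3}
    (hz : ∀ F, Fct V F → L F z ≤ k F) : z ∈ hl V := by
  by_contra hzn
  have hcv : Convex ℝ (hl V) := convex_convexHull ℝ _
  have hcomp : IsCompact (hl V) := by
    unfold hl
    exact V.finite_toSet.isCompact_convexHull ℝ
  have hint : (interior (hl V)).Nonempty := by
    unfold hl
    rw [interior_convexHull_nonempty_iff_affineSpan_eq_top]
    have h1 := hV.full
    unfold Full at h1
    rw [AffineSubspace.affineSpan_eq_top_iff_vectorSpan_eq_top_of_nonempty]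
    · exact h1
    · exact_mod_cast hne
  obtain ⟨o, ho⟩ := hint
  have hoV : o ∈ hl V := interior_subset ho
  -- facet functionals are smaller than their bound at an interior point
  have hLo : ∀ F, Fct V F → L F o < k F := by
    intro F hF
    have h1 : L F o ≤ k F := le_of_hl (L F) (fun v hv => (hL F hF v hv).1) hoV
    refine lt_of_le_of_ne h1 fun h2 => ?_
    -- the maximum of a nonconstant functional is not attained in the interior
    obtain ⟨v, hv, hvF⟩ : ∃ v ∈ V, v ∉ F := by
      by_contra hcon
      push Not at hcon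
      have h3 : F = V := Finset.Subset.antisymm hF.1.2.1 hcon
      have h4 := hF.2
      rw [h3, dm_V' hV] at h4
      omega
    have h3 : L F v < k F := lt_of_le_of_ne (hL F hF v hv).1 fun h => hvF ((hL F hF v hv).2.1 h)
    -- o + ε (o - v) ∈ hl V
    have h4 : Filter.Tendsto (fun ε : ℝ => o + ε • (o - v)) (nhds 0) (nhds (o + (0 : ℝ) • (o - v))) := by
      apply Continuous.tendsto
      fun_prop
    rw [zero_smul, add_zero] at h4
    have h5 : ∀ᶠ ε : ℝ in nhds 0, o + ε • (o - v) ∈ hl V := by
      refine h4.eventually ?_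
      exact mem_interior_iff_mem_nhds.1 ho
    have h6 : ∀ᶠ ε : ℝ in nhdsWithin 0 (Set.Ioi 0), o + ε • (o - v) ∈ hl V := nhdsWithin_le_nhds h5
    obtain ⟨ε, hε, hε0⟩ := (h6.and self_mem_nhdsWithin).exists
    have h7 : L F (o + ε • (o - v)) ≤ k F := le_of_hl (L F) (fun v hv => (hL F hF v hv).1) hε
    rw [map_add, map_smul, map_sub, smul_eq_mul, h2] at h7
    have h8 : 0 < ε * (k F - L F v) := mul_pos hε0 (by linarith)
    linarith
  -- the last point of the segment
  obtain ⟨T, hTdef⟩ : ∃ T : Set ℝ, T = {t | t ∈ Set.Icc (0 : ℝ) 1 ∧ o + t • (z - o) ∈ hl V} := ⟨_, rfl⟩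
  have hTc : IsCompact T := by
    have h1 : T = Set.Icc (0 : ℝ) 1 ∩ (fun t : ℝ => o + t • (z - o)) ⁻¹' (hl V) := by
      rw [hTdef]; rfl
    rw [h1]
    refine isCompact_Icc.inter_right (hcomp.isClosed.preimage ?_)
    fun_prop
  have h0T : (0 : ℝ) ∈ T := by
    rw [hTdef]
    exact ⟨⟨le_rfl, zero_le_one⟩, by rw [zero_smul, add_zero]; exact hoV⟩
  obtain ⟨t, htT, htmax⟩ := hTc.exists_isMaxOn ⟨0, h0T⟩ continuousOn_id
  have htm : ∀ s ∈ T, s ≤ t := fun s hs => htmax hs
  rw [hTdef] at htT
  obtain ⟨⟨ht0, ht1⟩, htp⟩ := htT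
  have ht1' : t < 1 := by
    refine lt_of_le_of_ne ht1 fun h => hzn ?_
    rw [h, one_smul, add_sub_cancel] at htp
    exact htp
  obtain ⟨p, hpdef⟩ : ∃ p, p = o + t • (z - o) := ⟨_, rfl⟩
  rw [← hpdef] at htp
  have hpi : p ∉ interior (hl V) := by
    intro hpi
    have h4 : Filter.Tendsto (fun s : ℝ => o + s • (z - o)) (nhds t) (nhds (o + t • (z - o))) := by
      apply Continuous.tendsto
      fun_prop
    rw [← hpdef] at h4
    have h5 : ∀ᶠ s : ℝ in nhds t, o + s • (z - o) ∈ hl V := by
      refine h4.eventually ?_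
      exact mem_interior_iff_mem_nhds.1 hpi
    have h5' : ∀ᶠ s : ℝ in nhds t, s < 1 := gt_mem_nhds ht1'
    have h6 : ∀ᶠ s : ℝ in nhdsWithin t (Set.Ioi t), o + s • (z - o) ∈ hl V ∧ s < 1 :=
      nhdsWithin_le_nhds (h5.and h5')
    obtain ⟨s, hs, hs0⟩ := (h6.and self_mem_nhdsWithin).exists
    have hs0' : t < s := hs0
    have h7 := htm s (by rw [hTdef]; exact ⟨⟨by linarith, hs.2.le⟩, hs.1⟩)
    linarith
  obtain ⟨m, hm, v, hv, hmv⟩ := supp hV hne hpi
  have hpA : p ∈ hl (V.filter fun v => m v = m p) := hl_filter m hm htp rfl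
  have hA : IsFace V (V.filter fun v => m v = m p) := by
    refine ⟨?_, Finset.filter_subset _ _, m, m p, fun w hw => ⟨hm w hw, ?_⟩⟩
    · by_contra hcon
      rw [Finset.not_nonempty_iff_eq_empty] at hcon
      rw [hcon, hl_empty] at hpA
      exact hpA
    · rw [Finset.mem_filter]
      exact ⟨fun h => ⟨hw, h⟩, fun h => h.2⟩
  have hvA : v ∉ V.filter fun v => m v = m p := by
    intro h
    have := (Finset.mem_filter.1 h).2
    linarith
  obtain ⟨F, hF1, hF2, hAF, -⟩ := exists_facet hV.full hA hv hvA
  have hF : Fct V F := ⟨hF1, by omega⟩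
  have h1 : L F p = k F := eq_of_hl (L F) (fun v hv => (hL F hF v (hF1.2.1 hv)).2.2 hv) (hl_mono hAF hpA)
  have h2 := hLo F hF
  have h3 := hz F hF
  rw [hpdef, map_add, map_smul, map_sub, smul_eq_mul] at h1
  have h4 : (1 - t) * (k F - L F o) + t * (k F - L F z) = 0 := by linarith
  have h5 : 0 < (1 - t) * (k F - L F o) := mul_pos (by linarith) (by linarith)
  have h6 : 0 ≤ t * (k F - L F z) := mul_nonneg ht0 (by linarith)
  linarith

end Pool.Agent.LibGP88
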