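import Mathlib
import Pool.Agent.LibGP88.Defs
import Pool.Agent.LibGP88.G1
import Pool.Agent.LibTet88.Basic

/-! Row D1. Board GP88. Facet functionals normalised at the centroid `o` of V, as vectors.
o := (1 / V.card) • ∑ v ∈ V, v (V nonempty: `Full`; or take hne from Gen: V = ∅ has vectorSpan ⊥ ≠ ⊤). For a facet F with functional ℓ and value c (hF.1.2.2): ℓ o < c: ℓ o = (1 / card) ∑ ℓ v, all
ℓ v ≤ c, and not all = c: otherwise F = V, dm F = 2, but dm V = 3 (Full: finrank of ⊤ = 3, finrank_top, finrank_euclideanSpace). So c - ℓ o > 0; the functional m := (1 / (c - ℓ o)) • ℓ satisfies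
m (v - o) = (ℓ v - ℓ o) / (c - ℓ o) ≤ 1, = 1 iff ℓ v = c iff v ∈ F. Riesz: the vector M F with inner ℝ (M F) z = m z for all z: (InnerProductSpace.toDual ℝ (Ed 3)).symm (LinearMap.toContinuousLinearMap m)
and InnerProductSpace.toDual_symm_apply. Choose M by `choose` (arbitrary value 0 for non-facets). The last claim: hrep (G1) with L F z := inner ℝ (M F) z (innerSL ℝ (M F) as a linear map, innerₛₗ or
(innerSL ℝ (M F)).toLinearMap) and k F := 1 + inner ℝ (M F) o. -/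

set_option autoImplicit false

namespace Pool.Agent.LibGP88

open Finset Pool.Agent.LibPol19 Pool.Agent.LibTet88
open scoped Classical

private theorem D1_nonempty {V : Finset (Ed 3)} (hV : Gen V) : V.Nonempty := by
  rw [Finset.nonempty_iff_ne_empty]
  rintro rfl
  have h1 : vectorSpan ℝ ((∅ : Finset (Ed 3)) : Set (Ed 3)) = ⊤ := hV.full
  rw [Finset.coe_empty, vectorSpan_empty] at h1
  have h2 : Module.finrank ℝ (⊥ : Submodule ℝ (Ed 3)) = Module.finrank ℝ (⊤ : Submodule ℝ (Ed 3)) := by rw [h1]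
  rw [finrank_bot, finrank_top, finrank_euclideanSpace, Fintype.card_fin] at h2
  omega

private theorem D1_lt {V F : Finset (Ed 3)} (hV : Gen V) (hF : dm F = 2) (hFV : F ⊆ V) {ℓ : Ed 3 →ₗ[ℝ] ℝ} {c : ℝ}
    (hℓ : ∀ v ∈ V, ℓ v ≤ c ∧ (ℓ v = c ↔ v ∈ F)) : ℓ ((1 / (V.card : ℝ)) • ∑ v ∈ V, v) < c := by
  have hne := D1_nonempty hV
  have hcard : (0 : ℝ) < V.card := by exact_mod_cast hne.card_pos
  have hex : ∃ v ∈ V, v ∉ F := by
    by_contra hcon
    push Not at hcon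
    have h1 : F = V := Finset.Subset.antisymm hFV hcon
    rw [h1] at hF
    unfold dm at hF
    rw [show vectorSpan ℝ (V : Set (Ed 3)) = ⊤ from hV.full, finrank_top, finrank_euclideanSpace,
      Fintype.card_fin] at hF
    omega
  obtain ⟨v, hv, hvF⟩ := hex
  have hlt : ℓ v < c := lt_of_le_of_ne (hℓ v hv).1 (fun h => hvF ((hℓ v hv).2.1 h))
  have hsum : ∑ v ∈ V, ℓ v < ∑ v ∈ V, c := Finset.sum_lt_sum (fun w hw => (hℓ w hw).1) ⟨v, hv, hlt⟩
  rw [Finset.sum_const, nsmul_eq_mul] at hsum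
  rw [map_smul, map_sum, smul_eq_mul, one_div, inv_mul_lt_iff₀ hcard]
  exact hsum

private theorem D1_one {V : Finset (Ed 3)} (hV : Gen V) (F : Finset (Ed 3)) (hF : Fct V F) :
    ∃ M : Ed 3, ∀ v ∈ V, inner ℝ M (v - (1 / (V.card : ℝ)) • ∑ v ∈ V, v) ≤ 1 ∧
      (inner ℝ M (v - (1 / (V.card : ℝ)) • ∑ v ∈ V, v) = 1 ↔ v ∈ F) := by
  obtain ⟨⟨-, hFV, ℓ, c, hℓ⟩, hd⟩ := hF
  have h1 := D1_lt hV hd hFV hℓ
  set o := (1 / (V.card : ℝ)) • ∑ v ∈ V, v with ho
  have h2 : 0 < c - ℓ o := by linarith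
  refine ⟨(InnerProductSpace.toDual ℝ (Ed 3)).symm (LinearMap.toContinuousLinearMap ((1 / (c - ℓ o)) • ℓ)), ?_⟩
  intro v hv
  rw [InnerProductSpace.toDual_symm_apply]
  have h3 : (LinearMap.toContinuousLinearMap ((1 / (c - ℓ o)) • ℓ)) (v - o) = (ℓ v - ℓ o) / (c - ℓ o) := by
    rw [LinearMap.coe_toContinuousLinearMap', LinearMap.smul_apply, map_sub, smul_eq_mul]
    ring
  rw [h3, div_le_one h2, div_eq_one_iff_eq h2.ne']
  refine ⟨by linarith [(hℓ v hv).1], ?_⟩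
  rw [← (hℓ v hv).2]
  constructor
  · intro h; linarith
  · intro h; linarith

/-- D1: normalised facet functionals -/
theorem exists_polar {V : Finset (Ed 3)} (hV : Gen V) : ∃ (o : Ed 3) (M : Finset (Ed 3) → Ed 3),
    (∀ F, Fct V F → ∀ v ∈ V, inner ℝ (M F) (v - o) ≤ 1 ∧ (inner ℝ (M F) (v - o) = 1 ↔ v ∈ F)) ∧
      ∀ z : Ed 3, (∀ F, Fct V F → inner ℝ (M F) (z - o) ≤ 1) → z ∈ hl V := by
  have h0 : ∀ F : Finset (Ed 3), ∃ M : Ed 3, Fct V F → ∀ v ∈ V,
      inner ℝ M (v - (1 / (V.card : ℝ)) • ∑ v ∈ V, v) ≤ 1 ∧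
      (inner ℝ M (v - (1 / (V.card : ℝ)) • ∑ v ∈ V, v) = 1 ↔ v ∈ F) := by
    intro F
    by_cases hF : Fct V F
    · obtain ⟨M, hM⟩ := D1_one hV F hF
      exact ⟨M, fun _ => hM⟩
    · exact ⟨0, fun h => absurd h hF⟩
  choose M hM using h0
  refine ⟨(1 / (V.card : ℝ)) • ∑ v ∈ V, v, M, hM, ?_⟩
  intro z hz
  set o := (1 / (V.card : ℝ)) • ∑ v ∈ V, v with ho
  refine hrep hV (D1_nonempty hV) (L := fun F => (innerSL ℝ (M F)).toLinearMap)
    (k := fun F => 1 + inner ℝ (M F) o) ?_ ?_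
  · intro F hF v hv
    have h1 := hM F hF v hv
    rw [inner_sub_right] at h1
    show inner ℝ (M F) v ≤ _ ∧ (inner ℝ (M F) v = _ ↔ _)
    refine ⟨by linarith [h1.1], ?_⟩
    rw [← h1.2]
    constructor
    · intro h; linarith
    · intro h; linarith
  · intro F hF
    have h1 := hz F hF
    rw [inner_sub_right] at h1
    show inner ℝ (M F) z ≤ _
    linarith

end Pool.Agent.LibGP88
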