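import Mathlib
import Pool.Agent.LibGP88.Defs
import Pool.Agent.LibTet88.Basic
import Pool.Agent.LibPol19.G08

/-! Row D2. Board GP88. The polar points are the vertices of a polytope; the polar points of the facets through w form a face of it.
Pol V o M is the statement about o, M delivered by D1 (first half). `pts V M` is the set of all M F.
(1) polar_exposed: for a facet F let c := (1 / F.card) • ∑ v ∈ F, v, and ℓ m := inner ℝ m (c - o) (linear in m: use (innerₛₗ ℝ).flip or LinearMap with inner_add_left, inner_smul_left). For a facet G: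
inner (M G) (c - o) = average over v ∈ F of inner (M G) (v - o) ≤ 1, with equality iff all v ∈ F satisfy = 1 iff F ⊆ G. F ⊆ G and both facets imply F = G (dm_lt, G08: F ⊂ G would give dm F < dm G; LibPol19.G08:
dm_lt (hA : IsFace V F) (hAB : F ⊂ G) (hB : G ⊆ V)). So ℓ (M G) < 1 = ℓ (M F) for G ≠ F.
(2) polar_inj: M F = M G implies F = G (from (1)). (3) polar_vert: IsVert (pts V M): members are M F, F ∈ fcs V; other members M G ≠ M F have G ≠ F. (4) polar_star: functional ℓ m := inner ℝ m (w - o), value 1: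
inner (M G) (w - o) ≤ 1, = 1 iff w ∈ G iff M G ∈ the image (polar_inj). Nonempty: the hypothesis hne.  -/

set_option autoImplicit false

namespace Pool.Agent.LibGP88

open Finset Pool.Agent.LibPol19 Pool.Agent.LibTet88
open scoped Classical

/-- normalised facet functionals -/
def Pol (V : Finset (Ed 3)) (o : Ed 3) (M : Finset (Ed 3) → Ed 3) : Prop :=
  ∀ F, Fct V F → ∀ v ∈ V, inner ℝ (M F) (v - o) ≤ 1 ∧ (inner ℝ (M F) (v - o) = 1 ↔ v ∈ F)

/-- the polar points -/
noncomputable def pts (V : Finset (Ed 3)) (M : Finset (Ed 3) → Ed 3) : Finset (Ed 3) := (fcs V).image M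

theorem mem_fcs {V F : Finset (Ed 3)} : F ∈ fcs V ↔ Fct V F := by
  unfold fcs
  rw [Finset.mem_filter, Finset.mem_powerset]
  exact ⟨fun h => h.2, fun h => ⟨h.1.2.1, h⟩⟩

private noncomputable def D2_lin (u : Ed 3) : Ed 3 →ₗ[ℝ] ℝ where
  toFun m := inner ℝ m u
  map_add' a b := inner_add_left a b u
  map_smul' c a := by
    rw [inner_smul_left]
    rfl

private theorem D2_lin_apply (u m : Ed 3) : D2_lin u m = inner ℝ m u := rfl

/-- D2: a polar point is exposed -/
theorem polar_exposed {V : Finset (Ed 3)} {o : Ed 3} {M : Finset (Ed 3) → Ed 3} (hM : Pol V o M) {F : Finset (Ed 3)}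
    (hF : Fct V F) : ∃ ℓ : Ed 3 →ₗ[ℝ] ℝ, ∀ G, Fct V G → G ≠ F → ℓ (M G) < ℓ (M F) := by
  refine ⟨D2_lin (∑ v ∈ F, (v - o)), fun G hG hGF => ?_⟩
  rw [D2_lin_apply, D2_lin_apply, inner_sum, inner_sum]
  have hns : ¬ F ⊆ G := by
    intro hs
    have h1 : F ⊂ G := lt_of_le_of_ne hs (fun e => hGF e.symm)
    have h2 := dm_lt hF.1 h1 hG.1.2.1
    rw [hF.2, hG.2] at h2
    exact lt_irrefl _ h2
  obtain ⟨x, hxF, hxG⟩ := Finset.not_subset.mp hns
  have hV : F ⊆ V := hF.1.2.1
  have h1 : ∀ v ∈ F, inner ℝ (M F) (v - o) = 1 := fun v hv => ((hM F hF v (hV hv)).2).2 hv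
  refine Finset.sum_lt_sum (fun v hv => ?_) ⟨x, hxF, ?_⟩
  · rw [h1 v hv]
    exact (hM G hG v (hV hv)).1
  · rw [h1 x hxF]
    refine lt_of_le_of_ne (hM G hG x (hV hxF)).1 (fun e => hxG ?_)
    exact ((hM G hG x (hV hxF)).2).1 e

theorem polar_inj {V : Finset (Ed 3)} {o : Ed 3} {M : Finset (Ed 3) → Ed 3} (hM : Pol V o M) {F G : Finset (Ed 3)}
    (hF : Fct V F) (hG : Fct V G) (h : M F = M G) : F = G := by
  by_contra hne
  obtain ⟨ℓ, hℓ⟩ := polar_exposed hM hF
  have h1 := hℓ G hG (fun e => hne e.symm)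
  rw [h] at h1
  exact lt_irrefl _ h1

theorem polar_vert {V : Finset (Ed 3)} {o : Ed 3} {M : Finset (Ed 3) → Ed 3} (hM : Pol V o M) : IsVert (pts V M) := by
  intro m hm
  obtain ⟨F, hF, rfl⟩ := Finset.mem_image.mp hm
  obtain ⟨ℓ, hℓ⟩ := polar_exposed hM (mem_fcs.mp hF)
  refine ⟨ℓ, fun w hw hne => ?_⟩
  obtain ⟨G, hG, rfl⟩ := Finset.mem_image.mp hw
  exact hℓ G (mem_fcs.mp hG) (fun e => hne (by rw [e]))

/-- D2: the polar points of the facets through a vertex form a face -/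
theorem polar_star {V : Finset (Ed 3)} {o : Ed 3} {M : Finset (Ed 3) → Ed 3} (hM : Pol V o M) {w : Ed 3} (hw : w ∈ V)
    (hne : (fat V w).Nonempty) : IsFace (pts V M) ((fat V w).image M) := by
  refine ⟨hne.image M, Finset.image_subset_image (Finset.filter_subset _ _), D2_lin (w - o), 1, fun m hm => ?_⟩
  obtain ⟨G, hG, rfl⟩ := Finset.mem_image.mp hm
  have hG' := mem_fcs.mp hG
  rw [D2_lin_apply]
  refine ⟨(hM G hG' w hw).1, ?_⟩
  rw [(hM G hG' w hw).2]
  constructor
  · intro h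
    exact Finset.mem_image_of_mem M (Finset.mem_filter.mpr ⟨hG, h⟩)
  · intro h
    obtain ⟨G', hG1, e⟩ := Finset.mem_image.mp h
    have h1 := Finset.mem_filter.mp hG1
    have h2 : G' = G := polar_inj hM (mem_fcs.mp h1.1) hG' e
    rw [← h2]
    exact h1.2

end Pool.Agent.LibGP88
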