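import Mathlib
import Pool.Agent.LibGP88.Defs
import Pool.Agent.LibTet88.Q3
import Pool.Agent.LibPol19.G08
import Pool.Agent.LibPol19.G11
import Pool.Agent.LibPol19.G16
import Pool.Agent.LibPol19.G10
import Pool.Agent.LibPol19.G18

/-! Row Q2 (edge_two). Board GP88. V is the vertex set of a 3-polytope (`Gen V`), e ∈ edg V an edge: exactly two facets contain e, and they meet in e.
mem_edg (LibTet88.Basic): e ⊆ V, e.card = 2, IsFace V e; e = {x, y}, x ≠ y (card_eq_two). Let ℓ, c be the functional of the face e: ℓ v ≤ c on V, equality iff v ∈ e.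
Let N := V \ e (nonempty: `Full V`, a set of two points has vectorSpan of dimension ≤ 1: dm_one, and `Full` gives finrank 3). For v ∈ N: ℓ v < c.
(1) A functional m with m x = m y (= m0) which is NOT of the form α ℓ + const on V, i.e. such that the ratios ρ v := (m v - m0) / (c - ℓ v), v ∈ N, are not all equal:
choose v1 ∈ N (so v1 is not on the line xy: ℓ v1 < c); V is not contained in the plane through x, y, v1 (Full; finrank 3): use exists_fun (LibPol19.G18) or directly: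
span {y - x, v1 - x} has finrank ≤ 2 < 3, so there is a functional m ≠ 0 vanishing on y - x and v1 - x (Submodule.exists_le_ker_of_lt_top, or G18 exists_fun with F := V, S := {y, v1}, v := x: S.card ≤ 2 < 3 = dm V;
it gives m with m y = m x, m v1 = m x and some z ∈ V with m z ≠ m x). Then ρ v1 = 0, ρ z ≠ 0 (z ∈ N because m z ≠ m x).
(2) Let M be the maximum of ρ on N, F1 := V.filter (v ∈ e ∨ ρ v = M) = V.filter ((m + M ℓ) v = m0 + M c): for v ∈ N: m v - m0 ≤ M (c - ℓ v), i.e. (m + M • ℓ) v ≤ m0 + M c with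
equality iff ρ v = M; for v ∈ e equality. So F1 is a face, e ⊂ F1 (a maximiser), F1 ≠ V (not all ratios are equal), so 1 = dm e < dm F1 < dm V = 3 (dm_lt, G08; IsFace F1 in V; IsFace e in F1 by
face_restrict G03): dm F1 = 2: Fct V F1. The same with -m (i.e. the minimum M' of ρ): F2. M' < M, so F1 ∩ F2 = e: v ∈ F1 ∩ F2, v ∉ e gives ρ v = M and ρ v = M'. F1 ≠ F2.
(3) A facet G ⊇ e: functional g with bound b, equality iff v ∈ G. Suppose G ≠ F1, G ≠ F2. two_inter (G11) for G and Fi: G ∩ Fi = e (any z in both is x or y). Let u1 ∈ F1 \ e, u2 ∈ F2 \ e, u ∈ G \ e (a facet has at least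
three vertices: dm = 2, dm_one). Linear algebra in the 2-dimensional quotient: the four vectors y - x, u1 - x, u2 - x, u - x are linearly dependent in ℝ³: α1 (u1 - x) + α2 (u2 - x) + α3 (u - x) + β (y - x) = 0 not all zero;
(not all αi are zero because y ≠ x). The face functionals m1 := m + M ℓ of F1, m2 := -m - M' ℓ of F2, g of G vanish on y - x; mi is 0 on ui - x and < 0 on the two others, g is 0 on u - x and < 0 on u1 - x, u2 - x.
So G10_zero (LibPol19.G10) gives α1 = α2 = α3 = 0: contradiction.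
(All three facts are special cases of: three facets through e are not pairwise different.) -/

set_option autoImplicit false

namespace Pool.Agent.LibGP88

open Finset Pool.Agent.LibPol19 Pool.Agent.LibTet88
open scoped Classical

/-- two facets with two common vertices meet in an edge -/
theorem inter_pair {V F F' : Finset (Ed 3)} (hV : Gen V) (hF : Fct V F) (hF' : Fct V F') (hne : F ≠ F') {x y : Ed 3}
    (hx : x ∈ F) (hx' : x ∈ F') (hy : y ∈ F) (hy' : y ∈ F') (hxy : x ≠ y) : F ∩ F' = {x, y} ∧ Adj V x y := by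
  obtain ⟨h1, h2⟩ := two_inter hV.vert hF.1 hF.2 hF'.1 hF'.2 hne hx hx' hy hy' hxy
  refine ⟨?_, h1⟩
  ext z
  rw [Finset.mem_inter, Finset.mem_insert, Finset.mem_singleton]
  constructor
  · rintro ⟨hz, hz'⟩
    exact h2 z hz hz'
  · rintro (rfl | rfl)
    · exact ⟨hx, hx'⟩
    · exact ⟨hy, hy'⟩

/-- two facets containing a set of two vertices meet in it, and it is an edge -/
theorem inter_edge {V F F' e : Finset (Ed 3)} (hV : Gen V) (hF : Fct V F) (hF' : Fct V F') (hne : F ≠ F')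
    (he : e ⊆ F) (he' : e ⊆ F') (h2 : e.card = 2) : F ∩ F' = e ∧ e ∈ edg V := by
  obtain ⟨x, y, hxy, rfl⟩ := Finset.card_eq_two.1 h2
  obtain ⟨h3, h4⟩ := inter_pair hV hF hF' hne (he (Finset.mem_insert_self _ _)) (he' (Finset.mem_insert_self _ _))
    (he (Finset.mem_insert_of_mem (Finset.mem_singleton_self _))) (he' (Finset.mem_insert_of_mem (Finset.mem_singleton_self _))) hxy
  exact ⟨h3, pair_mem_edg.2 h4⟩

/-- two facets have at most two common vertices -/
theorem inter_card {V F F' : Finset (Ed 3)} (hV : Gen V) (hF : Fct V F) (hF' : Fct V F') (hne : F ≠ F') :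
    (F ∩ F').card ≤ 2 := by
  by_contra hlt
  push Not at hlt
  obtain ⟨x, hx, y, hy, hxy⟩ := Finset.one_lt_card.1 (by omega : 1 < (F ∩ F').card)
  rw [Finset.mem_inter] at hx hy
  have h := (inter_pair hV hF hF' hne hx.1 hx.2 hy.1 hy.2 hxy).1
  rw [h, Finset.card_pair hxy] at hlt
  omega

/-- some facet contains `x` and not `w` -/
theorem exists_out {V : Finset (Ed 3)} (hV : Gen V) {x w : Ed 3} (hx : x ∈ V) (hw : w ∈ V) (hxw : x ≠ w) :
    ∃ F, Fct V F ∧ x ∈ F ∧ w ∉ F := by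
  obtain ⟨F, h1, h2, h3, h4⟩ := exists_facet hV.full (face_single hV.vert hx) hw (by simpa using hxw.symm)
  exact ⟨F, ⟨h1, by omega⟩, h3 (Finset.mem_singleton_self x), h4⟩

private theorem dm_V {V : Finset (Ed 3)} (hV : Gen V) : dm V = 3 := by
  have h := hV.full
  unfold Full at h
  unfold dm
  rw [h, finrank_top, finrank_euclideanSpace_fin]

/-- a 3-polytope has at least four vertices -/
theorem four_le {V : Finset (Ed 3)} (hV : Gen V) : 4 ≤ V.card := by
  by_contra hlt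
  push Not at hlt
  have h3 := dm_V hV
  rcases Nat.eq_zero_or_pos V.card with h0 | hpos
  · rw [Finset.card_eq_zero] at h0
    subst h0
    unfold dm at h3
    rw [Finset.coe_empty, vectorSpan_empty, finrank_bot] at h3
    omega
  · obtain ⟨n, hn⟩ : ∃ n, V.card = n + 1 := ⟨V.card - 1, by omega⟩
    have h4 := finrank_vectorSpan_image_finset_le ℝ (fun v : Ed 3 => v) V hn
    rw [Finset.image_id'] at h4
    unfold dm at h3
    omega

/-- three facets through two vertices are not pairwise different -/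
private theorem no_three {V F G H : Finset (Ed 3)} (hV : Gen V) (hF : Fct V F) (hG : Fct V G) (hH : Fct V H)
    (hFG : F ≠ G) (hFH : F ≠ H) (hGH : G ≠ H) {x y : Ed 3} (hxF : x ∈ F) (hyF : y ∈ F) (hxG : x ∈ G) (hyG : y ∈ G)
    (hxH : x ∈ H) (hyH : y ∈ H) (hxy : x ≠ y) : False := by
  have key : ∀ A, Fct V A → x ∈ A → y ∈ A → ∃ u ∈ A, u ≠ x ∧ u ≠ y := by
    intro A hA hxA hyA
    by_contra hcon
    push Not at hcon
    have h1 : A = {x, y} := by
      ext z
      rw [Finset.mem_insert, Finset.mem_singleton]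
      constructor
      · intro hz
        by_cases h : z = x
        · exact Or.inl h
        · exact Or.inr (hcon z hz h)
      · rintro (rfl | rfl)
        · exact hxA
        · exact hyA
    have h2 := hA.2
    rw [h1, dm_one (Finset.card_pair hxy)] at h2
    omega
  have key2 : ∀ A B, Fct V A → Fct V B → A ≠ B → x ∈ A → y ∈ A → x ∈ B → y ∈ B → ∀ u ∈ B, u ≠ x → u ≠ y → u ∉ A := by
    intro A B hA hB hne h1 h2 h3 h4 u hu hux huy huA
    have h5 := (inter_pair hV hA hB hne h1 h3 h2 h4 hxy).1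
    have h6 : u ∈ A ∩ B := Finset.mem_inter.2 ⟨huA, hu⟩
    rw [h5, Finset.mem_insert, Finset.mem_singleton] at h6
    rcases h6 with h6 | h6
    · exact hux h6
    · exact huy h6
  have key3 : ∀ A, Fct V A → x ∈ A → ∃ m : Ed 3 →ₗ[ℝ] ℝ, (∀ u ∈ A, m (u - x) = 0) ∧ ∀ u ∈ V, u ∉ A → m (u - x) < 0 := by
    intro A hA hxA
    obtain ⟨hAf, -⟩ := hA
    obtain ⟨-, hAV, m, c, hm⟩ := hAf
    have hxc : m x = c := (hm x (hAV hxA)).2.2 hxA
    refine ⟨m, fun u hu => ?_, fun u hu huA => ?_⟩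
    · rw [map_sub, hxc, (hm u (hAV hu)).2.2 hu, sub_self]
    · have h1 := (hm u hu).1
      have h2 : m u ≠ c := fun h => huA ((hm u hu).2.1 h)
      have h3 := lt_of_le_of_ne h1 h2
      rw [map_sub, hxc]
      linarith
  obtain ⟨u1, hu1, hu1x, hu1y⟩ := key F hF hxF hyF
  obtain ⟨u2, hu2, hu2x, hu2y⟩ := key G hG hxG hyG
  obtain ⟨u3, hu3, hu3x, hu3y⟩ := key H hH hxH hyH
  obtain ⟨m1, h10, h1n⟩ := key3 F hF hxF
  obtain ⟨m2, h20, h2n⟩ := key3 G hG hxG
  obtain ⟨m3, h30, h3n⟩ := key3 H hH hxH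
  have e12 := h1n u2 (hG.1.2.1 hu2) (key2 F G hF hG hFG hxF hyF hxG hyG u2 hu2 hu2x hu2y)
  have e13 := h1n u3 (hH.1.2.1 hu3) (key2 F H hF hH hFH hxF hyF hxH hyH u3 hu3 hu3x hu3y)
  have e21 := h2n u1 (hF.1.2.1 hu1) (key2 G F hG hF hFG.symm hxG hyG hxF hyF u1 hu1 hu1x hu1y)
  have e23 := h2n u3 (hH.1.2.1 hu3) (key2 G H hG hH hGH hxG hyG hxH hyH u3 hu3 hu3x hu3y)
  have e31 := h3n u1 (hF.1.2.1 hu1) (key2 H F hH hF hFH.symm hxH hyH hxF hyF u1 hu1 hu1x hu1y)
  have e32 := h3n u2 (hG.1.2.1 hu2) (key2 H G hH hG hGH.symm hxH hyH hxG hyG u2 hu2 hu2x hu2y)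
  have hdep : ¬ LinearIndependent ℝ ![y - x, u1 - x, u2 - x, u3 - x] := by
    intro h
    have h1 := h.fintype_card_le_finrank
    rw [finrank_euclideanSpace_fin, Fintype.card_fin] at h1
    omega
  rw [Fintype.not_linearIndependent_iff] at hdep
  obtain ⟨g, hg, i, hi⟩ := hdep
  rw [Fin.sum_univ_four] at hg
  have hg' : g 0 • (y - x) + g 1 • (u1 - x) + g 2 • (u2 - x) + g 3 • (u3 - x) = 0 := hg
  have ap : ∀ m : Ed 3 →ₗ[ℝ] ℝ, g 0 * m (y - x) + g 1 * m (u1 - x) + g 2 * m (u2 - x) + g 3 * m (u3 - x) = 0 := by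
    intro m
    have h1 := congrArg m hg'
    rw [map_zero, map_add, map_add, map_add, map_smul, map_smul, map_smul, map_smul, smul_eq_mul, smul_eq_mul,
      smul_eq_mul, smul_eq_mul] at h1
    exact h1
  have a1 := ap m1
  have a2 := ap m2
  have a3 := ap m3
  rw [h10 y hyF, h10 u1 hu1] at a1
  rw [h20 y hyG, h20 u2 hu2] at a2
  rw [h30 y hyH, h30 u3 hu3] at a3
  obtain ⟨z1, z2, z3⟩ := G10_zero (c₁ := g 1) (c₂ := g 2) (c₃ := g 3) e12 e13 e21 e23 e31 e32 (by linarith)
    (by linarith) (by linarith)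
  rw [z1, z2, z3, zero_smul, zero_smul, zero_smul, add_zero, add_zero, add_zero] at hg'
  have z0 : g 0 = 0 := by
    rcases smul_eq_zero.1 hg' with h | h
    · exact h
    · exact absurd (sub_eq_zero.1 h).symm hxy
  apply hi
  fin_cases i
  · exact z0
  · exact z1
  · exact z2
  · exact z3

/-- the facet given by the maximal ratio -/
private theorem fct_max {V : Finset (Ed 3)} (hV : Gen V) {ℓ : Ed 3 →ₗ[ℝ] ℝ} {c : ℝ} {x y : Ed 3} (hxy : x ≠ y)
    (hℓ : ∀ v ∈ V, ℓ v ≤ c ∧ (ℓ v = c ↔ v ∈ ({x, y} : Finset (Ed 3)))) (hx : x ∈ V) (hy : y ∈ V)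
    {m : Ed 3 →ₗ[ℝ] ℝ} (hm : m y = m x) {a b : Ed 3} (ha : a ∈ V) (hb : b ∈ V) (hac : ℓ a < c) (hbc : ℓ b < c)
    (hab : (m a - m x) / (c - ℓ a) < (m b - m x) / (c - ℓ b)) :
    ∃ M : ℝ, (∀ v ∈ V, m v - m x ≤ M * (c - ℓ v)) ∧ Fct V (V.filter fun v => m v - m x = M * (c - ℓ v)) := by
  have hxc : ℓ x = c := (hℓ x hx).2.2 (by simp)
  have hyc : ℓ y = c := (hℓ y hy).2.2 (by simp)
  obtain ⟨u, hu, hmax⟩ := Finset.exists_max_image (V.filter fun v => ℓ v < c) (fun v => (m v - m x) / (c - ℓ v))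
    ⟨b, Finset.mem_filter.2 ⟨hb, hbc⟩⟩
  rw [Finset.mem_filter] at hu
  obtain ⟨huV, huc⟩ := hu
  obtain ⟨M, hM⟩ : ∃ M, M = (m u - m x) / (c - ℓ u) := ⟨_, rfl⟩
  have hle : ∀ v ∈ V, m v - m x ≤ M * (c - ℓ v) := by
    intro v hv
    by_cases hvc : ℓ v < c
    · have h1 := hmax v (Finset.mem_filter.2 ⟨hv, hvc⟩)
      rw [← hM, div_le_iff₀ (by linarith)] at h1
      exact h1
    · have h1 : ℓ v = c := le_antisymm (hℓ v hv).1 (not_lt.1 hvc)
      have h2 := (hℓ v hv).2.1 h1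
      rw [Finset.mem_insert, Finset.mem_singleton] at h2
      rcases h2 with h2 | h2
      · rw [h2, hxc]; simp
      · rw [h2, hyc, hm]; simp
  refine ⟨M, hle, ?_⟩
  obtain ⟨F, hFdef⟩ : ∃ F, F = V.filter fun v => m v - m x = M * (c - ℓ v) := ⟨_, rfl⟩
  rw [← hFdef]
  have hmem : ∀ v, v ∈ F ↔ v ∈ V ∧ m v - m x = M * (c - ℓ v) := by
    intro v
    rw [hFdef, Finset.mem_filter]
  have hFV : F ⊆ V := fun v hv => ((hmem v).1 hv).1
  have hxF : x ∈ F := (hmem x).2 ⟨hx, by rw [hxc]; simp⟩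
  have hyF : y ∈ F := (hmem y).2 ⟨hy, by rw [hyc, hm]; simp⟩
  have huF : u ∈ F := (hmem u).2 ⟨huV, by rw [hM]; field_simp [(by linarith : c - ℓ u ≠ 0)]⟩
  have haF : a ∉ F := by
    intro h
    have h1 := ((hmem a).1 h).2
    have h2 : (m a - m x) / (c - ℓ a) = M := by
      rw [h1, mul_div_assoc, div_self (by linarith), mul_one]
    have h3 := hmax b (Finset.mem_filter.2 ⟨hb, hbc⟩)
    rw [← hM] at h3
    linarith
  have hFf : IsFace V F := by
    refine ⟨⟨x, hxF⟩, hFV, m + M • ℓ, m x + M * c, fun v hv => ?_⟩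
    have h1 : (m + M • ℓ) v = m v + M * ℓ v := rfl
    have h2 := hle v hv
    rw [h1, hmem v]
    refine ⟨by linarith, ?_, ?_⟩
    · intro h
      exact ⟨hv, by linarith⟩
    · intro h
      linarith [h.2]
  have hex : ({x, y} : Finset (Ed 3)) ⊆ F := by
    intro z hz
    rw [Finset.mem_insert, Finset.mem_singleton] at hz
    rcases hz with rfl | rfl
    · exact hxF
    · exact hyF
  have hef : IsFace V {x, y} := ⟨⟨x, by simp⟩, hex.trans hFV, ℓ, c, hℓ⟩
  have hune : u ∉ ({x, y} : Finset (Ed 3)) := by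
    intro h
    have := (hℓ u huV).2.2 h
    linarith
  have h1 : dm ({x, y} : Finset (Ed 3)) < dm F := by
    refine dm_lt hef ?_ hFV
    exact Finset.ssubset_iff_subset_ne.2 ⟨hex, fun h => hune (h ▸ huF)⟩
  have h2 : dm F < dm V := by
    refine dm_lt hFf ?_ (Finset.Subset.refl V)
    exact Finset.ssubset_iff_subset_ne.2 ⟨hFV, fun h => haF (h ▸ ha)⟩
  rw [dm_one (Finset.card_pair hxy)] at h1
  rw [dm_V hV] at h2
  exact ⟨hFf, by omega⟩

/-- Q2: an edge is in exactly two facets -/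
theorem edge_two {V : Finset (Ed 3)} (hV : Gen V) {e : Finset (Ed 3)} (he : e ∈ edg V) :
    ∃ F F', F ≠ F' ∧ Fct V F ∧ Fct V F' ∧ F ∩ F' = e ∧ ∀ G, Fct V G → e ⊆ G → G = F ∨ G = F' := by
  obtain ⟨x, y, rfl, hxy, hef⟩ := edg_pair he
  obtain ⟨-, heV, ℓ, c, hℓ⟩ := hef
  have hx : x ∈ V := heV (by simp)
  have hy : y ∈ V := heV (by simp)
  have hxc : ℓ x = c := (hℓ x hx).2.2 (by simp)
  have hyc : ℓ y = c := (hℓ y hy).2.2 (by simp)
  have hlt : ∀ v ∈ V, v ∉ ({x, y} : Finset (Ed 3)) → ℓ v < c := fun v hv hv' =>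
    lt_of_le_of_ne (hℓ v hv).1 fun h => hv' ((hℓ v hv).2.1 h)
  obtain ⟨v1, hv1, hv1e⟩ : ∃ v1 ∈ V, v1 ∉ ({x, y} : Finset (Ed 3)) := by
    by_contra hcon
    push Not at hcon
    have h1 : V.card ≤ 2 := (Finset.card_le_card (fun v hv => hcon v hv)).trans_eq (Finset.card_pair hxy)
    have h2 := four_le hV
    omega
  have hv1c := hlt v1 hv1 hv1e
  obtain ⟨m, hm, z, hz, hmz⟩ := exists_fun (F := V) (S := ({y, v1} : Finset (Ed 3))) hx (by
    rw [dm_V hV]
    exact lt_of_le_of_lt Finset.card_le_two (by omega))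
  have hmy : m y = m x := hm y (by simp)
  have hmv1 : m v1 = m x := hm v1 (by simp)
  have hze : z ∉ ({x, y} : Finset (Ed 3)) := by
    intro h
    rw [Finset.mem_insert, Finset.mem_singleton] at h
    rcases h with rfl | rfl
    · exact hmz rfl
    · exact hmz hmy
  have hzc := hlt z hz hze
  -- the two ratios are different
  have hrat : ∃ a b, a ∈ V ∧ b ∈ V ∧ ℓ a < c ∧ ℓ b < c ∧ (m a - m x) / (c - ℓ a) < (m b - m x) / (c - ℓ b) := by
    have h0 : (m v1 - m x) / (c - ℓ v1) = 0 := by rw [hmv1, sub_self, zero_div]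
    rcases lt_or_gt_of_ne hmz with h | h
    · refine ⟨z, v1, hz, hv1, hzc, hv1c, ?_⟩
      rw [h0]
      exact div_neg_of_neg_of_pos (by linarith) (by linarith)
    · refine ⟨v1, z, hv1, hz, hv1c, hzc, ?_⟩
      rw [h0]
      exact div_pos (by linarith) (by linarith)
  obtain ⟨a, b, ha, hb, hac, hbc, hab⟩ := hrat
  obtain ⟨M, hM, hF⟩ := fct_max hV hxy hℓ hx hy hmy ha hb hac hbc hab
  obtain ⟨M', hM', hF'⟩ := fct_max hV hxy hℓ hx hy (m := -m) (by rw [LinearMap.neg_apply, LinearMap.neg_apply, hmy])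
    hb ha hbc hac (by
      rw [LinearMap.neg_apply, LinearMap.neg_apply, LinearMap.neg_apply]
      have h1 : (-m b - -m x) / (c - ℓ b) = -((m b - m x) / (c - ℓ b)) := by ring
      have h2 : (-m a - -m x) / (c - ℓ a) = -((m a - m x) / (c - ℓ a)) := by ring
      rw [h1, h2]
      linarith)
  have hsum : 0 < M + M' := by
    have h1 := hM b hb
    have h2 := hM' a ha
    rw [LinearMap.neg_apply, LinearMap.neg_apply] at h2
    have h3 : (m b - m x) / (c - ℓ b) ≤ M := by rw [div_le_iff₀ (by linarith)]; exact h1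
    have h4 : -((m a - m x) / (c - ℓ a)) ≤ M' := by
      have h5 : (-m a - -m x) / (c - ℓ a) ≤ M' := by rw [div_le_iff₀ (by linarith)]; exact h2
      have h6 : (-m a - -m x) / (c - ℓ a) = -((m a - m x) / (c - ℓ a)) := by ring
      rw [← h6]
      exact h5
    linarith
  obtain ⟨F, hFdef⟩ : ∃ F, F = V.filter fun v => m v - m x = M * (c - ℓ v) := ⟨_, rfl⟩
  obtain ⟨F', hFdef'⟩ : ∃ F', F' = V.filter fun v => (-m) v - (-m) x = M' * (c - ℓ v) := ⟨_, rfl⟩
  rw [← hFdef] at hF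
  rw [← hFdef'] at hF'
  have hxF : x ∈ F := by rw [hFdef, Finset.mem_filter]; exact ⟨hx, by rw [hxc]; simp⟩
  have hyF : y ∈ F := by rw [hFdef, Finset.mem_filter]; exact ⟨hy, by rw [hyc, hmy]; simp⟩
  have hxF' : x ∈ F' := by rw [hFdef', Finset.mem_filter]; exact ⟨hx, by rw [hxc]; simp⟩
  have hyF' : y ∈ F' := by
    rw [hFdef', Finset.mem_filter]
    exact ⟨hy, by rw [hyc, LinearMap.neg_apply, LinearMap.neg_apply, hmy]; simp⟩
  have hint : F ∩ F' = {x, y} := by
    ext v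
    rw [Finset.mem_inter]
    constructor
    · rintro ⟨h1, h2⟩
      rw [hFdef, Finset.mem_filter] at h1
      rw [hFdef', Finset.mem_filter] at h2
      have h3 := h2.2
      rw [LinearMap.neg_apply, LinearMap.neg_apply] at h3
      have h4 : (M + M') * (c - ℓ v) = 0 := by linarith [h1.2]
      rcases mul_eq_zero.1 h4 with h5 | h5
      · linarith
      · exact (hℓ v h1.1).2.1 (by linarith)
    · intro h
      rw [Finset.mem_insert, Finset.mem_singleton] at h
      rcases h with rfl | rfl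
      · exact ⟨hxF, hxF'⟩
      · exact ⟨hyF, hyF'⟩
  have hne : F ≠ F' := by
    intro h
    rw [← h, Finset.inter_self] at hint
    have h1 := hF.2
    rw [hint, dm_one (Finset.card_pair hxy)] at h1
    omega
  refine ⟨F, F', hne, hF, hF', hint, fun G hG heG => ?_⟩
  by_contra hcon
  push Not at hcon
  exact no_three hV hF hF' hG hne hcon.1.symm hcon.2.symm hxF hyF hxF' hyF' (heG (by simp)) (heG (by simp)) hxy

end Pool.Agent.LibGP88
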