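import Mathlib
import Pool.Agent.LibGP88.Defs
import Pool.Agent.LibGP88.D1
import Pool.Agent.LibGP88.D2
import Pool.Agent.LibGP88.Q2
import Pool.Agent.LibPol19.G01
import Pool.Agent.LibPol19.G07
import Pool.Agent.LibPol19.G08

/-! Row D3. Board GP88. Adjacent polar points come from facets with a common edge.
Let A := {M F, M G} be a face of pts V M: a functional ℓ and c: ℓ (M H) ≤ c for all facets H, equality iff M H ∈ A iff H = F or H = G (polar_inj). ℓ m = inner ℝ m y for a vector y (Riesz: y := (InnerProductSpace.toDual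
ℝ (Ed 3)).symm (LinearMap.toContinuousLinearMap ℓ), real_inner_comm).
(1) c > 0. Otherwise choose y' := y if y ≠ 0; if y = 0: c = 0 ( ≥: ℓ (M F) = c), all facets H satisfy equality, so F and G are the only facets: choose y' ≠ 0 orthogonal to M F and M G (two vectors in dimension 3:
Submodule.span {M F, M G} ≠ ⊤, so its orthogonal complement is not ⊥). In both cases inner (M H) y' ≤ 0 for all facets H, so for every s ≥ 0: inner (M H) ((o + s • y') - o) = s * inner (M H) y' ≤ 0 ≤ 1, and o + s • y' ∈ hl V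
by the hypothesis hh (the second half of D1). But hl V is bounded (Bornology.IsBounded: Set.Finite.isCompact_convexHull ..isBounded; or bound the functional z ↦ inner ℝ y' z on V by its maximum: le_of_hl;
inner y' (o + s • y') = inner y' o + s * ‖y'‖^2 is unbounded in s). Contradiction.
(2) z := o + (1/c) • y: inner (M H) (z - o) = (1/c) ℓ (M H) ≤ 1, = 1 iff H = F or H = G. z ∈ hl V (hh). z ∈ hl F: hl_filter (LibTet88.Basic) for the functional inner (M F) (· - o) ... (linear functional inner (M F) ·, value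
1 + inner (M F) o): z ∈ hl (V.filter ..) ⊆ hl F (hl_mono). Also z ∈ hl G, so z ∈ hl (F ∩ G) (hl_face (hA : IsFace V G) (ht : F ⊆ V)). F ∩ G is nonempty (hl_empty).
(3) If F ∩ G contains two vertices x ≠ y: inter_pair (Q2): {x, y} is an edge, contained in both: done. Otherwise F ∩ G = {v}: z = v (hl_single). v has a neighbour u: (nb V v) is nonempty (dm_le_card (G07) with A := V (face_self, G03):
3 = dm V ≤ (nb V v ∩ V).card). The edge e := {v, u} is in two different facets H, H' (edge_two, Q2), both contain v = z, so inner (M H) (z - o) = 1, H ∈ {F, G}, H' ∈ {F, G}: {H, H'} = {F, G}, so e ⊆ F ∩ G has two elements: contradiction. -/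

set_option autoImplicit false

namespace Pool.Agent.LibGP88

open Finset Pool.Agent.LibPol19 Pool.Agent.LibTet88
open scoped Classical

private theorem d3_ray {V : Finset (Ed 3)} {o : Ed 3} {M : Finset (Ed 3) → Ed 3}
    (hh : ∀ z : Ed 3, (∀ F, Fct V F → inner ℝ (M F) (z - o) ≤ 1) → z ∈ hl V) {y : Ed 3} (hy : y ≠ 0)
    (h : ∀ F, Fct V F → inner ℝ (M F) y ≤ 0) : False := by
  have hb : ∀ v ∈ V, (innerₛₗ ℝ y : Ed 3 →ₗ[ℝ] ℝ) v ≤ ∑ u ∈ V, |inner ℝ y u| := by
    intro v hv
    rw [innerₛₗ_apply_apply]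
    exact (le_abs_self _).trans (Finset.single_le_sum (f := fun u => |inner ℝ y u|) (fun u _ => abs_nonneg _) hv)
  have hpos : 0 < inner ℝ y y := real_inner_self_pos.2 hy
  obtain ⟨C, hC⟩ : ∃ C : ℝ, C = ∑ u ∈ V, |inner ℝ y u| := ⟨_, rfl⟩
  rw [← hC] at hb
  obtain ⟨s, hs⟩ : ∃ s : ℝ, s = (|C - inner ℝ y o| + 1) / inner ℝ y y := ⟨_, rfl⟩
  have hs0 : 0 ≤ s := by rw [hs]; positivity
  have hsy : s * inner ℝ y y = |C - inner ℝ y o| + 1 := by rw [hs]; field_simp
  have hz : o + s • y ∈ hl V := by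
    apply hh
    intro F hF
    rw [add_sub_cancel_left, inner_smul_right]
    have := mul_nonpos_of_nonneg_of_nonpos hs0 (h F hF)
    linarith
  have h1 := le_of_hl _ hb hz
  rw [innerₛₗ_apply_apply, inner_add_right, inner_smul_right, hsy] at h1
  have h2 := le_abs_self (C - inner ℝ y o)
  linarith

private theorem d3_perp (a b : Ed 3) : ∃ y : Ed 3, y ≠ 0 ∧ inner ℝ a y = 0 ∧ inner ℝ b y = 0 := by
  have h1 : Module.finrank ℝ (Submodule.span ℝ (({a, b} : Finset (Ed 3)) : Set (Ed 3))) ≤ 2 :=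
    (finrank_span_finset_le_card _).trans Finset.card_le_two
  have h2 : (Submodule.span ℝ (({a, b} : Finset (Ed 3)) : Set (Ed 3)))ᗮ ≠ ⊥ := by
    intro h
    rw [Submodule.orthogonal_eq_bot_iff] at h
    rw [h, finrank_top, finrank_euclideanSpace, Fintype.card_fin] at h1
    omega
  obtain ⟨y, hy, hy0⟩ := Submodule.exists_mem_ne_zero_of_ne_bot h2
  rw [Submodule.mem_orthogonal] at hy
  exact ⟨y, hy0, hy a (Submodule.subset_span (by simp)), hy b (Submodule.subset_span (by simp))⟩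

private theorem d3_mem {V : Finset (Ed 3)} {o : Ed 3} {M : Finset (Ed 3) → Ed 3} (hM : Pol V o M) {z : Ed 3}
    (hz : z ∈ hl V) {H : Finset (Ed 3)} (hH : Fct V H) (h1 : inner ℝ (M H) (z - o) = 1) : z ∈ hl H := by
  have hb : ∀ v ∈ V, (innerₛₗ ℝ (M H) : Ed 3 →ₗ[ℝ] ℝ) v ≤ 1 + inner ℝ (M H) o := by
    intro v hv
    have h2 := (hM H hH v hv).1
    rw [inner_sub_right] at h2
    rw [innerₛₗ_apply_apply]
    linarith
  have hc : (innerₛₗ ℝ (M H) : Ed 3 →ₗ[ℝ] ℝ) z = 1 + inner ℝ (M H) o := by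
    rw [inner_sub_right] at h1
    rw [innerₛₗ_apply_apply]
    linarith
  refine hl_mono ?_ (hl_filter _ hb hz hc)
  intro v hv
  rw [Finset.mem_filter] at hv
  obtain ⟨hv, h2⟩ := hv
  rw [innerₛₗ_apply_apply] at h2
  refine (hM H hH v hv).2.1 ?_
  rw [inner_sub_right]
  linarith

private theorem d3_nb {V : Finset (Ed 3)} (hV : Gen V) {v : Ed 3} (hv : v ∈ V) : ∃ u, Adj V v u := by
  have h1 : dm V = 3 := by
    unfold dm
    have h2 : vectorSpan ℝ (V : Set (Ed 3)) = ⊤ := hV.full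
    rw [h2, finrank_top, finrank_euclideanSpace, Fintype.card_fin]
  have h2 := dm_le_card hV.vert (face_self ⟨v, hv⟩) hv
  rw [h1] at h2
  have h3 : (nb V v ∩ V).Nonempty := Finset.card_pos.1 (by omega)
  obtain ⟨u, hu⟩ := h3
  rw [Finset.mem_inter] at hu
  obtain ⟨hu, -⟩ := hu
  unfold nb at hu
  rw [Finset.mem_filter] at hu
  exact ⟨u, hu.2⟩

/-- D3: adjacent polar points -/
theorem polar_adj {V : Finset (Ed 3)} (hV : Gen V) {o : Ed 3} {M : Finset (Ed 3) → Ed 3} (hM : Pol V o M)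
    (hh : ∀ z : Ed 3, (∀ F, Fct V F → inner ℝ (M F) (z - o) ≤ 1) → z ∈ hl V) {F G : Finset (Ed 3)} (hF : Fct V F)
    (hG : Fct V G) (hne : F ≠ G) (h : IsFace (pts V M) {M F, M G}) : ∃ e ∈ edg V, e ⊆ F ∧ e ⊆ G := by
  obtain ⟨-, -, ℓ, c, hℓ⟩ := h
  obtain ⟨y, hy⟩ : ∃ y : Ed 3, ∀ m : Ed 3, inner ℝ m y = ℓ m :=
    ⟨(InnerProductSpace.toDual ℝ (Ed 3)).symm (LinearMap.toContinuousLinearMap ℓ), fun m => by
      rw [real_inner_comm, InnerProductSpace.toDual_symm_apply, LinearMap.coe_toContinuousLinearMap']⟩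
  have hle : ∀ H, Fct V H → inner ℝ (M H) y ≤ c := fun H hH => by
    rw [hy]
    exact (hℓ _ (Finset.mem_image_of_mem M (mem_fcs.2 hH))).1
  have heq : ∀ H, Fct V H → (inner ℝ (M H) y = c ↔ H = F ∨ H = G) := by
    intro H hH
    rw [hy, (hℓ _ (Finset.mem_image_of_mem M (mem_fcs.2 hH))).2, Finset.mem_insert, Finset.mem_singleton]
    constructor
    · rintro (h1 | h1)
      · exact Or.inl (polar_inj hM hH hF h1)
      · exact Or.inr (polar_inj hM hH hG h1)
    · rintro (h1 | h1)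
      · rw [h1]; exact Or.inl rfl
      · rw [h1]; exact Or.inr rfl
  have hc : 0 < c := by
    by_contra hc
    rw [not_lt] at hc
    by_cases hy0 : y = 0
    · have hFc : c = 0 := by
        rw [← (heq F hF).2 (Or.inl rfl), hy0, inner_zero_right]
      obtain ⟨y', h1, h2, h3⟩ := d3_perp (M F) (M G)
      refine d3_ray hh h1 fun H hH => ?_
      have h4 : inner ℝ (M H) y = c := by rw [hy0, inner_zero_right, hFc]
      rcases (heq H hH).1 h4 with h5 | h5
      · rw [h5, h2]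
      · rw [h5, h3]
    · exact d3_ray hh hy0 fun H hH => (hle H hH).trans hc
  obtain ⟨z, hzd⟩ : ∃ z : Ed 3, z = o + (1 / c) • y := ⟨_, rfl⟩
  have hzi : ∀ H, inner ℝ (M H) (z - o) = inner ℝ (M H) y / c := by
    intro H
    rw [hzd, add_sub_cancel_left, inner_smul_right]
    ring
  have hz1 : ∀ H, Fct V H → inner ℝ (M H) (z - o) ≤ 1 := by
    intro H hH
    rw [hzi, div_le_one hc]
    exact hle H hH
  have hz2 : ∀ H, Fct V H → (inner ℝ (M H) (z - o) = 1 ↔ H = F ∨ H = G) := by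
    intro H hH
    rw [hzi, div_eq_one_iff_eq hc.ne']
    exact heq H hH
  have hzV : z ∈ hl V := hh z hz1
  have hzF : z ∈ hl F := d3_mem hM hzV hF ((hz2 F hF).2 (Or.inl rfl))
  have hzG : z ∈ hl G := d3_mem hM hzV hG ((hz2 G hG).2 (Or.inr rfl))
  have hzFG : z ∈ hl (F ∩ G) := hl_face hG.1 hF.1.2.1 hzF hzG
  have hne2 : (F ∩ G).Nonempty := by
    by_contra h1
    rw [Finset.not_nonempty_iff_eq_empty] at h1
    rw [h1, hl_empty] at hzFG
    exact hzFG
  obtain ⟨v, hv⟩ := hne2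
  by_cases hvu : ∃ u ∈ F ∩ G, v ≠ u
  · obtain ⟨u, hu, hvu⟩ := hvu
    rw [Finset.mem_inter] at hv hu
    obtain ⟨h1, h2⟩ := inter_pair hV hF hG hne hv.1 hv.2 hu.1 hu.2 hvu
    refine ⟨{v, u}, pair_mem_edg.2 h2, ?_, ?_⟩
    · rw [← h1]; exact Finset.inter_subset_left
    · rw [← h1]; exact Finset.inter_subset_right
  · exfalso
    have hFGv : F ∩ G = {v} := by
      refine Finset.Subset.antisymm (fun u hu => ?_) (Finset.singleton_subset_iff.2 hv)
      by_contra h1
      rw [Finset.mem_singleton] at h1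
      exact hvu ⟨u, hu, fun h2 => h1 h2.symm⟩
    rw [hFGv, hl_single] at hzFG
    have hzv : z = v := hzFG
    have hvV : v ∈ V := hF.1.2.1 (Finset.mem_inter.1 hv).1
    obtain ⟨u, hu⟩ := d3_nb hV hvV
    obtain ⟨H, H', hHH, hH, hH', hHe, -⟩ := edge_two hV (pair_mem_edg.2 hu)
    have hvm : v ∈ H ∩ H' := by rw [hHe]; exact Finset.mem_insert_self _ _
    have hum : u ∈ H ∩ H' := by rw [hHe]; exact Finset.mem_insert_of_mem (Finset.mem_singleton_self _)
    rw [Finset.mem_inter] at hvm hum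
    have h3 : H = F ∨ H = G := (hz2 H hH).1 (by rw [hzv]; exact (hM H hH v hvV).2.2 hvm.1)
    have h4 : H' = F ∨ H' = G := (hz2 H' hH').1 (by rw [hzv]; exact (hM H' hH' v hvV).2.2 hvm.2)
    have h5 : u ∈ F ∩ G := by
      rw [Finset.mem_inter]
      rcases h3 with h3 | h3 <;> rcases h4 with h4 | h4
      · exact absurd (h3.trans h4.symm) hHH
      · exact ⟨h3 ▸ hum.1, h4 ▸ hum.2⟩
      · exact ⟨h4 ▸ hum.2, h3 ▸ hum.1⟩
      · exact absurd (h3.trans h4.symm) hHH
    rw [hFGv, Finset.mem_singleton] at h5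
    exact hu.1 h5.symm

end Pool.Agent.LibGP88
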