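import Mathlib
import Pool.Agent.LibGP88.Defs
import Pool.Agent.LibGP88.D1
import Pool.Agent.LibGP88.D2
import Pool.Agent.LibGP88.D3
import Pool.Agent.LibPol19.G03
import Pool.Agent.LibPol19.G17

/-! Row D4. Board GP88. The facet graph is connected, also locally at a vertex.
exists_polar (D1) gives o, M with hM : Pol V o M (unfold) and hh. polar_vert (D2): IsVert (pts V M). conn_face (LibPol19.G17): for a face A of pts V M and x, y ∈ A: ReflTransGen (fun u w => Adj (pts V M) u w ∧ w ∈ A) x y.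
(1) star_conn: A := (fat V w).image M (polar_star; nonempty: F). x := M F, y := M G. Transport the chain back: by induction on the chain (Relation.ReflTransGen.head_induction_on or .rec) prove: for every y' ∈ A reached from M F
there is a facet H through w with M H = y' and ReflTransGen (..) F H; one step: Adj (pts V M) (M H) y'', y'' ∈ A, y'' = M H'': IsFace (pts V M) {M H, M H''} (this is Adj: u ≠ v ∧ IsFace), H ≠ H'',
polar_adj: e ∈ edg V, e ⊆ H, e ⊆ H'': Nx V H H''. At the end M H = M G gives H = G (polar_inj).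
(2) fct_conn: the same with A := pts V M (face_self, G03; nonempty). -/

set_option autoImplicit false

namespace Pool.Agent.LibGP88

open Finset Pool.Agent.LibPol19 Pool.Agent.LibTet88
open scoped Classical

private theorem D4_chain {V : Finset (Ed 3)} (hV : Gen V) {o : Ed 3} {M : Finset (Ed 3) → Ed 3} (hM : Pol V o M)
    (hh : ∀ z : Ed 3, (∀ F, Fct V F → inner ℝ (M F) (z - o) ≤ 1) → z ∈ hl V) (P : Finset (Ed 3) → Prop)
    (A : Finset (Ed 3)) (hA : ∀ y ∈ A, ∃ H, Fct V H ∧ P H ∧ M H = y) {F : Finset (Ed 3)} (hF : Fct V F) (hPF : P F)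
    {y : Ed 3} (h : Relation.ReflTransGen (fun u w => Adj (pts V M) u w ∧ w ∈ A) (M F) y) :
    ∃ H, Fct V H ∧ P H ∧ M H = y ∧ Relation.ReflTransGen (fun H H' => Nx V H H' ∧ P H ∧ P H') F H := by
  induction h with
  | refl => exact ⟨F, hF, hPF, rfl, Relation.ReflTransGen.refl⟩
  | tail _ hbc ih =>
    obtain ⟨H, hH, hPH, hMH, hFH⟩ := ih
    obtain ⟨⟨hne, hface⟩, hcA⟩ := hbc
    obtain ⟨H', hH', hPH', hMH'⟩ := hA _ hcA
    rw [← hMH, ← hMH'] at hface hne
    have hne' : H ≠ H' := fun h => hne (by rw [h])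
    exact ⟨H', hH', hPH', hMH', hFH.tail ⟨⟨hH, hH', polar_adj hV hM hh hH hH' hne' hface⟩, hPH, hPH'⟩⟩

/-- D4: the facets through a vertex are connected -/
theorem star_conn {V : Finset (Ed 3)} (hV : Gen V) {w : Ed 3} (hw : w ∈ V) {F G : Finset (Ed 3)} (hF : Fct V F) (hG : Fct V G)
    (hwF : w ∈ F) (hwG : w ∈ G) : Relation.ReflTransGen (fun H H' => Nx V H H' ∧ w ∈ H ∧ w ∈ H') F G := by
  obtain ⟨o, M, hM, hh⟩ := exists_polar hV
  have hM' : Pol V o M := hM
  have hFf : F ∈ fat V w := mem_filter.2 ⟨mem_fcs.2 hF, hwF⟩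
  have hGf : G ∈ fat V w := mem_filter.2 ⟨mem_fcs.2 hG, hwG⟩
  have h1 := conn_face (polar_vert hM') (polar_star hM' hw ⟨F, hFf⟩) (mem_image_of_mem M hFf) (mem_image_of_mem M hGf)
  obtain ⟨H, hH, -, hMH, hFH⟩ := D4_chain hV hM' hh (fun H => w ∈ H) ((fat V w).image M) (fun y hy => by
    obtain ⟨H, hH, hHy⟩ := mem_image.1 hy
    obtain ⟨h2, h3⟩ := mem_filter.1 hH
    exact ⟨H, mem_fcs.1 h2, h3, hHy⟩) hF hwF h1
  rw [← polar_inj hM' hH hG hMH]
  exact hFH

/-- D4: all facets are connected -/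
theorem fct_conn {V : Finset (Ed 3)} (hV : Gen V) {F G : Finset (Ed 3)} (hF : Fct V F) (hG : Fct V G) :
    Relation.ReflTransGen (Nx V) F G := by
  obtain ⟨o, M, hM, hh⟩ := exists_polar hV
  have hM' : Pol V o M := hM
  have hFf : M F ∈ pts V M := mem_image_of_mem M (mem_fcs.2 hF)
  have hGf : M G ∈ pts V M := mem_image_of_mem M (mem_fcs.2 hG)
  have h1 := conn_face (polar_vert hM') (face_self ⟨M F, hFf⟩) hFf hGf
  obtain ⟨H, hH, -, hMH, hFH⟩ := D4_chain hV hM' hh (fun _ => True) (pts V M) (fun y hy => by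
    obtain ⟨H, hH, hHy⟩ := mem_image.1 hy
    exact ⟨H, mem_fcs.1 hH, trivial, hHy⟩) hF trivial h1
  rw [← polar_inj hM' hH hG hMH]
  exact Relation.ReflTransGen.mono (fun _ _ h => h.1) _ _ hFH

end Pool.Agent.LibGP88
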