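import Mathlib
import Pool.Agent.LibTet88.Basic
import Pool.Agent.LibTet88.Q3
import Pool.Agent.LibGP88.Q2
import Pool.Agent.LibPol19.G09
import Pool.Agent.LibPol19.G01

/-! Row Q3.
fct_poly: IsVert F by vert_sub (hF.1.2.1), dm F = 2. 3 ≤ F.card: for card ≤ 2 dm_zero, dm_one (card 0 impossible: a face is nonempty). The edges: e ⊆ F, card 2: IsFace F e ↔ IsFace V e: → face_trans; ← face_restrict (with hF.1.2.1); mem_edg; e ∈ edg V and e ⊆ F.
mem_Fw: unfold Fw: Finset.mem_filter, mem_powerset; F ⊆ V is part of IsFace.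
fw_nonempty: exists_fct: facets A ≠ B at w; A ∩ B = {w, n} (fct_inter), n ≠ w; the third facet G at n (three_at for A, B at n): only n is common to A, B, G, so w ∉ G.
est_two: e ∈ Est V w: e ∈ edg V, no facet through w contains e. edge_two: F, F': both contain e = F ∩ F', so w ∉ F, w ∉ F': F, F' ∈ Fw. A member G of Fw containing e is F or F'. bd_one: edge_two: A = F or A = F' (e ⊆ A); let F be the other one: F ∩ A = e does not contain w and w ∈ A, so w ∉ F.
-/

set_option autoImplicit false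

namespace Pool.Agent.LibGP88

open Finset Pool.Agent.LibPol19 Pool.Agent.LibTet88
open scoped Classical

variable {d : ℕ}

/-- Q3: facets are polygons -/
theorem fct_poly {V : Finset (Ed 3)} (hV : Gen V) {F : Finset (Ed 3)} (hF : Fct V F) :
    Poly F ∧ 3 ≤ F.card ∧ ∀ e : Finset (Ed 3), e ∈ edg F ↔ e ∈ edg V ∧ e ⊆ F := by
  have hFV : F ⊆ V := hF.1.2.1
  refine ⟨⟨vert_sub hV.vert hFV, hF.2⟩, ?_, ?_⟩
  · by_contra hlt
    push Not at hlt
    have h2 := hF.2
    have hpos : 0 < F.card := Finset.card_pos.2 hF.1.1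
    interval_cases hc : F.card
    · rw [dm_zero hc] at h2
      omega
    · rw [dm_one hc] at h2
      omega
  · intro e
    rw [mem_edg, mem_edg]
    constructor
    · rintro ⟨h1, h2, h3⟩
      exact ⟨⟨h1.trans hFV, h2, face_trans hF.1 h3⟩, h1⟩
    · rintro ⟨⟨h1, h2, h3⟩, h4⟩
      exact ⟨h4, h2, face_restrict h3 h4 hFV⟩

/-- Q3: some facet does not contain `w` -/
theorem fw_nonempty {V : Finset (Ed 3)} (hV : Gen V) {w : Ed 3} (hw : w ∈ V) : (Fw V w).Nonempty := by
  have h4 := four_le hV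
  obtain ⟨x, hx, hxw⟩ := Finset.exists_mem_ne (by omega : 1 < V.card) w
  obtain ⟨F, hF, -, hwF⟩ := exists_out hV hx hw hxw
  exact ⟨F, mem_Fw.2 ⟨hF, hwF⟩⟩

/-- Q3: an edge in no facet through `w` is in exactly two members of `Fw V w` -/
theorem est_two {V : Finset (Ed 3)} (hV : Gen V) {w : Ed 3} {e : Finset (Ed 3)} (he : e ∈ Est V w) :
    ∃ F F', F ≠ F' ∧ F ∈ Fw V w ∧ F' ∈ Fw V w ∧ F ∩ F' = e ∧ (Fw V w).filter (fun G => e ⊆ G) = {F, F'} := by
  unfold Est at he
  rw [Finset.mem_filter] at he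
  obtain ⟨he, hno⟩ := he
  obtain ⟨F, F', hne, hF, hF', hFF, hall⟩ := edge_two hV he
  have heF : e ⊆ F := by rw [← hFF]; exact Finset.inter_subset_left
  have heF' : e ⊆ F' := by rw [← hFF]; exact Finset.inter_subset_right
  have h1 : F ∈ Fw V w := mem_Fw.2 ⟨hF, fun h => hno F hF h heF⟩
  have h2 : F' ∈ Fw V w := mem_Fw.2 ⟨hF', fun h => hno F' hF' h heF'⟩
  refine ⟨F, F', hne, h1, h2, hFF, ?_⟩
  ext G
  rw [Finset.mem_filter, Finset.mem_insert, Finset.mem_singleton]
  constructor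
  · rintro ⟨hG, heG⟩
    exact hall G (mem_Fw.1 hG).1 heG
  · rintro (rfl | rfl)
    · exact ⟨h1, heF⟩
    · exact ⟨h2, heF'⟩

/-- Q3: an edge not containing `w` in a facet through `w` is in exactly one member of `Fw V w` -/
theorem bd_one {V : Finset (Ed 3)} (hV : Gen V) {w : Ed 3} {e A : Finset (Ed 3)} (he : e ∈ edg V) (hw : w ∉ e)
    (hA : Fct V A) (hwA : w ∈ A) (heA : e ⊆ A) :
    ∃ F ∈ Fw V w, A ∩ F = e ∧ (Fw V w).filter (fun G => e ⊆ G) = {F} := by
  have key : ∀ F : Finset (Ed 3), Fct V F → A ∩ F = e → (∀ G, Fct V G → e ⊆ G → G = A ∨ G = F) →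
      ∃ F ∈ Fw V w, A ∩ F = e ∧ (Fw V w).filter (fun G => e ⊆ G) = {F} := by
    intro F hF hAF hall
    have h1 : F ∈ Fw V w := by
      refine mem_Fw.2 ⟨hF, fun h => hw ?_⟩
      rw [← hAF]
      exact Finset.mem_inter.2 ⟨hwA, h⟩
    have heF : e ⊆ F := by rw [← hAF]; exact Finset.inter_subset_right
    refine ⟨F, h1, hAF, ?_⟩
    ext G
    rw [Finset.mem_filter, Finset.mem_singleton]
    constructor
    · rintro ⟨hG, heG⟩
      rcases hall G (mem_Fw.1 hG).1 heG with h2 | h2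
      · exact absurd hwA (h2 ▸ (mem_Fw.1 hG).2)
      · exact h2
    · rintro rfl
      exact ⟨h1, heF⟩
  obtain ⟨F, F', hne, hF, hF', hFF, hall⟩ := edge_two hV he
  rcases hall A hA heA with h1 | h1
  · subst h1
    exact key F' hF' hFF hall
  · subst h1
    exact key F hF (by rw [Finset.inter_comm]; exact hFF) fun G hG heG => (hall G hG heG).symm

end Pool.Agent.LibGP88
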