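import Mathlib
import Pool.Agent.LibGP88.Defs
import Pool.Agent.LibGP88.D2
import Pool.Agent.LibGP88.Q2
import Pool.Agent.LibGP88.Q3
import Pool.Agent.LibPol19.G07
import Pool.Agent.LibPol19.G10
import Pool.Agent.LibPol19.G16

/-! Row E1. Board GP88. Facets and edges at a vertex.
two_at: polygon (LibPol19.G10): (nb V v ∩ F).card = 2. edge_in: F is a facet, x, y ∈ F adjacent in V: {x, y} ∈ edg V. three_nb: dm_le_card (G07) for A := V (face_self, G03), dm V = 3 (Full).
cnt_at: double counting (Finset.sum_card_bipartiteAbove_eq_sum_card_bipartiteBelow or sum_comm of indicator functions): ∑ F ∈ fat V v, (N ∩ F).card = ∑ u ∈ N, ((fat V v).filter (u ∈ ·)).card and for u ∈ N: u is a neighbour of v,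
e := {v, u} ∈ edg V (pair_mem_edg), edge_two: exactly two facets F, F' contain e; the facets through v containing u are exactly those containing e: the filter is {F, F'}, card 2.
fat_card: cnt_at with N := nb V v and two_at: 2 * (fat V v).card = 2 * (nb V v).card. fat_ne: fat_card and three_nb. -/

set_option autoImplicit false

namespace Pool.Agent.LibGP88

open Finset Pool.Agent.LibPol19 Pool.Agent.LibTet88
open scoped Classical

/-- E1: a vertex has two neighbours in a facet -/
theorem two_at {V : Finset (Ed 3)} (hV : Gen V) {F : Finset (Ed 3)} (hF : Fct V F) {v : Ed 3} (hv : v ∈ F) :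
    (nb V v ∩ F).card = 2 := polygon hV.vert hF.1 hF.2 hv

/-- E1: a vertex has at least three neighbours -/
theorem three_nb {V : Finset (Ed 3)} (hV : Gen V) {v : Ed 3} (hv : v ∈ V) : 3 ≤ (nb V v).card := by
  have h1 := dm_le_card hV.vert (face_self ⟨v, hv⟩) hv
  have h2 : dm V = 3 := by
    unfold dm
    rw [show vectorSpan ℝ (V : Set (Ed 3)) = ⊤ from hV.full, finrank_top]
    exact finrank_euclideanSpace_fin
  rw [h2] at h1
  exact h1.trans (Finset.card_le_card Finset.inter_subset_left)

/-- the facets through `v` and a neighbour `u` -/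
private theorem E1_filter {V : Finset (Ed 3)} (hV : Gen V) {v u : Ed 3} (hu : u ∈ nb V v) :
    ((fat V v).filter fun F => u ∈ F).card = 2 := by
  have hadj : Adj V v u := by
    unfold nb at hu
    exact (Finset.mem_filter.1 hu).2
  obtain ⟨F, F', hne, hF, hF', hI, hall⟩ := edge_two hV (pair_mem_edg.2 hadj)
  have hv1 : v ∈ F ∩ F' := by rw [hI]; exact Finset.mem_insert_self _ _
  have hu1 : u ∈ F ∩ F' := by rw [hI]; exact Finset.mem_insert_of_mem (Finset.mem_singleton_self _)
  rw [Finset.mem_inter] at hv1 hu1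
  have h : ((fat V v).filter fun F => u ∈ F) = {F, F'} := by
    ext G
    rw [Finset.mem_filter, Finset.mem_insert, Finset.mem_singleton]
    constructor
    · rintro ⟨h1, h2⟩
      unfold fat at h1
      rw [Finset.mem_filter, mem_fcs] at h1
      refine hall G h1.1 fun z hz => ?_
      rw [Finset.mem_insert, Finset.mem_singleton] at hz
      rcases hz with rfl | rfl
      · exact h1.2
      · exact h2
    · rintro (rfl | rfl)
      · refine ⟨?_, hu1.1⟩
        unfold fat
        rw [Finset.mem_filter, mem_fcs]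
        exact ⟨hF, hv1.1⟩
      · refine ⟨?_, hu1.2⟩
        unfold fat
        rw [Finset.mem_filter, mem_fcs]
        exact ⟨hF', hv1.2⟩
  rw [h, Finset.card_pair hne]

/-- E1: double counting at a vertex -/
theorem cnt_at {V : Finset (Ed 3)} (hV : Gen V) {v : Ed 3} (hv : v ∈ V) {N : Finset (Ed 3)} (hN : N ⊆ nb V v) :
    ∑ F ∈ fat V v, (N ∩ F).card = 2 * N.card := by
  have h := Finset.sum_card_bipartiteAbove_eq_sum_card_bipartiteBelow (s := fat V v) (t := N)
    (fun (F : Finset (Ed 3)) (u : Ed 3) => u ∈ F)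
  have h1 : ∀ F ∈ fat V v, (N.bipartiteAbove (fun (F : Finset (Ed 3)) (u : Ed 3) => u ∈ F) F).card = (N ∩ F).card := by
    intro F _
    unfold Finset.bipartiteAbove
    rw [Finset.filter_mem_eq_inter]
  have h2 : ∀ u ∈ N, ((fat V v).bipartiteBelow (fun (F : Finset (Ed 3)) (u : Ed 3) => u ∈ F) u).card = 2 := by
    intro u hu
    unfold Finset.bipartiteBelow
    exact E1_filter hV (hN hu)
  rw [Finset.sum_congr rfl h1, Finset.sum_congr rfl h2, Finset.sum_const, smul_eq_mul, mul_comm] at h
  exact h

theorem fat_card {V : Finset (Ed 3)} (hV : Gen V) {v : Ed 3} (hv : v ∈ V) : (fat V v).card = (nb V v).card := by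
  have h := cnt_at hV hv (Finset.Subset.refl (nb V v))
  have h1 : ∀ F ∈ fat V v, (nb V v ∩ F).card = 2 := by
    intro F hF
    unfold fat at hF
    rw [Finset.mem_filter, mem_fcs] at hF
    exact two_at hV hF.1 hF.2
  rw [Finset.sum_congr rfl h1, Finset.sum_const, smul_eq_mul] at h
  omega

theorem fat_ne {V : Finset (Ed 3)} (hV : Gen V) {v : Ed 3} (hv : v ∈ V) : (fat V v).Nonempty := by
  have h1 := fat_card hV hv
  have h2 := three_nb hV hv
  rw [← Finset.card_pos]
  omega

end Pool.Agent.LibGP88
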