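import Mathlib
import Pool.Agent.LibGP88.Defs
import Pool.Agent.LibGP88.Q2
import Pool.Agent.LibGP88.D2
import Pool.Agent.LibPol19.G10
import Pool.Agent.LibTet88.Basic

/-! Row E2. Board GP88. At most two facets at v are mixed with respect to a functional ℓ injective on V.
Suppose F1, F2, F3 are three different mixed facets at v (Finset.two_lt_card). For each i: a neighbour u ∈ Fi below v and a neighbour u' ∈ Fi above v; the segment from u to u' crosses the plane ℓ = ℓ v (cross,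
LibTet88.Basic): a point z i = (1 - θ) • u + θ • u' ∈ hl {u, u'} ⊆ hl (Fi), 0 < θ < 1, ℓ (z i) = ℓ v. Let y i := z i - v: ℓ (y i) = 0. Let γ be the exposing functional of v (hV.vert v): γ u, γ u' < γ v, so γ (y i) < 0
(z i is a convex combination). Let m i, c i be the functional of the facet Fi: m i (y i) = 0 (both u, u', v ∈ Fi). For j ≠ i: m i (y j) < 0: ≤ 0 because z j ∈ hl V (le_of_hl), and if = 0 then z j ∈ hl (Fj) and
m i (z j) = c i: z j ∈ hl (Fj ∩ Fi) (hl_filter with A := Fj, then hl_mono: the points of Fj with m i = c i are in Fi). Fi ∩ Fj is {v} or {v, x} (inter_card Q2, v ∈ both): if {v}: z j = v (hl_single), but γ (y j) < 0. If {v, x}: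
z j = v + s • (x - v), 0 ≤ s ≤ 1 (mem_hl_insert with t := {x}, hl_single), 0 = ℓ (z j) - ℓ v = s (ℓ x - ℓ v), ℓ x ≠ ℓ v (injective, x ≠ v, x ∈ V), so s = 0, z j = v, again a contradiction.
Now y 1, y 2, y 3 are in ker ℓ. ℓ ≠ 0 (V has at least two points, ℓ injective on V), so finrank (ker ℓ) = 2 and the three vectors are linearly dependent: c1 y1 + c2 y2 + c3 y3 = 0, not all zero (e.g. LinearIndependent of
Fin 3 vectors in a space of dimension 2 is impossible: LinearIndependent.fintype_card_le_finrank; Fintype.not_linearIndependent_iff). Apply m 1, m 2, m 3: the hypotheses of G10_zero (LibPol19.G10) hold (c2 m1(y2) + c3 m1(y3) = 0 etc.),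
so c1 = c2 = c3 = 0: contradiction. -/

set_option autoImplicit false

namespace Pool.Agent.LibGP88

open Finset Pool.Agent.LibPol19 Pool.Agent.LibTet88
open scoped Classical

private theorem strict_out {V F G : Finset (Ed 3)} (hV : Gen V) {v : Ed 3} {ℓ : Ed 3 →ₗ[ℝ] ℝ}
    (hℓ : Set.InjOn ℓ (V : Set (Ed 3))) (hF : Fct V F) (hG : Fct V G) (hne : F ≠ G) (hvF : v ∈ F) (hvG : v ∈ G)
    {z : Ed 3} (hz : z ∈ hl F) (hz1 : ℓ z = ℓ v) (hz2 : z ≠ v) {m : Ed 3 →ₗ[ℝ] ℝ} {c : ℝ}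
    (hm : ∀ u ∈ V, m u ≤ c ∧ (m u = c ↔ u ∈ G)) : m (z - v) < 0 := by
  have hFV : F ⊆ V := hF.1.2.1
  have hmv : m v = c := (hm v (hFV hvF)).2.2 hvG
  have h1 : m z ≤ c := le_of_hl m (fun u hu => (hm u (hFV hu)).1) hz
  rw [map_sub, hmv, sub_neg]
  refine lt_of_le_of_ne h1 fun h2 => hz2 ?_
  have h3 : z ∈ hl (F ∩ G) := by
    refine hl_mono ?_ (hl_filter m (fun u hu => (hm u (hFV hu)).1) hz h2)
    intro u hu
    rw [Finset.mem_filter] at hu
    exact Finset.mem_inter.2 ⟨hu.1, (hm u (hFV hu.1)).2.1 hu.2⟩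
  have h4 := inter_card hV hF hG hne
  have h5 : v ∈ F ∩ G := Finset.mem_inter.2 ⟨hvF, hvG⟩
  have h6 : insert v ((F ∩ G).erase v) = F ∩ G := Finset.insert_erase h5
  have h7 : ((F ∩ G).erase v).card ≤ 1 := by
    rw [Finset.card_erase_of_mem h5]
    omega
  rcases Finset.eq_empty_or_nonempty ((F ∩ G).erase v) with h8 | h8
  · rw [h8] at h6
    rw [← h6, insert_empty_eq, hl_single] at h3
    exact h3
  · obtain ⟨x, hx⟩ := h8
    have h9 : (F ∩ G).erase v = {x} := by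
      refine Finset.eq_singleton_iff_unique_mem.2 ⟨hx, fun a ha => ?_⟩
      exact Finset.card_le_one.1 h7 a ha x hx
    rw [← h6, h9] at h3
    obtain ⟨q, hq, s, hs0, hs1, hs⟩ := mem_hl_insert (Finset.singleton_nonempty x) h3
    rw [hl_single] at hq
    have hq' : q = x := hq
    subst hq'
    have hx2 := Finset.mem_erase.1 hx
    have hxV : q ∈ V := hFV (Finset.mem_inter.1 hx2.2).1
    have h10 : ℓ q ≠ ℓ v := fun h => hx2.1 (hℓ (by exact_mod_cast hxV) (by exact_mod_cast hFV hvF) h)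
    have h11 : s * (ℓ q - ℓ v) = 0 := by
      have h12 := congrArg ℓ hs
      rw [map_add, map_smul, map_sub, smul_eq_mul, hz1] at h12
      linarith
    rcases mul_eq_zero.1 h11 with h12 | h12
    · rw [hs, h12, zero_smul, add_zero]
    · exact absurd (sub_eq_zero.1 h12) h10

private theorem mixed_dir {V F : Finset (Ed 3)} (hV : Gen V) {v : Ed 3} (hv : v ∈ V) {ℓ : Ed 3 →ₗ[ℝ] ℝ}
    (hFV : F ⊆ V) (h1 : ∃ u ∈ F, Adj V v u ∧ ℓ u < ℓ v) (h2 : ∃ u ∈ F, Adj V v u ∧ ℓ v < ℓ u) :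
    ∃ z : Ed 3, z ∈ hl F ∧ ℓ z = ℓ v ∧ z ≠ v := by
  obtain ⟨u, hu, -, hu1⟩ := h1
  obtain ⟨u', hu', -, hu1'⟩ := h2
  obtain ⟨θ, h0, h1, h2, h3⟩ := cross ℓ hu1 hu1'
  refine ⟨(1 - θ) • u + θ • u', hl_mono ?_ h3, h2, ?_⟩
  · intro a ha
    rw [Finset.mem_insert, Finset.mem_singleton] at ha
    rcases ha with rfl | rfl
    · exact hu
    · exact hu'
  · intro h4
    obtain ⟨γ, hγ⟩ := hV.vert v hv
    have h5 : γ u < γ v := hγ u (hFV hu) (fun h => by rw [h] at hu1; exact lt_irrefl _ hu1)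
    have h6 : γ u' < γ v := hγ u' (hFV hu') (fun h => by rw [h] at hu1'; exact lt_irrefl _ hu1')
    have h7 := congrArg γ h4
    rw [map_add, map_smul, map_smul, smul_eq_mul, smul_eq_mul] at h7
    nlinarith

/-- E2: at most two mixed facets at a vertex -/
theorem mixed_le {V : Finset (Ed 3)} (hV : Gen V) {v : Ed 3} (hv : v ∈ V) {ℓ : Ed 3 →ₗ[ℝ] ℝ}
    (hℓ : Set.InjOn ℓ (V : Set (Ed 3))) :
    ((fat V v).filter fun F => (∃ u ∈ F, Adj V v u ∧ ℓ u < ℓ v) ∧ ∃ u ∈ F, Adj V v u ∧ ℓ v < ℓ u).card ≤ 2 := by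
  by_contra hcon
  push Not at hcon
  obtain ⟨F₁, h1, F₂, h2, F₃, h3, h12, h13, h23⟩ := Finset.two_lt_card.mp hcon
  have key : ∀ F, F ∈ (fat V v).filter (fun F => (∃ u ∈ F, Adj V v u ∧ ℓ u < ℓ v) ∧ ∃ u ∈ F, Adj V v u ∧ ℓ v < ℓ u) →
      Fct V F ∧ v ∈ F ∧ (∃ u ∈ F, Adj V v u ∧ ℓ u < ℓ v) ∧ ∃ z : Ed 3, z ∈ hl F ∧ ℓ z = ℓ v ∧ z ≠ v := by
    intro F hF
    rw [Finset.mem_filter] at hF
    obtain ⟨hF1, hF2, hF3⟩ := hF
    unfold fat at hF1
    rw [Finset.mem_filter, mem_fcs] at hF1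
    exact ⟨hF1.1, hF1.2, hF2, mixed_dir hV hv hF1.1.1.2.1 hF2 hF3⟩
  obtain ⟨f1, v1, ⟨u0, -, -, hu0⟩, z1, a1, b1, c1⟩ := key F₁ h1
  obtain ⟨f2, v2, -, z2, a2, b2, c2⟩ := key F₂ h2
  obtain ⟨f3, v3, -, z3, a3, b3, c3⟩ := key F₃ h3
  obtain ⟨m1, k1, hm1⟩ := f1.1.2.2
  obtain ⟨m2, k2, hm2⟩ := f2.1.2.2
  obtain ⟨m3, k3, hm3⟩ := f3.1.2.2
  have own : ∀ {F : Finset (Ed 3)} {m : Ed 3 →ₗ[ℝ] ℝ} {k : ℝ} {z : Ed 3}, Fct V F → v ∈ F → z ∈ hl F →
      (∀ u ∈ V, m u ≤ k ∧ (m u = k ↔ u ∈ F)) → m (z - v) = 0 := by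
    intro F m k z hF hvF hz hm
    rw [map_sub, (hm v hv).2.2 hvF, eq_of_hl m (fun u hu => (hm u (hF.1.2.1 hu)).2.2 hu) hz, sub_self]
  have o1 := own f1 v1 a1 hm1
  have o2 := own f2 v2 a2 hm2
  have o3 := own f3 v3 a3 hm3
  have s12 := strict_out hV hℓ f2 f1 h12.symm v2 v1 a2 b2 c2 hm1
  have s13 := strict_out hV hℓ f3 f1 h13.symm v3 v1 a3 b3 c3 hm1
  have s21 := strict_out hV hℓ f1 f2 h12 v1 v2 a1 b1 c1 hm2
  have s23 := strict_out hV hℓ f3 f2 h23.symm v3 v2 a3 b3 c3 hm2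
  have s31 := strict_out hV hℓ f1 f3 h13 v1 v3 a1 b1 c1 hm3
  have s32 := strict_out hV hℓ f2 f3 h23 v2 v3 a2 b2 c2 hm3
  have hli : LinearIndependent ℝ ![z1 - v, z2 - v, z3 - v] := by
    rw [Fintype.linearIndependent_iff]
    intro g hg
    rw [Fin.sum_univ_three] at hg
    simp only [Matrix.cons_val_zero, Matrix.cons_val_one, Matrix.cons_val_two, Matrix.head_cons,
      Matrix.tail_cons] at hg
    have e1 := congrArg m1 hg
    have e2 := congrArg m2 hg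
    have e3 := congrArg m3 hg
    simp only [map_add, map_smul, smul_eq_mul, map_zero] at e1 e2 e3
    rw [o1, mul_zero, zero_add] at e1
    rw [o2, mul_zero, add_zero] at e2
    rw [o3, mul_zero, add_zero] at e3
    obtain ⟨y1, y2, y3⟩ := G10_zero s12 s13 s21 s23 s31 s32 e1 e2 e3
    intro i
    fin_cases i
    · exact y1
    · exact y2
    · exact y3
  have hfr := finrank_span_eq_card hli
  have hle : Submodule.span ℝ (Set.range ![z1 - v, z2 - v, z3 - v]) ≤ LinearMap.ker ℓ := by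
    rw [Submodule.span_le]
    rintro x ⟨i, rfl⟩
    fin_cases i
    · exact LinearMap.mem_ker.2 (by show ℓ (z1 - v) = 0; rw [map_sub, b1, sub_self])
    · exact LinearMap.mem_ker.2 (by show ℓ (z2 - v) = 0; rw [map_sub, b2, sub_self])
    · exact LinearMap.mem_ker.2 (by show ℓ (z3 - v) = 0; rw [map_sub, b3, sub_self])
  have h5 := Submodule.finrank_mono hle
  rw [hfr, Fintype.card_fin] at h5
  have h6 : LinearMap.ker ℓ ≠ ⊤ := by
    intro h
    have h7 : ℓ = 0 := LinearMap.ker_eq_top.1 h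
    rw [h7] at hu0
    simp at hu0
  have h7 := Submodule.finrank_lt h6
  have h8 : Module.finrank ℝ (Ed 3) = 3 := finrank_euclideanSpace_fin
  omega

end Pool.Agent.LibGP88
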