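import Mathlib
import Pool.Agent.LibGP88.Defs
import Pool.Agent.LibGP88.E1
import Pool.Agent.LibGP88.E2
import Pool.Agent.LibPol19.G05
import Pool.Agent.LibPol19.G04

/-! Row E3. Board GP88. The facets with top vertex v.
dn V ℓ v: the neighbours below v; tp V ℓ v: the facets through v whose highest vertex is v.
For F ∈ fat V v: (nb V v ∩ F).card = 2 (two_at), so (dn ∩ F).card is 0, 1 or 2. It is 2 iff both neighbours in F are below v iff F ∈ tp: if some u ∈ F has ℓ u > ℓ v then v has a neighbour in F above v (step_face, LibPol19.G05),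
conversely if F ∈ tp all u ∈ F, u ≠ v have ℓ u < ℓ v (injective). It is 1 iff F is mixed (one neighbour below, the other above v: ≠ by injectivity). So with a := tp.card, m := number of mixed facets ≤ 2 (mixed_le):
∑ F ∈ fat V v, (dn ∩ F).card = 2 a + m (split the sum; each term is ≤ 2 * [F ∈ tp] + [F mixed]), and it is 2 * dn.card (cnt_at with N := dn). top_ge: 2 dn.card = 2 a + m ≤ 2 a + 2.
top_max: if v is the maximum of ℓ on V no facet is mixed (m = 0): dn.card ≤ a. dn_min: if v is the minimum, dn is empty. -/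

set_option autoImplicit false

namespace Pool.Agent.LibGP88

open Finset Pool.Agent.LibPol19 Pool.Agent.LibTet88
open scoped Classical

/-- the neighbours below `v` -/
noncomputable def dn (V : Finset (Ed 3)) (ℓ : Ed 3 →ₗ[ℝ] ℝ) (v : Ed 3) : Finset (Ed 3) := (nb V v).filter fun u => ℓ u < ℓ v

/-- the facets with highest vertex `v` -/
noncomputable def tp (V : Finset (Ed 3)) (ℓ : Ed 3 →ₗ[ℝ] ℝ) (v : Ed 3) : Finset (Finset (Ed 3)) :=
  (fat V v).filter fun F => ∀ u ∈ F, ℓ u ≤ ℓ v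

/-- the mixed facets -/
private noncomputable def mxd (V : Finset (Ed 3)) (ℓ : Ed 3 →ₗ[ℝ] ℝ) (v : Ed 3) : Finset (Finset (Ed 3)) :=
  (fat V v).filter fun F => (∃ u ∈ F, Adj V v u ∧ ℓ u < ℓ v) ∧ ∃ u ∈ F, Adj V v u ∧ ℓ v < ℓ u

private theorem term_le {V : Finset (Ed 3)} (hV : Gen V) {v : Ed 3} {ℓ : Ed 3 →ₗ[ℝ] ℝ}
    {F : Finset (Ed 3)} (hF : F ∈ fat V v) :
    (dn V ℓ v ∩ F).card ≤ (if F ∈ tp V ℓ v then 2 else 0) + (if F ∈ mxd V ℓ v then 1 else 0) := by
  have hF0 := hF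
  unfold fat fcs at hF
  rw [mem_filter, mem_filter] at hF
  obtain ⟨⟨-, hFct⟩, hvF⟩ := hF
  have h2 : (nb V v ∩ F).card = 2 := two_at hV hFct hvF
  have hsub : dn V ℓ v ∩ F ⊆ nb V v ∩ F := by
    intro u hu
    rw [mem_inter] at hu ⊢
    exact ⟨(mem_filter.mp hu.1).1, hu.2⟩
  by_cases ht : F ∈ tp V ℓ v
  · rw [if_pos ht]
    have := card_le_card hsub
    omega
  · rw [if_neg ht, zero_add]
    have h3 : ∃ w ∈ F, ℓ v < ℓ w := by
      by_contra hcon
      apply ht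
      unfold tp
      rw [mem_filter]
      refine ⟨hF0, ?_⟩
      intro u hu
      by_contra h
      exact hcon ⟨u, hu, not_le.mp h⟩
    obtain ⟨u', hu'F, hu'ℓ, hu'A⟩ := step_face hV.vert hFct.1 hvF ℓ h3
    have hu'V : u' ∈ V := hFct.1.2.1 hu'F
    have hu'nb : u' ∈ nb V v ∩ F := by
      rw [mem_inter]
      refine ⟨?_, hu'F⟩
      unfold nb
      rw [mem_filter]
      exact ⟨hu'V, hu'A⟩
    have hu'dn : u' ∉ dn V ℓ v ∩ F := by
      intro h
      rw [mem_inter] at h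
      unfold dn at h
      rw [mem_filter] at h
      linarith [h.1.2]
    have hcard : (dn V ℓ v ∩ F).card < (nb V v ∩ F).card := by
      apply card_lt_card
      rw [ssubset_iff_subset_ne]
      refine ⟨hsub, ?_⟩
      intro heq
      rw [heq] at hu'dn
      exact hu'dn hu'nb
    by_cases hz : (dn V ℓ v ∩ F).card = 0
    · rw [hz]
      exact Nat.zero_le _
    · obtain ⟨u, hu⟩ := card_pos.mp (Nat.pos_of_ne_zero hz)
      rw [mem_inter] at hu
      unfold dn nb at hu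
      rw [mem_filter, mem_filter] at hu
      have hm : F ∈ mxd V ℓ v := by
        unfold mxd
        rw [mem_filter]
        exact ⟨hF0, ⟨u, hu.2, hu.1.1.2, hu.1.2⟩, ⟨u', hu'F, hu'A, hu'ℓ⟩⟩
      rw [if_pos hm]
      omega

private theorem sum_le {V : Finset (Ed 3)} (hV : Gen V) {v : Ed 3} (hv : v ∈ V) {ℓ : Ed 3 →ₗ[ℝ] ℝ} :
    2 * (dn V ℓ v).card ≤ 2 * (tp V ℓ v).card + (mxd V ℓ v).card := by
  have hN : dn V ℓ v ⊆ nb V v := filter_subset _ _
  rw [← cnt_at hV hv hN]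
  calc ∑ F ∈ fat V v, (dn V ℓ v ∩ F).card
      ≤ ∑ F ∈ fat V v, ((if F ∈ tp V ℓ v then 2 else 0) + (if F ∈ mxd V ℓ v then 1 else 0)) :=
        sum_le_sum fun F hF => term_le hV hF
    _ = 2 * (tp V ℓ v).card + (mxd V ℓ v).card := by
        rw [sum_add_distrib]
        have e1 : (fat V v).filter (fun F => F ∈ tp V ℓ v) = tp V ℓ v := by
          ext F
          rw [mem_filter]
          exact ⟨fun h => h.2, fun h => ⟨(mem_filter.mp h).1, h⟩⟩
        have e2 : (fat V v).filter (fun F => F ∈ mxd V ℓ v) = mxd V ℓ v := by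
          ext F
          rw [mem_filter]
          exact ⟨fun h => h.2, fun h => ⟨(mem_filter.mp h).1, h⟩⟩
        rw [← sum_filter, ← sum_filter, e1, e2, sum_const, sum_const, smul_eq_mul, smul_eq_mul]
        ring

/-- E3 -/
theorem top_ge {V : Finset (Ed 3)} (hV : Gen V) {v : Ed 3} (hv : v ∈ V) {ℓ : Ed 3 →ₗ[ℝ] ℝ}
    (hℓ : Set.InjOn ℓ (V : Set (Ed 3))) : (dn V ℓ v).card ≤ (tp V ℓ v).card + 1 := by
  have h1 := sum_le hV hv (ℓ := ℓ)
  have h2 : (mxd V ℓ v).card ≤ 2 := mixed_le hV hv hℓ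
  omega

theorem top_max {V : Finset (Ed 3)} (hV : Gen V) {v : Ed 3} (hv : v ∈ V) {ℓ : Ed 3 →ₗ[ℝ] ℝ}
    (hℓ : Set.InjOn ℓ (V : Set (Ed 3))) (hm : ∀ u ∈ V, ℓ u ≤ ℓ v) : (dn V ℓ v).card ≤ (tp V ℓ v).card := by
  have h1 := sum_le hV hv (ℓ := ℓ)
  have h2 : (mxd V ℓ v).card = 0 := by
    rw [card_eq_zero]
    unfold mxd
    rw [filter_eq_empty_iff]
    rintro F hF ⟨-, u, hu, hA, hlt⟩
    unfold fat fcs at hF
    rw [mem_filter, mem_filter, mem_powerset] at hF
    exact absurd (hm u (hF.1.1 hu)) (not_le.mpr hlt)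
  omega

theorem dn_min {V : Finset (Ed 3)} {v : Ed 3} {ℓ : Ed 3 →ₗ[ℝ] ℝ} (hm : ∀ u ∈ V, ℓ v ≤ ℓ u) : (dn V ℓ v).card = 0 := by
  rw [card_eq_zero]
  unfold dn
  rw [filter_eq_empty_iff]
  intro u hu hlt
  unfold nb at hu
  rw [mem_filter] at hu
  exact absurd (hm u hu.1) (not_le.mpr hlt)

end Pool.Agent.LibGP88
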