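import Mathlib
import Pool.Agent.LibGP88.Defs
import Pool.Agent.LibGP88.E3
import Pool.Agent.LibPol19.O01

/-! Row E4. Board GP88. Euler's inequality (the direction needed).
exists_inj V (LibPol19.O01): ℓ injective on V. ∑ v ∈ V, (tp V ℓ v).card = (fcs V).card: every facet F (nonempty) has exactly one highest vertex v, and F ∈ tp V ℓ v (Finset.card_eq_sum_card_fiberwise or card_biUnion: the sets
tp V ℓ v, v ∈ V, are pairwise disjoint (two highest vertices have the same ℓ value, injective) with union fcs V). ∑ v ∈ V, (dn V ℓ v).card = (edg V).card: the edges e with highest vertex v correspond to dn V ℓ v (e = {v, u} ↔ u):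
the sets (dn V ℓ v).image (fun u => {v, u}) are pairwise disjoint with union edg V, and u ↦ {v, u} is injective on dn.
Let v₁ be the maximum and v₀ the minimum of ℓ on V, v₀ ≠ v₁ (V has at least two points). (dn v).card ≤ (tp v).card + 1 for all v; for v₁ the +1 is not needed (top_max); for v₀: (dn v₀).card = 0 ≤ (tp v₀).card. Sum:
(edg V).card ≤ (fcs V).card + (V.card - 2). -/

set_option autoImplicit false

namespace Pool.Agent.LibGP88

open Finset Pool.Agent.LibPol19 Pool.Agent.LibTet88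
open scoped Classical

private theorem E4_fac {V : Finset (Ed 3)} {ℓ : Ed 3 →ₗ[ℝ] ℝ} (hℓ : Set.InjOn ℓ (V : Set (Ed 3))) :
    ∑ v ∈ V, (tp V ℓ v).card ≤ (fcs V).card := by
  have h1 : ∀ v ∈ V, tp V ℓ v = (fcs V).bipartiteAbove (fun (v : Ed 3) (F : Finset (Ed 3)) => F ∈ tp V ℓ v) v := by
    intro v _
    unfold Finset.bipartiteAbove
    ext F
    rw [Finset.mem_filter]
    refine ⟨fun h => ⟨?_, h⟩, fun h => h.2⟩
    exact (Finset.mem_filter.1 (Finset.mem_filter.1 h).1).1
  rw [Finset.sum_congr rfl fun v hv => congrArg Finset.card (h1 v hv),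
    Finset.sum_card_bipartiteAbove_eq_sum_card_bipartiteBelow (fun (v : Ed 3) (F : Finset (Ed 3)) => F ∈ tp V ℓ v),
    Finset.card_eq_sum_ones]
  refine Finset.sum_le_sum fun F _ => ?_
  rw [Finset.card_le_one]
  intro u hu u' hu'
  unfold Finset.bipartiteBelow at hu hu'
  rw [Finset.mem_filter] at hu hu'
  obtain ⟨huV, hu2⟩ := hu
  obtain ⟨huV', hu2'⟩ := hu'
  obtain ⟨ha, hb⟩ := Finset.mem_filter.1 hu2
  obtain ⟨ha', hb'⟩ := Finset.mem_filter.1 hu2'
  have hc : u ∈ F := (Finset.mem_filter.1 ha).2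
  have hc' : u' ∈ F := (Finset.mem_filter.1 ha').2
  exact hℓ (by exact_mod_cast huV) (by exact_mod_cast huV') (le_antisymm (hb' u hc) (hb u' hc'))

private theorem E4_edg {V : Finset (Ed 3)} {ℓ : Ed 3 →ₗ[ℝ] ℝ} (hℓ : Set.InjOn ℓ (V : Set (Ed 3))) :
    (edg V).card ≤ ∑ v ∈ V, (dn V ℓ v).card := by
  have hsub : edg V ⊆ V.biUnion fun v => (dn V ℓ v).image fun u => ({v, u} : Finset (Ed 3)) := by
    intro e he
    unfold edg at he
    rw [Finset.mem_filter, Finset.mem_powersetCard] at he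
    obtain ⟨⟨heV, hec⟩, hef⟩ := he
    have key : ∀ x y : Ed 3, x ≠ y → e = {x, y} → ℓ y < ℓ x → e ∈ V.biUnion fun v => (dn V ℓ v).image fun u => ({v, u} : Finset (Ed 3)) := by
      intro x y hxy hxye hlt
      have hxV : x ∈ V := heV (by rw [hxye]; exact Finset.mem_insert_self _ _)
      have hyV : y ∈ V := heV (by rw [hxye]; exact Finset.mem_insert_of_mem (Finset.mem_singleton_self _))
      rw [Finset.mem_biUnion]
      refine ⟨x, hxV, ?_⟩
      rw [Finset.mem_image]
      refine ⟨y, ?_, hxye.symm⟩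
      unfold dn nb
      rw [Finset.mem_filter, Finset.mem_filter]
      refine ⟨⟨hyV, hxy, ?_⟩, hlt⟩
      rw [← hxye]
      exact hef
    obtain ⟨x, y, hxy, hxye⟩ := Finset.card_eq_two.1 hec
    have hxV : x ∈ V := heV (by rw [hxye]; exact Finset.mem_insert_self _ _)
    have hyV : y ∈ V := heV (by rw [hxye]; exact Finset.mem_insert_of_mem (Finset.mem_singleton_self _))
    have hne : ℓ x ≠ ℓ y := fun h => hxy (hℓ (by exact_mod_cast hxV) (by exact_mod_cast hyV) h)
    rcases lt_or_gt_of_ne hne with h | h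
    · exact key y x hxy.symm (by rw [hxye, Finset.pair_comm]) h
    · exact key x y hxy hxye h
  calc (edg V).card ≤ (V.biUnion fun v => (dn V ℓ v).image fun u => ({v, u} : Finset (Ed 3))).card := Finset.card_le_card hsub
    _ ≤ ∑ v ∈ V, ((dn V ℓ v).image fun u => ({v, u} : Finset (Ed 3))).card := Finset.card_biUnion_le
    _ ≤ ∑ v ∈ V, (dn V ℓ v).card := Finset.sum_le_sum fun v _ => Finset.card_image_le

private theorem E4_sum {V : Finset (Ed 3)} (hV : Gen V) {ℓ : Ed 3 →ₗ[ℝ] ℝ} (hℓ : Set.InjOn ℓ (V : Set (Ed 3))) :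
    ∑ v ∈ V, (dn V ℓ v).card + 2 ≤ ∑ v ∈ V, (tp V ℓ v).card + V.card := by
  have h4 := four_le hV
  have hne : V.Nonempty := Finset.card_pos.1 (by omega)
  obtain ⟨v₁, hv₁, hmax⟩ := Finset.exists_max_image V ℓ hne
  obtain ⟨v₀, hv₀, hmin⟩ := Finset.exists_min_image V ℓ hne
  have h01 : v₀ ≠ v₁ := by
    rintro rfl
    obtain ⟨x, hx, hxv⟩ := Finset.exists_mem_ne (by omega : 1 < V.card) v₀
    exact hxv (hℓ (by exact_mod_cast hx) (by exact_mod_cast hv₀) (le_antisymm (hmax x hx) (hmin x hx)))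
  have hsub : ({v₀, v₁} : Finset (Ed 3)) ⊆ V := by
    intro x hx
    rw [Finset.mem_insert, Finset.mem_singleton] at hx
    rcases hx with rfl | rfl
    · exact hv₀
    · exact hv₁
  have h1 : ∀ v ∈ V, (dn V ℓ v).card + (if v ∈ ({v₀, v₁} : Finset (Ed 3)) then 1 else 0) ≤ (tp V ℓ v).card + 1 := by
    intro v hv
    split_ifs with h
    · rw [Finset.mem_insert, Finset.mem_singleton] at h
      rcases h with rfl | rfl
      · rw [dn_min hmin]
        omega
      · have h2 := top_max hV hv hℓ hmax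
        omega
    · exact top_ge hV hv hℓ
  have h2 := Finset.sum_le_sum h1
  rw [Finset.sum_add_distrib, Finset.sum_add_distrib, ← Finset.card_eq_sum_ones] at h2
  have h3 : ∑ v ∈ V, (if v ∈ ({v₀, v₁} : Finset (Ed 3)) then 1 else 0) = 2 := by
    rw [← Finset.card_filter, Finset.filter_mem_eq_inter, Finset.inter_eq_right.2 hsub, Finset.card_pair h01]
  rw [h3] at h2
  exact h2

/-- E4: Euler's inequality -/
theorem euler {V : Finset (Ed 3)} (hV : Gen V) : (edg V).card + 2 ≤ V.card + (fcs V).card := by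
  obtain ⟨ℓ, hℓ⟩ := exists_inj V
  have h1 := E4_fac hℓ
  have h2 := E4_edg hℓ
  have h3 := E4_sum hV hℓ
  omega

end Pool.Agent.LibGP88
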