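import Mathlib
import Pool.Agent.LibTet88.Basic
import Pool.Agent.LibGP88.G1
import Pool.Agent.LibGP88.Q3

/-! Row G2.
Choose L, k with hL as in hrep (Fct V F contains IsFace V F; `choose` or Classical.choice, arbitrary values for non-facets). Let p ∈ hl V.
p = w: fw_nonempty: F ∈ Fw V w, w ∈ hl (insert w F). Now p ≠ w. For every facet L F p ≤ k F (le_of_hl). For F ∋ w: L F w = k F; for F ∈ Fw V w: L F w < k F.
I := (Fw V w).filter (fun F => L F w < L F p). I is nonempty: otherwise for every s ≥ 0 the point w + s • (p - w) satisfies all facet inequalities (F ∋ w: L F p ≤ k F = L F w; F ∈ Fw: L F p ≤ L F w ≤ k F), so it is in hl V by hrep. Let γ be the exposing functional of w (hV.vert w hw): γ v < γ w for v ≠ w in V. γ p < γ w: ≤ by le_of_hl, and if = then p ∈ hl (V.filter (γ · = γ w)) = hl {w} (hl_filter), p = w (hl_single). Let μ be a lower bound of γ on V (Finset.exists_min_image); ge_of_hl: μ ≤ γ w + s (γ p - γ w) for all s ≥ 0: contradiction for s := (γ w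 - μ + 1) / (γ w - γ p).
For F ∈ I let σ F := (k F - L F w) / (L F p - L F w) ≥ 1. F₀ ∈ I with minimal σ (Finset.exists_min_image), s := σ F₀ ≥ 1, y := w + s • (p - w). L F y ≤ k F for every facet: F ∋ w: L F y = L F w + s (L F p - L F w) ≤ L F w = k F. F ∈ Fw not in I: L F y ≤ L F w ≤ k F. F ∈ I: s ≤ σ F, so s (L F p - L F w) ≤ k F - L F w. So y ∈ hl V (hrep); L F₀ y = k F₀, so y ∈ hl (V.filter ..) = hl F₀ (hl_filter, hl_mono). p = w + (1/s) • (y - w), 0 ≤ 1/s ≤ 1: hl_insert_mem. (Set.mem_iUnion₂.)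
-/

set_option autoImplicit false

namespace Pool.Agent.LibGP88

open Finset Pool.Agent.LibPol19 Pool.Agent.LibTet88
open scoped Classical

variable {d : ℕ}

/-- G2: the cones over the facets not containing `w` cover the polytope -/
theorem cone_cover {V : Finset (Ed 3)} (hV : Gen V) {w : Ed 3} (hw : w ∈ V) :
    hl V ⊆ ⋃ F ∈ Fw V w, hl (insert w F) := by
  have hex : ∀ F : Finset (Ed 3), ∃ (ℓ : Ed 3 →ₗ[ℝ] ℝ) (c : ℝ), Fct V F →
      ∀ v ∈ V, ℓ v ≤ c ∧ (ℓ v = c ↔ v ∈ F) := by
    intro F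
    by_cases hF : Fct V F
    · obtain ⟨-, -, ℓ, c, h⟩ := hF.1
      exact ⟨ℓ, c, fun _ => h⟩
    · exact ⟨0, 0, fun h => absurd h hF⟩
  choose L k hL using hex
  have hne : V.Nonempty := ⟨w, hw⟩
  have hrp : ∀ z : Ed 3, (∀ F, Fct V F → L F z ≤ k F) → z ∈ hl V := fun z hz =>
    hrep hV hne hL hz
  intro p hp
  rw [Set.mem_iUnion₂]
  by_cases hpw : p = w
  · obtain ⟨F, hF⟩ := fw_nonempty hV hw
    exact ⟨F, hF, by rw [hpw]; exact mem_hl (mem_insert_self _ _)⟩
  have hpk : ∀ F, Fct V F → L F p ≤ k F := fun F hF =>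
    le_of_hl (L F) (fun v hv => (hL F hF v hv).1) hp
  have hwin : ∀ F, Fct V F → w ∈ F → L F w = k F := fun F hF hwF => ((hL F hF w hw).2).2 hwF
  have hwle : ∀ F, Fct V F → L F w ≤ k F := fun F hF => (hL F hF w hw).1
  have hval : ∀ F (s : ℝ), L F (w + s • (p - w)) = L F w + s * (L F p - L F w) := by
    intro F s
    rw [map_add, map_smul, map_sub, smul_eq_mul]
  -- facets at `w` are never violated
  have hfac : ∀ F, Fct V F → w ∈ F → ∀ s : ℝ, 0 ≤ s → L F (w + s • (p - w)) ≤ k F := by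
    intro F hF hwF s hs
    rw [hval, hwin F hF hwF]
    have h1 := hpk F hF
    have h2 : s * (L F p - k F) ≤ 0 := mul_nonpos_of_nonneg_of_nonpos hs (by linarith)
    linarith
  set I := (Fw V w).filter fun F => L F w < L F p with hI
  have hout : ∀ F, Fct V F → F ∉ I → ∀ s : ℝ, 0 ≤ s → L F (w + s • (p - w)) ≤ k F := by
    intro F hF hFI s hs
    by_cases hwF : w ∈ F
    · exact hfac F hF hwF s hs
    · have h1 : ¬ L F w < L F p := fun h2 => hFI (mem_filter.2 ⟨mem_Fw.2 ⟨hF, hwF⟩, h2⟩)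
      rw [hval]
      have h2 : s * (L F p - L F w) ≤ 0 :=
        mul_nonpos_of_nonneg_of_nonpos hs (by linarith)
      have h3 := hwle F hF
      linarith
  have hIne : I.Nonempty := by
    by_contra hemp
    rw [not_nonempty_iff_eq_empty] at hemp
    have h1 : ∀ s : ℝ, 0 ≤ s → w + s • (p - w) ∈ hl V := fun s hs =>
      hrp _ fun F hF => hout F hF (by rw [hemp]; exact notMem_empty _) s hs
    obtain ⟨γ, hγ⟩ := hV.vert w hw
    have h2 : ∀ v ∈ V, γ v ≤ γ w := by
      intro v hv
      by_cases h3 : v = w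
      · rw [h3]
      · exact (hγ v hv h3).le
    have h3 : γ p ≤ γ w := le_of_hl γ h2 hp
    have h4 : γ p < γ w := by
      rcases h3.lt_or_eq with h5 | h5
      · exact h5
      · exfalso
        have h6 := hl_filter γ h2 hp h5
        have h7 : (V.filter fun v => γ v = γ w) ⊆ {w} := by
          intro v hv
          rw [mem_filter] at hv
          rw [mem_singleton]
          by_contra h8
          exact (hγ v hv.1 h8).ne hv.2
        have h8 := hl_mono h7 h6
        rw [hl_single] at h8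
        exact hpw h8
    obtain ⟨v0, hv0, hmin⟩ := exists_min_image V (fun v => γ v) hne
    have h5 : ∀ s : ℝ, 0 ≤ s → γ v0 ≤ γ w + s * (γ p - γ w) := by
      intro s hs
      have h6 := ge_of_hl γ (fun v hv => hmin v hv) (h1 s hs)
      rw [map_add, map_smul, map_sub, smul_eq_mul] at h6
      exact h6
    have h6 : 0 < γ w - γ p := by linarith
    have h7 : 0 ≤ (γ w - γ v0 + 1) / (γ w - γ p) := by
      apply div_nonneg _ h6.le
      have := h2 v0 hv0
      linarith
    have h8 := h5 _ h7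
    have h9 : (γ w - γ v0 + 1) / (γ w - γ p) * (γ p - γ w) = -(γ w - γ v0 + 1) := by
      field_simp
      ring
    rw [h9] at h8
    linarith
  obtain ⟨F₀, hF₀, hmin⟩ := exists_min_image I (fun F => (k F - L F w) / (L F p - L F w)) hIne
  have hF₀' := hF₀
  rw [hI, mem_filter, mem_Fw] at hF₀'
  obtain ⟨⟨hFc, hwF⟩, hlt⟩ := hF₀'
  have hpos : 0 < L F₀ p - L F₀ w := by linarith
  obtain ⟨s, hs⟩ : ∃ s, s = (k F₀ - L F₀ w) / (L F₀ p - L F₀ w) := ⟨_, rfl⟩
  have hs1 : 1 ≤ s := by
    rw [hs, le_div_iff₀ hpos]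
    have := hpk F₀ hFc
    linarith
  have hs0 : 0 < s := by linarith
  have hyk : L F₀ (w + s • (p - w)) = k F₀ := by
    rw [hval, hs]
    field_simp
    ring
  have hyV : w + s • (p - w) ∈ hl V := by
    apply hrp
    intro F hF
    by_cases hFI : F ∈ I
    · have h1 := hmin F hFI
      rw [← hs] at h1
      have h2 : 0 < L F p - L F w := by
        have := (mem_filter.1 hFI).2
        linarith
      rw [le_div_iff₀ h2] at h1
      rw [hval]
      linarith
    · exact hout F hF hFI s hs0.le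
  have hyF : w + s • (p - w) ∈ hl F₀ := by
    have h1 := hl_filter (L F₀) (fun v hv => (hL F₀ hFc v hv).1) hyV hyk
    refine hl_mono ?_ h1
    intro v hv
    rw [mem_filter] at hv
    exact ((hL F₀ hFc v hv.1).2).1 hv.2
  refine ⟨F₀, mem_Fw.2 ⟨hFc, hwF⟩, ?_⟩
  have h1 := hl_insert_mem (w := w) hyF (s := s⁻¹) (inv_pos.2 hs0).le (inv_le_one_of_one_le₀ hs1)
  have h2 : w + s⁻¹ • (w + s • (p - w) - w) = p := by
    rw [add_sub_cancel_left, smul_smul, inv_mul_cancel₀ hs0.ne', one_smul]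
    abel
  rw [h2] at h1
  exact h1

end Pool.Agent.LibGP88
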