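import Mathlib
import Pool.Agent.LibTet88.Basic
import Pool.Agent.LibGP88.Q3
import Pool.Agent.LibPol19.G09

/-! Row G4.
w ∉ t (t ⊆ F, w ∉ F): the card is 4. Affine independence: affineIndependent_iff_finrank_vectorSpan_eq or _iff_le_finrank_vectorSpan (for a Fintype of card 3 + 1): it suffices 3 ≤ finrank (vectorSpan ℝ (insert w t)). Let ℓ, c be the functional of F, t₀ ∈ t. vectorSpan ℝ t ≤ ker ℓ ⊓ vectorSpan ℝ (insert w t), and w - t₀ ∈ vectorSpan ℝ (insert w t) is not in ker ℓ (ℓ w < c = ℓ t₀). So vectorSpan ℝ t < vectorSpan ℝ (insert w t) strictly and Submodule.finrank_lt_finrank_of_lt gives dm t < finrank (vectorSpan ℝ (insert w t)); 2 ≤ dm t (two_le_dm, t ⊆ V, card 3). (Set.range of the subtype coercion is the set: Subtype.range_coe.)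
-/

set_option autoImplicit false

namespace Pool.Agent.LibGP88

open Finset Pool.Agent.LibPol19 Pool.Agent.LibTet88
open scoped Classical

variable {d : ℕ}

/-- G4: the tetrahedra are not degenerate -/
theorem tet_indep {V : Finset (Ed 3)} (hV : Gen V) {w : Ed 3} (hw : w ∈ V) {F t : Finset (Ed 3)} (hF : F ∈ Fw V w)
    (ht : t ⊆ F) (h3 : t.card = 3) :
    (insert w t).card = 4 ∧ AffineIndependent ℝ (fun x : (insert w t : Finset (Ed 3)) => (x.1 : Ed 3)) := by
  obtain ⟨⟨⟨-, hFV, ℓ, c, hℓ⟩, -⟩, hwF⟩ := mem_Fw.1 hF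
  have hwt : w ∉ t := fun h => hwF (ht h)
  have hcard : (insert w t).card = 4 := by
    rw [Finset.card_insert_of_notMem hwt, h3]
  refine ⟨hcard, ?_⟩
  have htne : t.Nonempty := by
    rw [← Finset.card_pos]
    omega
  obtain ⟨t₀, ht₀⟩ := htne
  have hℓt : ∀ x ∈ t, ℓ x = c := fun x hx => ((hℓ x (hFV (ht hx))).2).2 (ht hx)
  have hℓw : ℓ w ≠ c := fun h => hwF (((hℓ w hw).2).1 h)
  have hker : vectorSpan ℝ (t : Set (Ed 3)) ≤ LinearMap.ker ℓ := by
    rw [vectorSpan_def, Submodule.span_le]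
    rintro _ ⟨x, hx, y, hy, rfl⟩
    simp only [SetLike.mem_coe, LinearMap.mem_ker, vsub_eq_sub, map_sub]
    rw [hℓt x (by exact_mod_cast hx), hℓt y (by exact_mod_cast hy), sub_self]
  have hlt : vectorSpan ℝ (t : Set (Ed 3)) < vectorSpan ℝ ((insert w t : Finset (Ed 3)) : Set (Ed 3)) := by
    refine lt_of_le_of_ne ?_ ?_
    · refine vectorSpan_mono ℝ ?_
      exact_mod_cast Finset.subset_insert w t
    · intro h
      have h1 : w -ᵥ t₀ ∈ vectorSpan ℝ ((insert w t : Finset (Ed 3)) : Set (Ed 3)) :=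
        vsub_mem_vectorSpan ℝ (by exact_mod_cast Finset.mem_insert_self w t)
          (by exact_mod_cast Finset.mem_insert_of_mem ht₀)
      rw [← h] at h1
      have h2 := hker h1
      rw [LinearMap.mem_ker, vsub_eq_sub, map_sub, hℓt t₀ ht₀] at h2
      exact hℓw (by linarith)
  have h4 := Submodule.finrank_lt_finrank_of_lt hlt
  have h5 : 2 ≤ dm t := two_le_dm hV.vert (ht.trans hFV) h3.ge
  unfold dm at h5
  rw [affineIndependent_iff_le_finrank_vectorSpan ℝ _ (n := 3) (by
    rw [Fintype.card_coe]; exact hcard)]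
  have h6 : Set.range (fun x : (insert w t : Finset (Ed 3)) => (x.1 : Ed 3)) =
      ((insert w t : Finset (Ed 3)) : Set (Ed 3)) := Subtype.range_coe
  rw [h6]
  omega

end Pool.Agent.LibGP88
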