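import Mathlib
import Pool.Agent.LibTet88.Basic
import Pool.Agent.LibGP88.R2

/-! Row R3.
St ∅: Y = T = fun _ => ∅; h.conn: map each relation step (F ∈ Fw V w, F ∉ ∅) (EqvGen.mono). Induction (Finset.induction_on with subsets of Fw V w: prove ∀ S ⊆ Fw V w, St S) gives St (Fw V w) by st_step: Y, T.
Let ρ a b := ∃ F ∈ Fw V w, Lk (Y F) (T F) a b, K := EqvGen ρ g. For F ∈ Fw V w: Mark.par with K (closed: EqvGen.trans, rel): Even ((xs Γ F).filter K).card. par_all: K g' (K g by refl). So Rl V w Γ g g' (Fw V w) Y T a b → EqvGen ρ a b: the first alternative: rel; the second is empty (F ∈ Fw, F ∉ Fw); the third: a = g, b = g': K g'. So EqvGen Rl ⊆ EqvGen ρ. Fin3: mark, conn (a ∈ Y F, b ∈ Y F').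
-/

set_option autoImplicit false

namespace Pool.Agent.LibGP88

open Finset Pool.Agent.LibPol19 Pool.Agent.LibTet88
open scoped Classical

variable {d : ℕ}

/-- R3: all facets not containing `w` are triangulated -/
theorem exists_fin {V : Finset (Ed 3)} (hV : Gen V) {w : Ed 3} {Γ : Finset (Finset (Ed 3))} {g g' : Finset (Ed 3)}
    (h : Trail V w Γ g g') : ∃ Y T, Fin3 V w Γ Y T := by
  have h0 : St V w Γ g g' ∅ := by
    refine ⟨fun _ => ∅, fun _ => ∅, ?_, ?_⟩
    · intro F hF
      exact absurd hF (Finset.notMem_empty F)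
    · intro a b ha hb
      have ha' : a ∈ Γ := by
        rcases ha with ha | ⟨F, hF, _⟩
        · exact ha
        · exact absurd hF (Finset.notMem_empty F)
      have hb' : b ∈ Γ := by
        rcases hb with hb | ⟨F, hF, _⟩
        · exact hb
        · exact absurd hF (Finset.notMem_empty F)
      refine Relation.EqvGen.mono ?_ _ _ (h.conn a ha' b hb')
      rintro c e ⟨F, hF, hc, he⟩
      exact Or.inr (Or.inl ⟨F, hF, Finset.notMem_empty F, hc, he⟩)
  have hS : ∀ S : Finset (Finset (Ed 3)), S ⊆ Fw V w → St V w Γ g g' S := by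
    intro S
    induction S using Finset.induction_on with
    | empty => intro _; exact h0
    | @insert F S hF ih =>
      intro hsub
      exact st_step hV h (hsub (Finset.mem_insert_self _ _)) hF
        (ih (fun G hG => hsub (Finset.mem_insert_of_mem hG)))
  obtain ⟨Y, T, hM, hC⟩ := hS (Fw V w) (Finset.Subset.refl _)
  have hpar : ∀ F ∈ Fw V w, Even ((xs Γ F).filter (Relation.EqvGen
      (fun a b => ∃ F ∈ Fw V w, Lk (Y F) (T F) a b) g)).card := by
    intro F hF
    apply (hM F hF).par
    intro e e' hl hK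
    exact Relation.EqvGen.trans _ _ _ hK (Relation.EqvGen.rel _ _ ⟨F, hF, hl⟩)
  have hg' := par_all h _ hpar (Relation.EqvGen.refl g)
  have hgen : ∀ a b, Relation.EqvGen (Rl V w Γ g g' (Fw V w) Y T) a b →
      Relation.EqvGen (fun a b => ∃ F ∈ Fw V w, Lk (Y F) (T F) a b) a b := by
    intro a b hab
    induction hab with
    | rel c e hce =>
      rcases hce with hce | ⟨F, hF, hF', _⟩ | ⟨hc, he⟩
      · exact Relation.EqvGen.rel _ _ hce
      · exact absurd hF hF'
      · rw [hc, he]
        exact hg'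
    | refl c => exact Relation.EqvGen.refl c
    | symm c e _ ih => exact Relation.EqvGen.symm _ _ ih
    | trans c e f _ _ ih1 ih2 => exact Relation.EqvGen.trans _ _ _ ih1 ih2
  refine ⟨Y, T, hM, ?_⟩
  intro F hF F' hF' a ha b hb
  exact hgen a b (hC a b (Or.inr ⟨F, hF, ha⟩) (Or.inr ⟨F', hF', hb⟩))

end Pool.Agent.LibGP88
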