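import Mathlib
import Pool.Agent.LibTet88.Basic
import Pool.Agent.LibGP88.Q3

/-! Row R5.
(a) local_side: e ∈ Y F' , e ⊆ F, F, F' ∈ Fw V w imply e ∈ Y F. If F = F' clear. Otherwise e (card 2) is ⊆ F ∩ F' , nonempty: fct_inter with a vertex of e: F ∩ F' = {v, u} ∈ edg V, so e = F ∩ F' (card), e ∈ edg V; e ∈ edg F' and e ∈ edg F (fct_poly); e ∈ Y F' → e ∈ xs Γ F' (yedge) → e ∈ Γ → e ∈ xs Γ F → e ∈ Y F (yedge).
(b) side_le: 𝒯 := (Fw V w).biUnion T. t ∈ 𝒯 with e ⊆ t: t ∈ T F', t ⊆ F' (tri.sub), so F' ∈ N := (Fw V w).filter (e ⊆ ·), and 𝒯.filter (e ⊆ ·) ⊆ N.biUnion (fun F' => (T F').filter (e ⊆ ·)); card_biUnion_le. If e ∈ Γ: for F' ∈ N e ∈ edg F' (h.edge, fct_poly), so the card of (T F').filter is 1 (tri.edge), and N.card = 2 (e ≠ g, g'), 1 (e = g or g'): total ≤ 2, for e = g ≤ 1. If e ∉ Γ (then e ≠ g): N = {F}: if F' ∈ N, F' ≠ F, then as in (a) e = F ∩ F' ∈ edg V, so e ∈ edg F, e ∈ Y F gives e ∈ xs Γ F ⊆ Γ: contradiction. So the total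 is ≤ (T F).filter card ≤ 2 (tri.two, ysub: e.card = 2).
-/

set_option autoImplicit false

namespace Pool.Agent.LibGP88

open Finset Pool.Agent.LibPol19 Pool.Agent.LibTet88
open scoped Classical

variable {d : ℕ}

theorem R5_edge {V : Finset (Ed 3)} (hV : Gen V) {w : Ed 3} {F F' e : Finset (Ed 3)} (hF : F ∈ Fw V w)
    (hF' : F' ∈ Fw V w) (hne : F ≠ F') (h1 : e ⊆ F) (h2 : e ⊆ F') (h3 : e.card = 2) : e ∈ edg V := by
  exact (inter_edge hV (mem_Fw.1 hF).1 (mem_Fw.1 hF').1 hne h1 h2 h3).2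

/-- R5: a marked side contained in another facet is marked there -/
theorem local_side {V : Finset (Ed 3)} (hV : Gen V) {w : Ed 3} {Γ : Finset (Finset (Ed 3))} {g g' : Finset (Ed 3)}
    (h : Trail V w Γ g g') {Y T : Finset (Ed 3) → Finset (Finset (Ed 3))} (hf : Fin3 V w Γ Y T)
    {F F' e : Finset (Ed 3)} (hF : F ∈ Fw V w) (hF' : F' ∈ Fw V w) (he : e ∈ Y F') (heF : e ⊆ F) : e ∈ Y F := by
  by_cases hne : F = F'
  · rw [hne]
    exact he
  · obtain ⟨h1, h2⟩ := (hf.mark F' hF').ysub e he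
    have h3 := R5_edge hV hF hF' hne heF h1 h2
    have h4 : e ∈ edg F' := ((fct_poly hV (mem_Fw.1 hF').1).2.2 e).2 ⟨h3, h1⟩
    have h5 : e ∈ edg F := ((fct_poly hV (mem_Fw.1 hF).1).2.2 e).2 ⟨h3, heF⟩
    have h6 := ((hf.mark F' hF').yedge e h4).1 he
    unfold xs at h6
    rw [mem_filter] at h6
    refine ((hf.mark F hF).yedge e h5).2 ?_
    unfold xs
    rw [mem_filter]
    exact ⟨h6.1, heF⟩

/-- R5: a marked side is in at most two triangles, the end `g` in at most one -/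
theorem side_le {V : Finset (Ed 3)} (hV : Gen V) {w : Ed 3} {Γ : Finset (Finset (Ed 3))} {g g' : Finset (Ed 3)}
    (h : Trail V w Γ g g') {Y T : Finset (Ed 3) → Finset (Finset (Ed 3))} (hf : Fin3 V w Γ Y T)
    {F e : Finset (Ed 3)} (hF : F ∈ Fw V w) (he : e ∈ Y F) :
    (((Fw V w).biUnion T).filter fun t => e ⊆ t).card ≤ 2 ∧
      (e = g → (((Fw V w).biUnion T).filter fun t => e ⊆ t).card ≤ 1) := by
  obtain ⟨heF, hcard⟩ := (hf.mark F hF).ysub e he
  set N := (Fw V w).filter fun F' => e ⊆ F' with hN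
  have hsub : (((Fw V w).biUnion T).filter fun t => e ⊆ t) ⊆
      N.biUnion fun F' => (T F').filter fun t => e ⊆ t := by
    intro t ht
    rw [mem_filter, mem_biUnion] at ht
    obtain ⟨⟨F', hF', htF'⟩, het⟩ := ht
    rw [mem_biUnion]
    refine ⟨F', ?_, mem_filter.2 ⟨htF', het⟩⟩
    exact mem_filter.2 ⟨hF', het.trans ((hf.mark F' hF').tri.sub t htF').1⟩
  have hle : (((Fw V w).biUnion T).filter fun t => e ⊆ t).card ≤
      ∑ F' ∈ N, ((T F').filter fun t => e ⊆ t).card :=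
    (card_le_card hsub).trans card_biUnion_le
  by_cases heΓ : e ∈ Γ
  · have hone : ∀ F' ∈ N, ((T F').filter fun t => e ⊆ t).card = 1 := by
      intro F' hF'
      rw [hN, mem_filter] at hF'
      apply (hf.mark F' hF'.1).tri.edge
      exact ((fct_poly hV (mem_Fw.1 hF'.1).1).2.2 e).2 ⟨h.edge e heΓ, hF'.2⟩
    rw [sum_congr rfl hone, sum_const, smul_eq_mul, mul_one] at hle
    by_cases hg : e = g
    · have h1 : N.card = 1 := by
        rw [hN, hg]
        exact h.one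
      exact ⟨by omega, fun _ => by omega⟩
    · refine ⟨?_, fun h2 => absurd h2 hg⟩
      by_cases hg' : e = g'
      · have h1 : N.card = 1 := by
          rw [hN, hg']
          exact h.one'
        omega
      · have h1 : N.card = 2 := h.two e heΓ hg hg'
        omega
  · refine ⟨?_, fun h2 => absurd (h2 ▸ h.hg) heΓ⟩
    have hNF : N ⊆ {F} := by
      intro F' hF'
      rw [hN, mem_filter] at hF'
      rw [mem_singleton]
      by_contra hne
      have h1 := R5_edge hV hF'.1 hF hne hF'.2 heF hcard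
      have h2 : e ∈ edg F := ((fct_poly hV (mem_Fw.1 hF).1).2.2 e).2 ⟨h1, heF⟩
      have h3 := ((hf.mark F hF).yedge e h2).1 he
      unfold xs at h3
      exact heΓ (mem_filter.1 h3).1
    have h4 : ∑ F' ∈ N, ((T F').filter fun t => e ⊆ t).card ≤
        ∑ F' ∈ {F}, ((T F').filter fun t => e ⊆ t).card :=
      sum_le_sum_of_subset hNF
    rw [sum_singleton] at h4
    exact hle.trans (h4.trans ((hf.mark F hF).tri.two e hcard))

end Pool.Agent.LibGP88
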