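import Mathlib
import Pool.Agent.LibTet88.Basic
import Pool.Agent.LibTet88.R4
import Pool.Agent.LibGP88.R5

/-! Row R6: the Hamiltonian path of the triangles. -/

set_option autoImplicit false

namespace Pool.Agent.LibGP88

open Finset Pool.Agent.LibPol19 Pool.Agent.LibTet88
open scoped Classical

variable {d : ℕ}

/-- adjacency of triangles through a marked side -/
def R6_adj (V : Finset (Ed 3)) (w : Ed 3) (Y : Finset (Ed 3) → Finset (Finset (Ed 3)))
    (t t' : Finset (Ed 3)) : Prop := ∃ F ∈ Fw V w, ∃ e ∈ Y F, e ⊆ t ∧ e ⊆ t'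

theorem R6_nbrs {V : Finset (Ed 3)} (hV : Gen V) {w : Ed 3} {Γ : Finset (Finset (Ed 3))} {g g' : Finset (Ed 3)}
    (h : Trail V w Γ g g') {Y T : Finset (Ed 3) → Finset (Finset (Ed 3))} (hf : Fin3 V w Γ Y T)
    {F t e₁ e₂ : Finset (Ed 3)} (hF : F ∈ Fw V w) (ht : t ∈ T F)
    (he : (Y F).filter (fun e => e ⊆ t) = {e₁, e₂}) :
    ((Fw V w).biUnion T).filter (fun b => b ≠ t ∧ R6_adj V w Y t b) ⊆
      ((((Fw V w).biUnion T).filter fun s => e₁ ⊆ s).erase t) ∪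
        ((((Fw V w).biUnion T).filter fun s => e₂ ⊆ s).erase t) := by
  intro b hb
  rw [Finset.mem_filter] at hb
  obtain ⟨hbU, hbt, F', hF', e, heY, het, heb⟩ := hb
  have htF : t ⊆ F := ((hf.mark F hF).tri.sub t ht).1
  have heF : e ∈ Y F := local_side hV h hf hF hF' heY (het.trans htF)
  have h1 : e ∈ (Y F).filter (fun e => e ⊆ t) := Finset.mem_filter.2 ⟨heF, het⟩
  rw [he, Finset.mem_insert, Finset.mem_singleton] at h1
  rw [Finset.mem_union, Finset.mem_erase, Finset.mem_erase, Finset.mem_filter, Finset.mem_filter]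
  rcases h1 with rfl | rfl
  · exact Or.inl ⟨hbt, hbU, heb⟩
  · exact Or.inr ⟨hbt, hbU, heb⟩

theorem R6_erase {V : Finset (Ed 3)} (hV : Gen V) {w : Ed 3} {Γ : Finset (Finset (Ed 3))} {g g' : Finset (Ed 3)}
    (h : Trail V w Γ g g') {Y T : Finset (Ed 3) → Finset (Finset (Ed 3))} (hf : Fin3 V w Γ Y T)
    {F t e : Finset (Ed 3)} (hF : F ∈ Fw V w) (ht : t ∈ T F) (he : e ∈ Y F) (het : e ⊆ t) :
    ((((Fw V w).biUnion T).filter fun s => e ⊆ s).erase t).card ≤ 1 ∧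
      (e = g → ((((Fw V w).biUnion T).filter fun s => e ⊆ s).erase t).card ≤ 0) := by
  have hmem : t ∈ ((Fw V w).biUnion T).filter fun s => e ⊆ s :=
    Finset.mem_filter.2 ⟨Finset.mem_biUnion.2 ⟨F, hF, ht⟩, het⟩
  obtain ⟨h1, h2⟩ := side_le hV h hf hF he
  rw [Finset.card_erase_of_mem hmem]
  exact ⟨by omega, fun heg => by have := h2 heg; omega⟩

theorem R6_conn {V : Finset (Ed 3)} {w : Ed 3} {Γ : Finset (Finset (Ed 3))}
    {Y T : Finset (Ed 3) → Finset (Finset (Ed 3))} (hf : Fin3 V w Γ Y T) {a b : Finset (Ed 3)}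
    (hab : Relation.EqvGen (fun a b => ∃ F ∈ Fw V w, Lk (Y F) (T F) a b) a b) :
    (a = b) ∨ ((∃ F ∈ Fw V w, a ∈ Y F) ∧ (∃ F ∈ Fw V w, b ∈ Y F) ∧
      ∀ t ∈ (Fw V w).biUnion T, ∀ t' ∈ (Fw V w).biUnion T, a ⊆ t → b ⊆ t' →
        Relation.ReflTransGen (fun x y => R6_adj V w Y x y ∧ x ∈ (Fw V w).biUnion T ∧ y ∈ (Fw V w).biUnion T) t t') := by
  induction hab with
  | rel a b hab =>
    right
    obtain ⟨F, hF, s, hs, ha, hb, has, hbs⟩ := hab
    refine ⟨⟨F, hF, ha⟩, ⟨F, hF, hb⟩, fun t ht t' ht' hat hbt' => ?_⟩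
    have hsU : s ∈ (Fw V w).biUnion T := Finset.mem_biUnion.2 ⟨F, hF, hs⟩
    exact (Relation.ReflTransGen.single ⟨⟨F, hF, a, ha, hat, has⟩, ht, hsU⟩).tail
      ⟨⟨F, hF, b, hb, hbs, hbt'⟩, hsU, ht'⟩
  | refl a => exact Or.inl rfl
  | symm a b _ ih =>
    rcases ih with ih | ⟨h1, h2, h3⟩
    · exact Or.inl ih.symm
    · refine Or.inr ⟨h2, h1, fun t ht t' ht' hbt hat' => ?_⟩
      have h4 := h3 t' ht' t ht hat' hbt
      have key : ∀ x, Relation.ReflTransGen (fun x y => R6_adj V w Y x y ∧ x ∈ (Fw V w).biUnion T ∧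
          y ∈ (Fw V w).biUnion T) t' x → Relation.ReflTransGen (fun x y => R6_adj V w Y x y ∧
          x ∈ (Fw V w).biUnion T ∧ y ∈ (Fw V w).biUnion T) x t' := by
        intro x hx
        induction hx with
        | refl => exact Relation.ReflTransGen.refl
        | tail _ hbc ih =>
          obtain ⟨⟨F, hF, e, he, h5, h6⟩, hx, hy⟩ := hbc
          exact (Relation.ReflTransGen.single ⟨⟨F, hF, e, he, h6, h5⟩, hy, hx⟩).trans ih
      exact key t h4
  | trans a b c _ _ ih1 ih2 =>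
    rcases ih1 with rfl | ⟨h1, h2, h3⟩
    · exact ih2
    rcases ih2 with rfl | ⟨h4, h5, h6⟩
    · exact Or.inr ⟨h1, h2, h3⟩
    refine Or.inr ⟨h1, h5, fun t ht t' ht' hat hct' => ?_⟩
    obtain ⟨F, hF, hb⟩ := h2
    obtain ⟨s, hs, hbs⟩ := (hf.mark F hF).ycov b hb
    have hsU : s ∈ (Fw V w).biUnion T := Finset.mem_biUnion.2 ⟨F, hF, hs⟩
    exact (h3 t ht s hsU hat hbs).trans (h6 s hsU t' ht' hbs hct')

/-- R6: the Hamiltonian path of the triangles -/
theorem tri_path {V : Finset (Ed 3)} (hV : Gen V) {w : Ed 3} {Γ : Finset (Finset (Ed 3))} {g g' : Finset (Ed 3)}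
    (h : Trail V w Γ g g') {Y T : Finset (Ed 3) → Finset (Finset (Ed 3))} (hf : Fin3 V w Γ Y T) :
    ∃ f : ℕ → Finset (Ed 3), (∀ i < ((Fw V w).biUnion T).card, f i ∈ (Fw V w).biUnion T) ∧
      (∀ i < ((Fw V w).biUnion T).card, ∀ j < ((Fw V w).biUnion T).card, f i = f j → i = j) ∧
      ∀ i, i + 1 < ((Fw V w).biUnion T).card → (f i ∩ f (i + 1)).card = 2 := by
  -- the triangle at the end
  obtain ⟨s, hs⟩ := Finset.card_eq_one.1 h.one
  have hs1 : s ∈ (Fw V w).filter fun F => g ⊆ F := by rw [hs]; exact Finset.mem_singleton_self s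
  rw [Finset.mem_filter] at hs1
  obtain ⟨hsF, hgs⟩ := hs1
  have hgs' : g ∈ edg s := ((fct_poly hV (mem_Fw.1 hsF).1).2.2 g).2 ⟨h.edge g h.hg, hgs⟩
  have hgY : g ∈ Y s := ((hf.mark s hsF).yedge g hgs').2 (Finset.mem_filter.2 ⟨h.hg, hgs⟩)
  obtain ⟨t₀, ht₀⟩ := Finset.card_eq_one.1 ((hf.mark s hsF).tri.edge g hgs')
  have ht₁ : t₀ ∈ (T s).filter fun t => g ⊆ t := by rw [ht₀]; exact Finset.mem_singleton_self t₀
  rw [Finset.mem_filter] at ht₁
  obtain ⟨ht₀s, hgt₀⟩ := ht₁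
  have ht₀U : t₀ ∈ (Fw V w).biUnion T := Finset.mem_biUnion.2 ⟨s, hsF, ht₀s⟩
  -- degrees
  have hdeg : ∀ a ∈ (Fw V w).biUnion T,
      (((Fw V w).biUnion T).filter fun b => b ≠ a ∧ R6_adj V w Y a b).card ≤ 2 := by
    intro t ht
    obtain ⟨F, hF, htF⟩ := Finset.mem_biUnion.1 ht
    obtain ⟨e₁, e₂, hne, he⟩ := Finset.card_eq_two.1 ((hf.mark F hF).deg t htF)
    have h1 : e₁ ∈ (Y F).filter (fun e => e ⊆ t) := by rw [he]; simp
    have h2 : e₂ ∈ (Y F).filter (fun e => e ⊆ t) := by rw [he]; simp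
    rw [Finset.mem_filter] at h1 h2
    refine (Finset.card_le_card (R6_nbrs hV h hf hF htF he)).trans ((Finset.card_union_le _ _).trans ?_)
    have h3 := (R6_erase hV h hf hF htF h1.1 h1.2).1
    have h4 := (R6_erase hV h hf hF htF h2.1 h2.2).1
    omega
  have hdeg1 : (((Fw V w).biUnion T).filter fun b => b ≠ t₀ ∧ R6_adj V w Y t₀ b).card ≤ 1 := by
    obtain ⟨e₁, e₂, hne, he⟩ := Finset.card_eq_two.1 ((hf.mark s hsF).deg t₀ ht₀s)
    have h1 : e₁ ∈ (Y s).filter (fun e => e ⊆ t₀) := by rw [he]; simp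
    have h2 : e₂ ∈ (Y s).filter (fun e => e ⊆ t₀) := by rw [he]; simp
    have hg1 : g ∈ (Y s).filter (fun e => e ⊆ t₀) := Finset.mem_filter.2 ⟨hgY, hgt₀⟩
    rw [Finset.mem_filter] at h1 h2
    rw [he, Finset.mem_insert, Finset.mem_singleton] at hg1
    refine (Finset.card_le_card (R6_nbrs hV h hf hsF ht₀s he)).trans ((Finset.card_union_le _ _).trans ?_)
    have h3 := R6_erase hV h hf hsF ht₀s h1.1 h1.2
    have h4 := R6_erase hV h hf hsF ht₀s h2.1 h2.2
    rcases hg1 with h5 | h5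
    · have h6 := h3.2 h5.symm
      have h7 := h4.1
      omega
    · have h6 := h4.2 h5.symm
      have h7 := h3.1
      omega
  have hconn : ∀ a ∈ (Fw V w).biUnion T,
      Relation.ReflTransGen (fun x y => R6_adj V w Y x y ∧ y ∈ (Fw V w).biUnion T) t₀ a := by
    intro t ht
    obtain ⟨F, hF, htF⟩ := Finset.mem_biUnion.1 ht
    obtain ⟨e₁, e₂, hne, he⟩ := Finset.card_eq_two.1 ((hf.mark F hF).deg t htF)
    have h1 : e₁ ∈ (Y F).filter (fun e => e ⊆ t) := by rw [he]; simp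
    rw [Finset.mem_filter] at h1
    rcases R6_conn hf (hf.conn s hsF F hF g hgY e₁ h1.1) with h2 | ⟨-, -, h2⟩
    · rw [← h2] at h1
      exact Relation.ReflTransGen.single ⟨⟨s, hsF, g, hgY, hgt₀, h1.2⟩, ht⟩
    · have h3 := h2 t₀ ht₀U t ht hgt₀ h1.2
      clear h1 h2 he htF
      induction h3 with
      | refl => exact Relation.ReflTransGen.refl
      | tail _ hbc ih => exact (ih hbc.2.1).tail ⟨hbc.1, hbc.2.2⟩
  obtain ⟨f, hf1, hf2, hf3⟩ := ham_path ((Fw V w).biUnion T) (R6_adj V w Y)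
    (fun a b ⟨F, hF, e, he, h1, h2⟩ => ⟨F, hF, e, he, h2, h1⟩)
    (fun a ha => by convert hdeg a ha) ht₀U (by convert hdeg1) hconn
  refine ⟨f, hf1, hf2, fun i hi => ?_⟩
  obtain ⟨F, hF, e, he, h1, h2⟩ := hf3 i hi
  have hcard : ∀ j < ((Fw V w).biUnion T).card, (f j).card = 3 := by
    intro j hj
    obtain ⟨F', hF', hjF'⟩ := Finset.mem_biUnion.1 (hf1 j hj)
    exact ((hf.mark F' hF').tri.sub _ hjF').2
  have he2 : e.card = 2 := ((hf.mark F hF).ysub e he).2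
  have h3 : 2 ≤ (f i ∩ f (i + 1)).card := by
    rw [← he2]
    exact Finset.card_le_card (Finset.subset_inter h1 h2)
  have h4 : (f i ∩ f (i + 1)).card < 3 := by
    by_contra h5
    push Not at h5
    have h6 := hcard i (by omega)
    have h7 := hcard (i + 1) hi
    have h8 : f i ∩ f (i + 1) = f i :=
      Finset.eq_of_subset_of_card_le Finset.inter_subset_left (by omega)
    have h9 : f i ∩ f (i + 1) = f (i + 1) :=
      Finset.eq_of_subset_of_card_le Finset.inter_subset_right (by omega)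
    have h10 : f i = f (i + 1) := h8.symm.trans h9
    have := hf2 i (by omega) (i + 1) hi h10
    omega
  omega

end Pool.Agent.LibGP88
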