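import Mathlib
import Pool.Agent.LibGP88.Defs

/-! Row K1. Board GP88. Forests: adding vertices.
(1) frs_mono. (2) frs_insert: W ⊆ insert v A nonempty: if v ∉ W then W ⊆ A; if v ∈ W take x := v: the neighbours of v in W are neighbours in A (v is not adjacent to itself: Adj V v v is false), at most one. (3) frs_pair.
(4) extend: strong induction on R.card. R = ∅: A0, B0. Otherwise h R gives v ∈ R with at most three neighbours in R ∪ (A0 ∪ B0). Induction hypothesis for R.erase v (the condition h holds for its subsets): A', B' with A' ∪ B' = A0 ∪ B0 ∪ R.erase v.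
v ∉ A' ∪ B' (v ∈ R, R disjoint from A0 ∪ B0). The neighbours of v in A' and in B' are disjoint subsets of the neighbours in R ∪ (A0 ∪ B0): one of the two numbers is ≤ 1: insert v there (frs_insert). -/

set_option autoImplicit false

namespace Pool.Agent.LibGP88

open Finset Pool.Agent.LibPol19 Pool.Agent.LibTet88
open scoped Classical

theorem frs_mono {V A B : Finset (Ed 3)} (h : Frs V A) (hB : B ⊆ A) : Frs V B := by
  intro W hW hne
  exact h W (hW.trans hB) hne

theorem frs_insert {V A : Finset (Ed 3)} (h : Frs V A) {v : Ed 3} (h1 : (A.filter fun u => Adj V v u).card ≤ 1) :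
    Frs V (insert v A) := by
  intro W hW hne
  by_cases hv : v ∈ W
  · refine ⟨v, hv, le_trans (Finset.card_le_card ?_) h1⟩
    intro u hu
    rw [Finset.mem_filter] at hu ⊢
    refine ⟨?_, hu.2⟩
    rcases Finset.mem_insert.1 (hW hu.1) with h2 | h2
    · exact absurd h2.symm hu.2.1
    · exact h2
  · refine h W ?_ hne
    intro u hu
    rcases Finset.mem_insert.1 (hW hu) with h2 | h2
    · exact absurd (h2 ▸ hu) hv
    · exact h2

theorem frs_pair {V : Finset (Ed 3)} (x y : Ed 3) : Frs V {x, y} := by
  intro W hW hne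
  obtain ⟨z, hz⟩ := hne
  refine ⟨z, hz, ?_⟩
  have h1 : (W.filter fun u => Adj V z u) ⊆ W.erase z := by
    intro u hu
    rw [Finset.mem_filter] at hu
    rw [Finset.mem_erase]
    exact ⟨fun h => hu.2.1 h.symm, hu.1⟩
  have h2 := Finset.card_le_card h1
  have h3 : W.card ≤ 2 := le_trans (Finset.card_le_card hW) Finset.card_le_two
  rw [Finset.card_erase_of_mem hz] at h2
  omega

private theorem extend_aux {V : Finset (Ed 3)} {A0 B0 : Finset (Ed 3)} (hA : Frs V A0) (hB : Frs V B0) (hd : Disjoint A0 B0) :
    ∀ (n : ℕ) (R : Finset (Ed 3)), R.card = n → Disjoint R (A0 ∪ B0) →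
      (∀ S : Finset (Ed 3), S ⊆ R → S.Nonempty → ∃ v ∈ S, ((S ∪ (A0 ∪ B0)).filter fun u => Adj V v u).card ≤ 3) →
      ∃ A B : Finset (Ed 3), A0 ⊆ A ∧ B0 ⊆ B ∧ Disjoint A B ∧ A ∪ B = A0 ∪ B0 ∪ R ∧ Frs V A ∧ Frs V B := by
  intro n
  induction n with
  | zero =>
    intro R hR hdis h
    rw [Finset.card_eq_zero] at hR
    subst hR
    exact ⟨A0, B0, Finset.Subset.refl _, Finset.Subset.refl _, hd, by simp, hA, hB⟩
  | succ n ih =>
    intro R hR hdis h
    have hne : R.Nonempty := by
      rw [← Finset.card_pos]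
      omega
    obtain ⟨v, hv, hc⟩ := h R (Finset.Subset.refl _) hne
    obtain ⟨A, B, h1, h2, h3, h4, h5, h6⟩ := ih (R.erase v) (by rw [Finset.card_erase_of_mem hv]; omega)
      (Finset.disjoint_of_subset_left (Finset.erase_subset _ _) hdis)
      (fun S hS hSn => h S (hS.trans (Finset.erase_subset _ _)) hSn)
    have hv0 : v ∉ A0 ∪ B0 := Finset.disjoint_left.1 hdis hv
    have hvAB : v ∉ A ∪ B := by
      rw [h4]
      simp only [Finset.mem_union, Finset.mem_erase, not_or] at hv0 ⊢
      exact ⟨hv0, fun h => h.1 rfl⟩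
    have hvA : v ∉ A := fun h => hvAB (Finset.mem_union_left _ h)
    have hvB : v ∉ B := fun h => hvAB (Finset.mem_union_right _ h)
    have hsum : (A.filter fun u => Adj V v u).card + (B.filter fun u => Adj V v u).card ≤ 3 := by
      rw [← Finset.card_union_of_disjoint (Finset.disjoint_filter_filter h3), ← Finset.filter_union]
      refine le_trans (Finset.card_le_card ?_) hc
      apply Finset.filter_subset_filter
      rw [h4]
      intro u hu
      simp only [Finset.mem_union, Finset.mem_erase] at hu ⊢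
      rcases hu with hu | hu
      · exact Or.inr hu
      · exact Or.inl hu.2
    have huni : insert v (A ∪ B) = A0 ∪ B0 ∪ R := by
      rw [h4]
      ext u
      simp only [Finset.mem_insert, Finset.mem_union, Finset.mem_erase]
      constructor
      · rintro (rfl | h | h)
        · exact Or.inr hv
        · exact Or.inl h
        · exact Or.inr h.2
      · rintro (h | h)
        · exact Or.inr (Or.inl h)
        · by_cases huv : u = v
          · exact Or.inl huv
          · exact Or.inr (Or.inr ⟨huv, h⟩)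
    by_cases hle : (A.filter fun u => Adj V v u).card ≤ 1
    · refine ⟨insert v A, B, h1.trans (Finset.subset_insert _ _), h2, ?_, ?_, frs_insert h5 hle, h6⟩
      · rw [Finset.disjoint_insert_left]
        exact ⟨hvB, h3⟩
      · rw [Finset.insert_union]
        exact huni
    · refine ⟨A, insert v B, h1, h2.trans (Finset.subset_insert _ _), ?_, ?_, h5, frs_insert h6 (by omega)⟩
      · rw [Finset.disjoint_insert_right]
        exact ⟨hvA, h3⟩
      · rw [Finset.union_insert]
        exact huni

/-- K1: extending two forests -/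
theorem extend {V A0 B0 R : Finset (Ed 3)} (hA : Frs V A0) (hB : Frs V B0) (hd : Disjoint A0 B0) (hR : Disjoint R (A0 ∪ B0))
    (h : ∀ S : Finset (Ed 3), S ⊆ R → S.Nonempty → ∃ v ∈ S, ((S ∪ (A0 ∪ B0)).filter fun u => Adj V v u).card ≤ 3) :
    ∃ A B : Finset (Ed 3), A0 ⊆ A ∧ B0 ⊆ B ∧ Disjoint A B ∧ A ∪ B = A0 ∪ B0 ∪ R ∧ Frs V A ∧ Frs V B :=
  extend_aux hA hB hd R.card R rfl hR h

end Pool.Agent.LibGP88
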