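import Mathlib
import Pool.Agent.LibGP88.Defs
import Pool.Agent.LibGP88.D2
import Pool.Agent.LibGP88.Q2
import Pool.Agent.LibGP88.E1

/-! Row N1. Board GP88. The boundary of a set X of facets (edges in exactly one member of X) is an even graph.
(1) le_two: edge_two (Q2): at most two facets contain e. (2) bdy_sub: e ∈ bdy V X: exactly one member F of X contains e; edge_two: e = F1 ∩ F2, one of them is F, the other one F' is not in X. If e ∉ E then rE V E F F'
(e ∈ edg V, e ⊆ F, e ⊆ F'), so F' ∈ X by clo: contradiction. (3) at_two: the edges of F at x: {x, u} with u ∈ nb V x ∩ F (two_at: two of them): (edg V).filter (x ∈ e ∧ e ⊆ F) = (nb V x ∩ F).image (fun u => {x, u}), injective on it.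
(4) bdy_even: ∑ over F ∈ X with x ∈ F of 2 = ∑ over the edges e ∋ x of (X.filter (e ⊆ ·)).card (double counting, at_two; for x ∉ F no edge of F contains x). Each summand on the right is 0, 1 or 2 (le_two), so modulo 2 it is
1 exactly if e ∈ bdy V X; hence the number of e ∈ bdy V X with x ∈ e is even. -/

set_option autoImplicit false

namespace Pool.Agent.LibGP88

open Finset Pool.Agent.LibPol19 Pool.Agent.LibTet88
open scoped Classical

/-- N1: an edge is in at most two members of a set of facets -/
theorem le_two {V : Finset (Ed 3)} (hV : Gen V) {X : Finset (Finset (Ed 3))} (hX : ∀ F ∈ X, Fct V F) {e : Finset (Ed 3)}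
    (he : e ∈ edg V) : (X.filter fun F => e ⊆ F).card ≤ 2 := by
  obtain ⟨F, F', -, -, -, -, h⟩ := edge_two hV he
  have h1 : (X.filter fun F => e ⊆ F) ⊆ {F, F'} := by
    intro G hG
    rw [Finset.mem_filter] at hG
    rw [Finset.mem_insert, Finset.mem_singleton]
    exact h G (hX G hG.1) hG.2
  exact (Finset.card_le_card h1).trans Finset.card_le_two

/-- N1: the boundary of a closed set of facets -/
theorem bdy_sub {V : Finset (Ed 3)} (hV : Gen V) {E X : Finset (Finset (Ed 3))} (hX : Cls V E X) : bdy V X ⊆ E := by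
  intro e he
  unfold bdy at he
  rw [Finset.mem_filter] at he
  obtain ⟨he1, he2⟩ := he
  obtain ⟨F1, F2, hne, hF1, hF2, hin, hall⟩ := edge_two hV he1
  have hs1 : e ⊆ F1 := by
    rw [← hin]
    exact Finset.inter_subset_left
  have hs2 : e ⊆ F2 := by
    rw [← hin]
    exact Finset.inter_subset_right
  obtain ⟨F, hF⟩ := Finset.card_eq_one.1 he2
  have hFm : F ∈ X.filter fun F => e ⊆ F := by
    rw [hF]
    exact Finset.mem_singleton_self F
  rw [Finset.mem_filter] at hFm
  have huni : ∀ G ∈ X, e ⊆ G → G = F := by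
    intro G hG heG
    have : G ∈ X.filter fun F => e ⊆ F := Finset.mem_filter.2 ⟨hG, heG⟩
    rw [hF] at this
    exact Finset.mem_singleton.1 this
  by_contra hE
  rcases hall F (hX.sub F hFm.1) hFm.2 with h | h
  · have h3 : F2 ∈ X := hX.clo F hFm.1 F2 ⟨hX.sub F hFm.1, hF2, e, he1, hE, hFm.2, hs2⟩
    exact hne ((huni F2 h3 hs2).trans h).symm
  · have h3 : F1 ∈ X := hX.clo F hFm.1 F1 ⟨hX.sub F hFm.1, hF1, e, he1, hE, hFm.2, hs1⟩
    exact hne ((huni F1 h3 hs1).trans h)

/-- N1: a facet has two edges at a vertex -/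
theorem at_two {V : Finset (Ed 3)} (hV : Gen V) {F : Finset (Ed 3)} (hF : Fct V F) {x : Ed 3} (hx : x ∈ F) :
    ((edg V).filter fun e => x ∈ e ∧ e ⊆ F).card = 2 := by
  have h1 : ((edg V).filter fun e => x ∈ e ∧ e ⊆ F) = (nb V x ∩ F).image (fun u => ({x, u} : Finset (Ed 3))) := by
    ext e
    rw [Finset.mem_filter, Finset.mem_image]
    constructor
    · rintro ⟨he, hxe, heF⟩
      have he' := he
      unfold edg at he'
      rw [Finset.mem_filter, Finset.mem_powersetCard] at he'
      obtain ⟨a, b, hab, rfl⟩ := Finset.card_eq_two.1 he'.1.2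
      rw [Finset.mem_insert, Finset.mem_singleton] at hxe
      rcases hxe with rfl | rfl
      · refine ⟨b, Finset.mem_inter.2 ⟨?_, heF (Finset.mem_insert_of_mem (Finset.mem_singleton_self _))⟩, rfl⟩
        unfold nb
        exact Finset.mem_filter.2 ⟨he'.1.1 (Finset.mem_insert_of_mem (Finset.mem_singleton_self _)), hab, he'.2⟩
      · refine ⟨a, Finset.mem_inter.2 ⟨?_, heF (Finset.mem_insert_self _ _)⟩, Finset.pair_comm _ _⟩
        unfold nb
        refine Finset.mem_filter.2 ⟨he'.1.1 (Finset.mem_insert_self _ _), fun h => hab h.symm, ?_⟩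
        rw [Finset.pair_comm]
        exact he'.2
    · rintro ⟨u, hu, rfl⟩
      rw [Finset.mem_inter] at hu
      unfold nb at hu
      rw [Finset.mem_filter] at hu
      refine ⟨pair_mem_edg.2 hu.1.2, Finset.mem_insert_self _ _, ?_⟩
      intro z hz
      rw [Finset.mem_insert, Finset.mem_singleton] at hz
      rcases hz with rfl | rfl
      · exact hx
      · exact hu.2
  rw [h1, Finset.card_image_of_injOn, two_at hV hF hx]
  intro u hu v hv huv
  have hu' : u ∈ nb V x ∩ F := by exact_mod_cast hu
  rw [Finset.mem_inter] at hu'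
  unfold nb at hu'
  rw [Finset.mem_filter] at hu'
  have hxu : x ≠ u := hu'.1.2.1
  have huv' : ({x, u} : Finset (Ed 3)) = {x, v} := huv
  have h2 : u ∈ ({x, v} : Finset (Ed 3)) := by
    rw [← huv']
    exact Finset.mem_insert_of_mem (Finset.mem_singleton_self _)
  rw [Finset.mem_insert, Finset.mem_singleton] at h2
  rcases h2 with h2 | h2
  · exact absurd h2.symm hxu
  · exact h2

/-- N1: the boundary is an even graph -/
theorem bdy_even {V : Finset (Ed 3)} (hV : Gen V) {X : Finset (Finset (Ed 3))} (hX : ∀ F ∈ X, Fct V F) (x : Ed 3) :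
    Even ((bdy V X).filter fun e => x ∈ e).card := by
  have h1 : ∑ F ∈ X, ((edg V).filter fun e => x ∈ e ∧ e ⊆ F).card =
      ∑ e ∈ (edg V).filter (fun e => x ∈ e), (X.filter fun F => e ⊆ F).card := by
    have h2 : ∀ F ∈ X, ((edg V).filter fun e => x ∈ e ∧ e ⊆ F).card =
        ∑ e ∈ (edg V).filter (fun e => x ∈ e), (if e ⊆ F then 1 else 0) := by
      intro F _
      rw [← Finset.card_filter, Finset.filter_filter]
    have h3 : ∀ e ∈ (edg V).filter (fun e => x ∈ e), (X.filter fun F => e ⊆ F).card =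
        ∑ F ∈ X, (if e ⊆ F then 1 else 0) := by
      intro e _
      rw [← Finset.card_filter]
    rw [Finset.sum_congr rfl h2, Finset.sum_congr rfl h3, Finset.sum_comm]
  have h2 : Even (∑ F ∈ X, ((edg V).filter fun e => x ∈ e ∧ e ⊆ F).card) := by
    refine Finset.even_sum _ fun F hF => ?_
    by_cases hx : x ∈ F
    · rw [at_two hV (hX F hF) hx]
      exact even_two
    · have h3 : ((edg V).filter fun e => x ∈ e ∧ e ⊆ F) = ∅ := by
        rw [Finset.filter_eq_empty_iff]
        rintro e - ⟨h4, h5⟩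
        exact hx (h5 h4)
      rw [h3, Finset.card_empty]
      exact Even.zero
  rw [h1] at h2
  have h3 : ((bdy V X).filter fun e => x ∈ e) =
      ((edg V).filter (fun e => x ∈ e)).filter fun e => Odd (X.filter fun F => e ⊆ F).card := by
    ext e
    unfold bdy
    rw [Finset.mem_filter, Finset.mem_filter, Finset.mem_filter, Finset.mem_filter]
    constructor
    · rintro ⟨⟨h4, h5⟩, h6⟩
      refine ⟨⟨h4, h6⟩, ?_⟩
      rw [h5]
      exact odd_one
    · rintro ⟨⟨h4, h6⟩, h5⟩
      refine ⟨⟨h4, ?_⟩, h6⟩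
      have h7 := le_two hV hX h4
      obtain ⟨k, hk⟩ := h5
      omega
  rw [h3]
  exact (Finset.even_sum_iff_even_card_odd _).1 h2

end Pool.Agent.LibGP88
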