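import Mathlib
import Pool.Agent.LibGP88.Defs
import Pool.Agent.LibGP88.D2
import Pool.Agent.LibGP88.Q2
import Pool.Agent.LibGP88.E1
import Pool.Agent.LibGP88.N1

/-! Row K2. Board GP88. The boundary of the star of w: every vertex is on two of its edges; counting.
Zw: vertices ≠ w on facets through w; Ze: the edges not containing w of the facets through w (Defs).
(1) ze_sub. (2) z_two: x ∈ Zw. Case x adjacent to w: e0 := {w, x} ∈ edg V is in exactly two facets F, F' (edge_two, F ∩ F' = e0), both through w and x; a facet G through w and x contains e0, so it is F or F'. F has two edges at x (at_two): e0 and one more, f; F' has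
e0 and one more, f'. f ≠ f' (f = f' would be ⊆ F ∩ F' = e0, so f = e0). The Ze edges at x are f and f' (an edge e ∋ x, w ∉ e, e ⊆ G through w: G ∋ x so G ∈ {F, F'}; w ∉ e so e ≠ e0). Case x not adjacent to w: exactly one facet G through w contains x
(two of them would make {w, x} an edge: inter_pair); its two edges at x (at_two) do not contain w (an edge {w, x} is excluded) and they are the Ze edges at x. (3) ze_card: double counting with z_two: 2 |Zw| = 2 |Ze| (ze_sub, every edge has two vertices).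
(4) zw_card: count the pairs (F, x), F ∈ fat V w, x ∈ F, x ≠ w: ∑ (F.card - 1) = ∑ x ∈ Zw, number of facets through w and x; this number is 2 for x ∈ nb V w (edge_two) and 1 otherwise; nb V w ⊆ Zw (an edge {w, u} is in a facet: edge_two); so it is
|Zw| + |nb V w| = |Zw| + (fat V w).card (fat_card). Hence ∑ F.card = |Zw| + 2 (fat V w).card. -/

set_option autoImplicit false

namespace Pool.Agent.LibGP88

open Finset Pool.Agent.LibPol19 Pool.Agent.LibTet88
open scoped Classical

theorem mem_fat {V F : Finset (Ed 3)} {w : Ed 3} : F ∈ fat V w ↔ Fct V F ∧ w ∈ F := by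
  unfold fat
  rw [Finset.mem_filter, mem_fcs]

private theorem mem_Zw {V : Finset (Ed 3)} {w x : Ed 3} : x ∈ Zw V w ↔ x ∈ V ∧ x ≠ w ∧ ∃ A, Fct V A ∧ w ∈ A ∧ x ∈ A := by
  unfold Zw
  rw [Finset.mem_filter]

private theorem mem_Ze {V e : Finset (Ed 3)} {w : Ed 3} :
    e ∈ Ze V w ↔ e ∈ edg V ∧ w ∉ e ∧ ∃ A, Fct V A ∧ w ∈ A ∧ e ⊆ A := by
  unfold Ze
  rw [Finset.mem_filter]

private theorem eq_pair {V e : Finset (Ed 3)} {w x : Ed 3} (he : e ∈ edg V) (hw : w ∈ e) (hx : x ∈ e) (hne : x ≠ w) :
    e = {w, x} := by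
  have h2 := (mem_edg.1 he).2.1
  symm
  apply Finset.eq_of_subset_of_card_le
  · intro z hz
    rw [Finset.mem_insert, Finset.mem_singleton] at hz
    rcases hz with rfl | rfl
    · exact hw
    · exact hx
  · rw [h2, Finset.card_pair hne.symm]

theorem zw_sub {V : Finset (Ed 3)} {w : Ed 3} : Zw V w ⊆ V.erase w := by
  intro x hx
  obtain ⟨h1, h2, -⟩ := mem_Zw.1 hx
  exact Finset.mem_erase.2 ⟨h2, h1⟩

theorem ze_sub {V : Finset (Ed 3)} {w : Ed 3} {e : Finset (Ed 3)} (he : e ∈ Ze V w) : e ⊆ Zw V w := by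
  obtain ⟨h1, h2, A, hA, hwA, heA⟩ := mem_Ze.1 he
  intro x hx
  refine mem_Zw.2 ⟨(mem_edg.1 h1).1 hx, ?_, A, hA, hwA, heA hx⟩
  rintro rfl
  exact h2 hx

/-- K2: two boundary edges at every vertex -/
theorem z_two {V : Finset (Ed 3)} (hV : Gen V) {w : Ed 3} (hw : w ∈ V) {x : Ed 3} (hx : x ∈ Zw V w) :
    ((Ze V w).filter fun e => x ∈ e).card = 2 := by
  obtain ⟨hxV, hxw, A, hA, hwA, hxA⟩ := mem_Zw.1 hx
  by_cases hadj : Adj V w x
  · have he0 : ({w, x} : Finset (Ed 3)) ∈ edg V := pair_mem_edg.2 hadj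
    obtain ⟨F, F', hne, hF, hF', hint, hall⟩ := edge_two hV he0
    have hwI : w ∈ F ∩ F' := by rw [hint]; exact Finset.mem_insert_self _ _
    have hxI : x ∈ F ∩ F' := by rw [hint]; exact Finset.mem_insert_of_mem (Finset.mem_singleton_self _)
    rw [Finset.mem_inter] at hwI hxI
    have key : ∀ G, Fct V G → w ∈ G → x ∈ G → ∃ f, f ∈ edg V ∧ x ∈ f ∧ f ⊆ G ∧ f ≠ {w, x} ∧
        ∀ e ∈ edg V, x ∈ e → e ⊆ G → e ≠ {w, x} → e = f := by
      intro G hG hwG hxG
      have h2 := at_two hV hG hxG
      have hm : ({w, x} : Finset (Ed 3)) ∈ (edg V).filter fun e => x ∈ e ∧ e ⊆ G := by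
        rw [Finset.mem_filter]
        refine ⟨he0, Finset.mem_insert_of_mem (Finset.mem_singleton_self _), ?_⟩
        intro z hz
        rw [Finset.mem_insert, Finset.mem_singleton] at hz
        rcases hz with rfl | rfl
        · exact hwG
        · exact hxG
      have h1 : (((edg V).filter fun e => x ∈ e ∧ e ⊆ G).erase {w, x}).card = 1 := by
        rw [Finset.card_erase_of_mem hm, h2]
      obtain ⟨f, hf⟩ := Finset.card_eq_one.1 h1
      have hfm : f ∈ ((edg V).filter fun e => x ∈ e ∧ e ⊆ G).erase {w, x} := by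
        rw [hf]; exact Finset.mem_singleton_self _
      rw [Finset.mem_erase, Finset.mem_filter] at hfm
      refine ⟨f, hfm.2.1, hfm.2.2.1, hfm.2.2.2, hfm.1, ?_⟩
      intro e h3 h4 h5 h6
      have h7 : e ∈ ((edg V).filter fun e => x ∈ e ∧ e ⊆ G).erase {w, x} :=
        Finset.mem_erase.2 ⟨h6, Finset.mem_filter.2 ⟨h3, h4, h5⟩⟩
      rw [hf] at h7
      exact Finset.mem_singleton.1 h7
    obtain ⟨f, f1, f2, f3, f4, f5⟩ := key F hF hwI.1 hxI.1
    obtain ⟨f', g1, g2, g3, g4, g5⟩ := key F' hF' hwI.2 hxI.2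
    have hff : f ≠ f' := by
      intro h
      apply f4
      have h1 : f ⊆ {w, x} := by
        rw [← hint]
        exact Finset.subset_inter f3 (h ▸ g3)
      exact Finset.eq_of_subset_of_card_le h1 (by rw [(mem_edg.1 f1).2.1, Finset.card_pair hxw.symm])
    have hS : ((Ze V w).filter fun e => x ∈ e) = {f, f'} := by
      ext e
      rw [Finset.mem_filter, mem_Ze, Finset.mem_insert, Finset.mem_singleton]
      constructor
      · rintro ⟨⟨h1, h2, G, hG, hwG, heG⟩, h3⟩
        have hne' : e ≠ {w, x} := by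
          rintro rfl
          exact h2 (Finset.mem_insert_self _ _)
        have hsub : ({w, x} : Finset (Ed 3)) ⊆ G := by
          intro z hz
          rw [Finset.mem_insert, Finset.mem_singleton] at hz
          rcases hz with rfl | rfl
          · exact hwG
          · exact heG h3
        rcases hall G hG hsub with rfl | rfl
        · exact Or.inl (f5 e h1 h3 heG hne')
        · exact Or.inr (g5 e h1 h3 heG hne')
      · rintro (rfl | rfl)
        · exact ⟨⟨f1, fun h => f4 (eq_pair f1 h f2 hxw), F, hF, hwI.1, f3⟩, f2⟩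
        · exact ⟨⟨g1, fun h => g4 (eq_pair g1 h g2 hxw), F', hF', hwI.2, g3⟩, g2⟩
    rw [hS, Finset.card_pair hff]
  · have huniq : ∀ B, Fct V B → w ∈ B → x ∈ B → B = A := by
      intro B hB hwB hxB
      by_contra hne
      exact hadj (inter_pair hV hB hA hne hwB hwA hxB hxA hxw.symm).2
    have hS : ((Ze V w).filter fun e => x ∈ e) = (edg V).filter fun e => x ∈ e ∧ e ⊆ A := by
      ext e
      rw [Finset.mem_filter, mem_Ze, Finset.mem_filter]
      constructor
      · rintro ⟨⟨h1, h2, G, hG, hwG, heG⟩, h3⟩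
        have := huniq G hG hwG (heG h3)
        subst this
        exact ⟨h1, h3, heG⟩
      · rintro ⟨h1, h2, h3⟩
        refine ⟨⟨h1, ?_, A, hA, hwA, h3⟩, h2⟩
        intro hwe
        apply hadj
        rw [← pair_mem_edg, ← eq_pair h1 hwe h2 hxw]
        exact h1
    rw [hS]
    exact at_two hV hA hxA

theorem ze_card {V : Finset (Ed 3)} (hV : Gen V) {w : Ed 3} (hw : w ∈ V) : (Ze V w).card = (Zw V w).card := by
  have h := Finset.sum_card_bipartiteAbove_eq_sum_card_bipartiteBelow (s := Zw V w) (t := Ze V w) (fun x e => x ∈ e)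
  have h1 : ∑ x ∈ Zw V w, (Finset.bipartiteAbove (fun x e => x ∈ e) (Ze V w) x).card = ∑ x ∈ Zw V w, 2 := by
    apply Finset.sum_congr rfl
    intro x hx
    exact z_two hV hw hx
  have h2 : ∑ e ∈ Ze V w, (Finset.bipartiteBelow (fun x e => x ∈ e) (Zw V w) e).card = ∑ e ∈ Ze V w, 2 := by
    apply Finset.sum_congr rfl
    intro e he
    have h3 : Finset.bipartiteBelow (fun x e => x ∈ e) (Zw V w) e = e := by
      ext x
      rw [Finset.mem_bipartiteBelow]
      exact ⟨fun h => h.2, fun h => ⟨ze_sub he h, h⟩⟩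
    rw [h3]
    exact (mem_edg.1 (mem_Ze.1 he).1).2.1
  rw [h1, h2, Finset.sum_const, Finset.sum_const, smul_eq_mul, smul_eq_mul] at h
  omega

theorem nb_sub_zw {V : Finset (Ed 3)} (hV : Gen V) {w : Ed 3} : nb V w ⊆ Zw V w := by
  intro u hu
  unfold nb at hu
  rw [Finset.mem_filter] at hu
  obtain ⟨F, F', -, hF, -, hint, -⟩ := edge_two hV (pair_mem_edg.2 hu.2)
  have h1 : w ∈ F ∩ F' := by rw [hint]; exact Finset.mem_insert_self _ _
  have h2 : u ∈ F ∩ F' := by rw [hint]; exact Finset.mem_insert_of_mem (Finset.mem_singleton_self _)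
  exact mem_Zw.2 ⟨hu.1, fun h => hu.2.1 h.symm, F, hF, (Finset.mem_inter.1 h1).1, (Finset.mem_inter.1 h2).1⟩

theorem zw_card {V : Finset (Ed 3)} (hV : Gen V) {w : Ed 3} (hw : w ∈ V) :
    ∑ F ∈ fat V w, F.card = (Zw V w).card + 2 * (fat V w).card := by
  have hA : ∀ F ∈ fat V w, F.card = ((Zw V w).filter fun x => x ∈ F).card + 1 := by
    intro F hF
    obtain ⟨h1, h2⟩ := mem_fat.1 hF
    have h3 : ((Zw V w).filter fun x => x ∈ F) = F.erase w := by
      ext x
      rw [Finset.mem_filter, mem_Zw, Finset.mem_erase]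
      constructor
      · rintro ⟨⟨-, h4, -⟩, h5⟩
        exact ⟨h4, h5⟩
      · rintro ⟨h4, h5⟩
        exact ⟨⟨h1.1.2.1 h5, h4, F, h1, h2, h5⟩, h5⟩
    rw [h3, Finset.card_erase_of_mem h2]
    have h4 : 0 < F.card := Finset.card_pos.2 ⟨w, h2⟩
    omega
  have hB := Finset.sum_card_bipartiteAbove_eq_sum_card_bipartiteBelow (s := Zw V w) (t := fat V w) (fun x F => x ∈ F)
  have hC : ∀ x ∈ Zw V w, (Finset.bipartiteAbove (fun x F => x ∈ F) (fat V w) x).card = 1 + if x ∈ nb V w then 1 else 0 := by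
    intro x hx
    obtain ⟨hxV, hxw, A, hA, hwA, hxA⟩ := mem_Zw.1 hx
    by_cases hadj : Adj V w x
    · have hn : x ∈ nb V w := by
        unfold nb
        exact Finset.mem_filter.2 ⟨hxV, hadj⟩
      rw [if_pos hn]
      obtain ⟨F, F', hne, hF, hF', hint, hall⟩ := edge_two hV (pair_mem_edg.2 hadj)
      have hwI : w ∈ F ∩ F' := by rw [hint]; exact Finset.mem_insert_self _ _
      have hxI : x ∈ F ∩ F' := by rw [hint]; exact Finset.mem_insert_of_mem (Finset.mem_singleton_self _)
      rw [Finset.mem_inter] at hwI hxI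
      have hS : Finset.bipartiteAbove (fun x F => x ∈ F) (fat V w) x = {F, F'} := by
        ext G
        rw [Finset.mem_bipartiteAbove, mem_fat, Finset.mem_insert, Finset.mem_singleton]
        constructor
        · rintro ⟨⟨hG, hwG⟩, hxG⟩
          apply hall G hG
          intro z hz
          rw [Finset.mem_insert, Finset.mem_singleton] at hz
          rcases hz with rfl | rfl
          · exact hwG
          · exact hxG
        · rintro (rfl | rfl)
          · exact ⟨⟨hF, hwI.1⟩, hxI.1⟩
          · exact ⟨⟨hF', hwI.2⟩, hxI.2⟩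
      rw [hS, Finset.card_pair hne]
    · have hn : x ∉ nb V w := by
        unfold nb
        rw [Finset.mem_filter]
        exact fun h => hadj h.2
      rw [if_neg hn]
      have hS : Finset.bipartiteAbove (fun x F => x ∈ F) (fat V w) x = {A} := by
        ext G
        rw [Finset.mem_bipartiteAbove, mem_fat, Finset.mem_singleton]
        constructor
        · rintro ⟨⟨hG, hwG⟩, hxG⟩
          by_contra hne
          exact hadj (inter_pair hV hG hA hne hwG hwA hxG hxA hxw.symm).2
        · rintro rfl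
          exact ⟨⟨hA, hwA⟩, hxA⟩
      rw [hS, Finset.card_singleton]
  have hD : ∑ x ∈ Zw V w, (Finset.bipartiteAbove (fun x F => x ∈ F) (fat V w) x).card = (Zw V w).card + (fat V w).card := by
    rw [Finset.sum_congr rfl hC, Finset.sum_add_distrib, Finset.sum_const, smul_eq_mul, mul_one, fat_card hV hw,
      Finset.sum_ite_mem, Finset.inter_eq_right.2 (nb_sub_zw hV), Finset.sum_const, smul_eq_mul, mul_one]
  have hE : ∑ F ∈ fat V w, F.card = ∑ F ∈ fat V w, (Finset.bipartiteBelow (fun x F => x ∈ F) (Zw V w) F).card + (fat V w).card := by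
    rw [Finset.sum_congr rfl hA, Finset.sum_add_distrib, Finset.sum_const, smul_eq_mul, mul_one]
    rfl
  rw [hE, ← hB, hD]
  omega

end Pool.Agent.LibGP88
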