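import Mathlib
import Pool.Agent.LibGP88.Defs
import Pool.Agent.LibGP88.K2
import Pool.Agent.LibGP88.D4
import Pool.Agent.LibPol19.G20

/-! Row K3. Board GP88. The boundary of the star of w is connected; proper parts without chords are forests.
(1) z_conn: let x ∈ W, and F a facet through w and x. Claim: if G ∈ fat V w and some x ∈ G is in W (x ≠ w automatically, W ⊆ Zw) then G.erase w ⊆ W: balinski (LibPol19.G20) for the face G, S := {w}, 1 < dm G = 2: a chain in G from x to any y ∈ G, y ≠ w, avoiding w;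
each step u → u' is an edge {u, u'} ⊆ G without w: it is in Ze, so u' ∈ W by hc. For two facets G, G' through w with Nx V G G' (common edge e ∈ edg V; w ∈ G ∩ G' = e by inter_edge): e = {w, n}, n ≠ w, n ∈ G.erase w ⊆ W and n ∈ G': so G'.erase w ⊆ W. star_conn (D4):
all facets through w; so Zw ⊆ W. (2) z_forest: let W ⊆ A be nonempty and suppose every x ∈ W has at least two neighbours in W. For x ∈ W the edges {x, u}, u ∈ W adjacent, are in Ze (hc): at least two of them, and z_two says exactly two Ze edges contain x, so all Ze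
edges at x are ⊆ W: by z_conn W = Zw, so A = Zw: contradiction. -/

set_option autoImplicit false

namespace Pool.Agent.LibGP88

open Finset Pool.Agent.LibPol19 Pool.Agent.LibTet88
open scoped Classical

private theorem k3_ze {V G : Finset (Ed 3)} {w u v : Ed 3} (hG : Fct V G) (hw : w ∈ G) (hu : u ∈ G) (hv : v ∈ G) (hwu : w ≠ u)
    (hwv : w ≠ v) (h : Adj V u v) : ({u, v} : Finset (Ed 3)) ∈ Ze V w := by
  unfold Ze
  rw [Finset.mem_filter]
  refine ⟨pair_mem_edg.2 h, ?_, G, hG, hw, ?_⟩
  · rw [Finset.mem_insert, Finset.mem_singleton]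
    rintro (h1 | h1)
    · exact hwu h1
    · exact hwv h1
  · intro z hz
    rw [Finset.mem_insert, Finset.mem_singleton] at hz
    rcases hz with rfl | rfl
    · exact hu
    · exact hv

private theorem k3_facet {V : Finset (Ed 3)} (hV : Gen V) {w : Ed 3} {W : Finset (Ed 3)}
    (hc : ∀ x ∈ W, ∀ e ∈ Ze V w, x ∈ e → e ⊆ W) {G : Finset (Ed 3)} (hG : Fct V G) (hwG : w ∈ G) {x : Ed 3} (hx : x ∈ G)
    (hxw : x ≠ w) (hxW : x ∈ W) {y : Ed 3} (hy : y ∈ G) (hyw : y ≠ w) : y ∈ W := by
  have hcard : ({w} : Finset (Ed 3)).card < dm G := by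
    rw [Finset.card_singleton, hG.2]
    norm_num
  have hchain := balinski hV.vert hG.1 (S := ({w} : Finset (Ed 3))) hcard hx
    (fun h => hxw (Finset.mem_singleton.1 h)) hy (fun h => hyw (Finset.mem_singleton.1 h))
  have key : y ∈ W ∧ y ∈ G ∧ y ≠ w := by
    clear hy hyw
    induction hchain with
    | refl => exact ⟨hxW, hx, hxw⟩
    | tail _ hstep ih =>
      obtain ⟨h1, h2, h3⟩ := ih
      obtain ⟨a1, a2, a3⟩ := hstep
      have a4 := fun h => a3 (Finset.mem_singleton.2 h)
      refine ⟨?_, a2, a4⟩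
      exact hc _ h1 _ (k3_ze hG hwG h2 a2 (Ne.symm h3) (fun h => a4 h.symm) a1) (Finset.mem_insert_self _ _)
        (Finset.mem_insert_of_mem (Finset.mem_singleton_self _))
  exact key.1

/-- K3: the boundary of the star is connected -/
theorem z_conn {V : Finset (Ed 3)} (hV : Gen V) {w : Ed 3} (hw : w ∈ V) {W : Finset (Ed 3)} (hW : W ⊆ Zw V w) (hne : W.Nonempty)
    (hc : ∀ x ∈ W, ∀ e ∈ Ze V w, x ∈ e → e ⊆ W) : W = Zw V w := by
  refine Finset.Subset.antisymm hW ?_
  intro z hz
  obtain ⟨x, hx⟩ := hne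
  have hx' := hW hx
  unfold Zw at hx' hz
  rw [Finset.mem_filter] at hx' hz
  obtain ⟨_, hxw, F, hF, hwF, hxF⟩ := hx'
  obtain ⟨_, hzw, G, hG, hwG, hzG⟩ := hz
  have hchain := star_conn hV hw hF hG hwF hwG
  have key : ∀ y ∈ G, y ≠ w → y ∈ W := by
    clear hzG hwG hG
    induction hchain with
    | refl => exact fun y hy hyw => k3_facet hV hc hF hwF hxF hxw hx hy hyw
    | @tail H H' _ hstep ih =>
      obtain ⟨⟨h1, h2, e, he, heH, heH'⟩, h3, h4⟩ := hstep
      by_cases hHH : H = H'
      · exact hHH ▸ ih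
      · have h2c : e.card = 2 := (mem_edg.1 he).2.1
        obtain ⟨h5, _⟩ := inter_edge hV h1 h2 hHH heH heH' h2c
        have hwe : w ∈ e := by
          rw [← h5, Finset.mem_inter]
          exact ⟨h3, h4⟩
        obtain ⟨n, hn, hnw⟩ := Finset.exists_mem_ne (by omega : 1 < e.card) w
        intro y hy hyw
        exact k3_facet hV hc h2 h4 (heH' hn) hnw (ih n (heH hn) hnw) hy hyw
  exact key z hzG hzw

/-- K3: proper subsets of the boundary of the star without chords are forests -/
theorem z_forest {V : Finset (Ed 3)} (hV : Gen V) {w : Ed 3} (hw : w ∈ V) {A : Finset (Ed 3)} (hA : A ⊆ Zw V w) (hne : A ≠ Zw V w)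
    (hc : ∀ x ∈ A, ∀ y ∈ A, Adj V x y → ({x, y} : Finset (Ed 3)) ∈ Ze V w) : Frs V A := by
  intro W hWA hWne
  by_contra hcon
  push Not at hcon
  have hclo : ∀ x ∈ W, ∀ e ∈ Ze V w, x ∈ e → e ⊆ W := by
    intro x hx e he hxe
    obtain ⟨u, hu, v, hv, huv⟩ := Finset.one_lt_card.1 (hcon x hx)
    rw [Finset.mem_filter] at hu hv
    have e1 := hc x (hWA hx) u (hWA hu.1) hu.2
    have e2 := hc x (hWA hx) v (hWA hv.1) hv.2
    have h2 := z_two hV hw (hA (hWA hx))
    have hne12 : ({x, u} : Finset (Ed 3)) ≠ {x, v} := by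
      intro h
      have hu' : u ∈ ({x, v} : Finset (Ed 3)) := by
        rw [← h]
        exact Finset.mem_insert_of_mem (Finset.mem_singleton_self _)
      rw [Finset.mem_insert, Finset.mem_singleton] at hu'
      rcases hu' with h' | h'
      · exact hu.2.1 h'.symm
      · exact huv h'
    have hsub : ({{x, u}, {x, v}} : Finset (Finset (Ed 3))) ⊆ (Ze V w).filter fun e => x ∈ e := by
      intro f hf
      rw [Finset.mem_insert, Finset.mem_singleton] at hf
      rw [Finset.mem_filter]
      rcases hf with rfl | rfl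
      · exact ⟨e1, Finset.mem_insert_self _ _⟩
      · exact ⟨e2, Finset.mem_insert_self _ _⟩
    have heq := Finset.eq_of_subset_of_card_le hsub (by rw [h2, Finset.card_pair hne12])
    have hein : e ∈ ({{x, u}, {x, v}} : Finset (Finset (Ed 3))) := by
      rw [heq, Finset.mem_filter]
      exact ⟨he, hxe⟩
    rw [Finset.mem_insert, Finset.mem_singleton] at hein
    intro z hz
    rcases hein with rfl | rfl
    · rw [Finset.mem_insert, Finset.mem_singleton] at hz
      rcases hz with rfl | rfl
      · exact hx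
      · exact hu.1
    · rw [Finset.mem_insert, Finset.mem_singleton] at hz
      rcases hz with rfl | rfl
      · exact hx
      · exact hv.1
  have hWZ := z_conn hV hw (fun x hx => hA (hWA hx)) hWne hclo
  apply hne
  refine Finset.Subset.antisymm hA ?_
  rw [← hWZ]
  exact hWA

end Pool.Agent.LibGP88
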