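import Mathlib
import Pool.Agent.LibGP88.Defs
import Pool.Agent.LibGP88.K2

/-! Row K4. Board GP88. Runs on the boundary of the star.
(1) run_one: z_two: the filter has exactly two elements g ≠ g' (Finset.card_eq_two). (2) run_fct: F a facet through w, u ≠ u' the two neighbours of w in F (two_at). If e ∈ Ze has one vertex x in F and one vertex y ∉ F: e = {x, y} ⊆ G, G a facet through w, G ≠ F, w, x ∈ F ∩ G:
inter_pair: F ∩ G = {w, x} and Adj V w x, so x ∈ {u, u'}. For x = u: {w, u} is in exactly two facets F and G (edge_two); G has exactly two edges at u (at_two): {w, u} and one more, g = {u, y}: y ∉ F (else y ∈ F ∩ G = {w, u}), w ∉ g, so g ∈ Ze. Likewise g' for u'.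
So the Ze edges with one end in F and one end outside are exactly g, g'. g ≠ g': g = {u, y}, y ∉ F, g' ∋ u' ∈ F, u' ≠ u: if g = g' then u' = y ∉ F, contradiction. -/

set_option autoImplicit false

namespace Pool.Agent.LibGP88

open Finset Pool.Agent.LibPol19 Pool.Agent.LibTet88
open scoped Classical

private theorem K4_mem_Ze {V : Finset (Ed 3)} {w : Ed 3} {e : Finset (Ed 3)} :
    e ∈ Ze V w ↔ e ∈ edg V ∧ w ∉ e ∧ ∃ A, Fct V A ∧ w ∈ A ∧ e ⊆ A := by
  unfold Ze
  rw [Finset.mem_filter]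

/-- a set of two elements with given elements -/
private theorem K4_pair {e : Finset (Ed 3)} (h2 : e.card = 2) {x y : Ed 3} (hx : x ∈ e) (hy : y ∈ e) (hxy : x ≠ y) :
    e = {x, y} := by
  symm
  refine Finset.eq_of_subset_of_card_le ?_ ?_
  · intro z hz
    rw [Finset.mem_insert, Finset.mem_singleton] at hz
    rcases hz with rfl | rfl
    · exact hx
    · exact hy
  · rw [h2, Finset.card_pair hxy]

/-- the boundary edge leaving a facet at a neighbour of `w` -/
private theorem K4_side {V : Finset (Ed 3)} (hV : Gen V) {w : Ed 3} {F : Finset (Ed 3)} (hF : Fct V F)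
    (hwF : w ∈ F) {u : Ed 3} (huF : u ∈ F) (hwu : Adj V w u) :
    ∃ g, g ∈ Ze V w ∧ u ∈ g ∧ (∃ y ∈ g, y ∉ F) ∧ (∀ v ∈ g, v ∈ F → v = u) ∧
      ∀ e ∈ Ze V w, u ∈ e → (∃ y ∈ e, y ∉ F) → e = g := by
  have hne : w ≠ u := hwu.1
  have hed : ({w, u} : Finset (Ed 3)) ∈ edg V := pair_mem_edg.2 hwu
  have heF : ({w, u} : Finset (Ed 3)) ⊆ F := by
    intro z hz
    rw [Finset.mem_insert, Finset.mem_singleton] at hz
    rcases hz with rfl | rfl
    · exact hwF
    · exact huF
  -- the other facet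
  obtain ⟨G, hG, hFG, hall⟩ : ∃ G, Fct V G ∧ F ∩ G = {w, u} ∧
      ∀ H, Fct V H → ({w, u} : Finset (Ed 3)) ⊆ H → H = F ∨ H = G := by
    obtain ⟨F1, F2, h12, hF1, hF2, hint, hall⟩ := edge_two hV hed
    rcases hall F hF heF with h | h
    · subst h
      exact ⟨F2, hF2, hint, hall⟩
    · subst h
      exact ⟨F1, hF1, by rw [Finset.inter_comm]; exact hint, fun H hH he => (hall H hH he).symm⟩
  have hin : ∀ z, z ∈ F → z ∈ G → z = w ∨ z = u := by
    intro z hz hz'
    have h1 : z ∈ F ∩ G := Finset.mem_inter.2 ⟨hz, hz'⟩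
    rw [hFG, Finset.mem_insert, Finset.mem_singleton] at h1
    exact h1
  have hwG : w ∈ G := by
    have h1 : w ∈ F ∩ G := by rw [hFG]; exact Finset.mem_insert_self _ _
    exact (Finset.mem_inter.1 h1).2
  have huG : u ∈ G := by
    have h1 : u ∈ F ∩ G := by rw [hFG]; exact Finset.mem_insert_of_mem (Finset.mem_singleton_self _)
    exact (Finset.mem_inter.1 h1).2
  -- the two edges of `G` at `u`
  have h2 := at_two hV hG huG
  have h0 : ({w, u} : Finset (Ed 3)) ∈ (edg V).filter fun e => u ∈ e ∧ e ⊆ G := by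
    rw [Finset.mem_filter]
    refine ⟨hed, Finset.mem_insert_of_mem (Finset.mem_singleton_self _), ?_⟩
    intro z hz
    rw [Finset.mem_insert, Finset.mem_singleton] at hz
    rcases hz with rfl | rfl
    · exact hwG
    · exact huG
  obtain ⟨g, hg, hg0⟩ := Finset.exists_mem_ne (by omega : 1 < ((edg V).filter fun e => u ∈ e ∧ e ⊆ G).card) {w, u}
  have hset : ((edg V).filter fun e => u ∈ e ∧ e ⊆ G) = {{w, u}, g} := by
    symm
    refine Finset.eq_of_subset_of_card_le ?_ ?_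
    · intro z hz
      rw [Finset.mem_insert, Finset.mem_singleton] at hz
      rcases hz with rfl | rfl
      · exact h0
      · exact hg
    · rw [h2, Finset.card_pair hg0.symm]
  rw [Finset.mem_filter] at hg
  obtain ⟨hge, hug, hgG⟩ := hg
  have hgc : g.card = 2 := (mem_edg.1 hge).2.1
  have hwg : w ∉ g := by
    intro h
    exact hg0 (K4_pair hgc h hug hne)
  obtain ⟨y, hy, hyu⟩ := Finset.exists_mem_ne (by omega : 1 < g.card) u
  have hyF : y ∉ F := by
    intro h
    rcases hin y h (hgG hy) with h3 | h3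
    · exact hwg (h3 ▸ hy)
    · exact hyu h3
  refine ⟨g, K4_mem_Ze.2 ⟨hge, hwg, G, hG, hwG, hgG⟩, hug, ⟨y, hy, hyF⟩, ?_, ?_⟩
  · intro v hv hvF
    rcases hin v hvF (hgG hv) with h3 | h3
    · exact absurd (h3 ▸ hv) hwg
    · exact h3
  · intro e he hue ⟨y', hy', hy'F⟩
    obtain ⟨hee, hwe, H, hH, hwH, heH⟩ := K4_mem_Ze.1 he
    have h3 : ({w, u} : Finset (Ed 3)) ⊆ H := by
      intro z hz
      rw [Finset.mem_insert, Finset.mem_singleton] at hz
      rcases hz with rfl | rfl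
      · exact hwH
      · exact heH hue
    rcases hall H hH h3 with h4 | h4
    · exact absurd (h4 ▸ heH hy') hy'F
    · subst h4
      have h5 : e ∈ (edg V).filter fun e => u ∈ e ∧ e ⊆ H := by
        rw [Finset.mem_filter]
        exact ⟨hee, hue, heH⟩
      rw [hset, Finset.mem_insert, Finset.mem_singleton] at h5
      rcases h5 with h6 | h6
      · exact absurd (h6 ▸ Finset.mem_insert_self _ _) hwe
      · exact h6

/-- K4: the run consisting of one vertex -/
theorem run_one {V : Finset (Ed 3)} (hV : Gen V) {w : Ed 3} (hw : w ∈ V) {z : Ed 3} (hz : z ∈ Zw V w) :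
    ∃ g g', g ∈ Ze V w ∧ g' ∈ Ze V w ∧ g ≠ g' ∧ ∀ e ∈ Ze V w, z ∈ e ↔ (e = g ∨ e = g') := by
  obtain ⟨g, g', hne, hgg⟩ := Finset.card_eq_two.1 (z_two hV hw hz)
  have h1 : ∀ e, (e ∈ Ze V w ∧ z ∈ e) ↔ (e = g ∨ e = g') := by
    intro e
    have h2 : e ∈ (Ze V w).filter (fun e => z ∈ e) ↔ e ∈ ({g, g'} : Finset (Finset (Ed 3))) := by rw [hgg]
    rw [Finset.mem_filter, Finset.mem_insert, Finset.mem_singleton] at h2
    exact h2
  refine ⟨g, g', ((h1 g).2 (Or.inl rfl)).1, ((h1 g').2 (Or.inr rfl)).1, hne, ?_⟩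
  intro e he
  constructor
  · intro h
    exact (h1 e).1 ⟨he, h⟩
  · intro h
    exact ((h1 e).2 h).2

/-- K4: the run in a facet through `w` -/
theorem run_fct {V : Finset (Ed 3)} (hV : Gen V) {w : Ed 3} (hw : w ∈ V) {F : Finset (Ed 3)} (hF : Fct V F) (hwF : w ∈ F) :
    ∃ g g', g ∈ Ze V w ∧ g' ∈ Ze V w ∧ g ≠ g' ∧
      ∀ e ∈ Ze V w, ((∃ x ∈ e, x ∈ F) ∧ ∃ x ∈ e, x ∉ F) ↔ (e = g ∨ e = g') := by
  obtain ⟨u, u', hne, huu⟩ := Finset.card_eq_two.1 (two_at hV hF hwF)
  have hu : u ∈ nb V w ∩ F := by rw [huu]; exact Finset.mem_insert_self _ _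
  have hu' : u' ∈ nb V w ∩ F := by rw [huu]; exact Finset.mem_insert_of_mem (Finset.mem_singleton_self _)
  rw [Finset.mem_inter] at hu hu'
  have hadj : Adj V w u := (Finset.mem_filter.1 hu.1).2
  have hadj' : Adj V w u' := (Finset.mem_filter.1 hu'.1).2
  obtain ⟨g, hg, hug, hgo, hgi, hgu⟩ := K4_side hV hF hwF hu.2 hadj
  obtain ⟨g', hg', hug', hgo', hgi', hgu'⟩ := K4_side hV hF hwF hu'.2 hadj'
  refine ⟨g, g', hg, hg', ?_, ?_⟩
  · intro h
    exact hne (hgi u' (h ▸ hug') hu'.2).symm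
  · intro e he
    constructor
    · rintro ⟨⟨x, hx, hxF⟩, y, hy, hyF⟩
      obtain ⟨hee, hwe, G, hG, hwG, heG⟩ := K4_mem_Ze.1 he
      have hxw : w ≠ x := by
        rintro rfl
        exact hwe hx
      have hFG : F ≠ G := by
        rintro rfl
        exact hyF (heG hy)
      obtain ⟨h1, h2⟩ := inter_pair hV hF hG hFG hwF hwG hxF (heG hx) hxw
      have h3 : x ∈ nb V w ∩ F := by
        rw [Finset.mem_inter]
        refine ⟨?_, hxF⟩
        unfold nb
        rw [Finset.mem_filter]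
        exact ⟨hF.1.2.1 hxF, h2⟩
      rw [huu, Finset.mem_insert, Finset.mem_singleton] at h3
      rcases h3 with rfl | rfl
      · exact Or.inl (hgu e he hx ⟨y, hy, hyF⟩)
      · exact Or.inr (hgu' e he hx ⟨y, hy, hyF⟩)
    · rintro (rfl | rfl)
      · exact ⟨⟨u, hug, hu.2⟩, hgo⟩
      · exact ⟨⟨u', hug', hu'.2⟩, hgo'⟩

end Pool.Agent.LibGP88
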