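import Mathlib
import Pool.Agent.LibGP88.Defs

/-! Row N0. Board GP88. Classes of a finite set under the equivalence relation generated by r (pure combinatorics).
ncl S r = card of S.image (fun a => S.filter (EqvGen r a ·)). (1) ncl_mono: r' ⊆ EqvGen r implies EqvGen r' ⊆ EqvGen r (Relation.EqvGen induction), so x ↦ the r'-class determines the r-class: there is a surjection
from the image for r' onto the image for r (Finset.card_le_card_of_surjOn or: the image for r is the image of the image for r' under C ↦ S.filter (fun b => ∃ a ∈ C, EqvGen r a b)).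
(2) ncl_add: let r2 x y := r x y ∨ (x = a ∧ y = b) ∨ (x = b ∧ y = a). EqvGen r2 x y → EqvGen r x y ∨ (EqvGen r x a ∧ EqvGen r b y) ∨ (EqvGen r x b ∧ EqvGen r a y) (induction on EqvGen). Hence on the r-classes different from
the class S.filter (EqvGen r a ·) the map C = cls_r x ↦ cls_r2 x is well defined and injective (if EqvGen r2 x y and x, y not r-equivalent to a, the last two cases are impossible), so card (image for r) - 1 ≤ card (image for r2) (Finset.card_erase..;
choose a representative for each class, or use Finset.card_le_card_of_injOn), and ncl S r2 ≤ ncl S r' by ncl_mono (r' ⊆ r2). -/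

set_option autoImplicit false

namespace Pool.Agent.LibGP88

open Finset Pool.Agent.LibPol19 Pool.Agent.LibTet88
open scoped Classical

private theorem N0_cls {α : Type} (S : Finset α) {r : α → α → Prop} {x y : α} (h : Relation.EqvGen r x y) :
    (S.filter fun b => Relation.EqvGen r x b) = S.filter fun b => Relation.EqvGen r y b := by
  apply Finset.filter_congr
  intro b _
  exact ⟨fun hb => (h.symm).trans _ _ _ hb, fun hb => h.trans _ _ _ hb⟩

private theorem N0_sub {α : Type} {r r' : α → α → Prop} (h : ∀ x y, r' x y → Relation.EqvGen r x y) {x y : α}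
    (hxy : Relation.EqvGen r' x y) : Relation.EqvGen r x y := by
  induction hxy with
  | rel x y hxy => exact h x y hxy
  | refl x => exact Relation.EqvGen.refl x
  | symm x y _ ih => exact ih.symm
  | trans x y z _ _ ih1 ih2 => exact ih1.trans _ _ _ ih2

private theorem N0_g {α : Type} (S : Finset α) {r r' : α → α → Prop} (h : ∀ x y, r' x y → Relation.EqvGen r x y)
    {x : α} (hx : x ∈ S) :
    (S.filter fun b => ∃ c ∈ S.filter (fun b => Relation.EqvGen r' x b), Relation.EqvGen r c b) =
      S.filter fun b => Relation.EqvGen r x b := by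
  apply Finset.filter_congr
  intro b _
  constructor
  · rintro ⟨c, hc, hcb⟩
    exact (N0_sub h (Finset.mem_filter.1 hc).2).trans _ _ _ hcb
  · intro hb
    exact ⟨x, Finset.mem_filter.2 ⟨hx, Relation.EqvGen.refl x⟩, hb⟩

private theorem N0_key {α : Type} (r : α → α → Prop) (a b : α) {x y : α}
    (h : Relation.EqvGen (fun x y => r x y ∨ (x = a ∧ y = b) ∨ (x = b ∧ y = a)) x y) :
    Relation.EqvGen r x y ∨ (Relation.EqvGen r x a ∧ Relation.EqvGen r b y) ∨
      (Relation.EqvGen r x b ∧ Relation.EqvGen r a y) := by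
  induction h with
  | rel x y hxy =>
    rcases hxy with h1 | ⟨rfl, rfl⟩ | ⟨rfl, rfl⟩
    · exact Or.inl (Relation.EqvGen.rel x y h1)
    · exact Or.inr (Or.inl ⟨Relation.EqvGen.refl _, Relation.EqvGen.refl _⟩)
    · exact Or.inr (Or.inr ⟨Relation.EqvGen.refl _, Relation.EqvGen.refl _⟩)
  | refl x => exact Or.inl (Relation.EqvGen.refl x)
  | symm x y _ ih =>
    rcases ih with h1 | ⟨h1, h2⟩ | ⟨h1, h2⟩
    · exact Or.inl h1.symm
    · exact Or.inr (Or.inr ⟨h2.symm, h1.symm⟩)
    · exact Or.inr (Or.inl ⟨h2.symm, h1.symm⟩)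
  | trans x y z _ _ ih1 ih2 =>
    rcases ih1 with h1 | ⟨h1, h2⟩ | ⟨h1, h2⟩
    · rcases ih2 with h3 | ⟨h3, h4⟩ | ⟨h3, h4⟩
      · exact Or.inl (h1.trans _ _ _ h3)
      · exact Or.inr (Or.inl ⟨h1.trans _ _ _ h3, h4⟩)
      · exact Or.inr (Or.inr ⟨h1.trans _ _ _ h3, h4⟩)
    · rcases ih2 with h3 | ⟨h3, h4⟩ | ⟨h3, h4⟩
      · exact Or.inr (Or.inl ⟨h1, h2.trans _ _ _ h3⟩)
      · exact Or.inr (Or.inl ⟨h1, h4⟩)
      · exact Or.inl (h1.trans _ _ _ h4)
    · rcases ih2 with h3 | ⟨h3, h4⟩ | ⟨h3, h4⟩
      · exact Or.inr (Or.inr ⟨h1, h2.trans _ _ _ h3⟩)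
      · exact Or.inl (h1.trans _ _ _ h4)
      · exact Or.inr (Or.inr ⟨h1, h4⟩)

/-- N0: monotonicity -/
theorem ncl_mono {α : Type} (S : Finset α) (r r' : α → α → Prop) (h : ∀ x y, r' x y → Relation.EqvGen r x y) :
    ncl S r ≤ ncl S r' := by
  unfold ncl
  have h1 : (S.image fun a => S.filter fun b => Relation.EqvGen r a b) =
      (S.image fun a => S.filter fun b => Relation.EqvGen r' a b).image
        (fun C => S.filter fun b => ∃ c ∈ C, Relation.EqvGen r c b) := by
    rw [Finset.image_image]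
    apply Finset.image_congr
    intro x hx
    exact (N0_g S h (Finset.mem_coe.1 hx)).symm
  rw [h1]
  exact Finset.card_image_le

/-- N0: one more pair merges at most two classes -/
theorem ncl_add {α : Type} (S : Finset α) (r r' : α → α → Prop) (a b : α)
    (h : ∀ x y, r' x y → r x y ∨ (x = a ∧ y = b) ∨ (x = b ∧ y = a)) : ncl S r ≤ ncl S r' + 1 := by
  have h0 : ∀ x y, r x y →
      Relation.EqvGen (fun x y => r x y ∨ (x = a ∧ y = b) ∨ (x = b ∧ y = a)) x y :=
    fun x y hxy => Relation.EqvGen.rel _ _ (Or.inl hxy)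
  have h1 : ncl S (fun x y => r x y ∨ (x = a ∧ y = b) ∨ (x = b ∧ y = a)) ≤ ncl S r' :=
    ncl_mono S _ r' fun x y hxy => Relation.EqvGen.rel _ _ (h x y hxy)
  have h2 : ((S.image fun a => S.filter fun b => Relation.EqvGen r a b).erase
      (S.filter fun b => Relation.EqvGen r a b)).card ≤
      ncl S (fun x y => r x y ∨ (x = a ∧ y = b) ∨ (x = b ∧ y = a)) := by
    unfold ncl
    apply Finset.card_le_card_of_injOn (fun C => S.filter fun y => ∃ c ∈ C,
      Relation.EqvGen (fun x y => r x y ∨ (x = a ∧ y = b) ∨ (x = b ∧ y = a)) c y)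
    · intro C hC
      rw [Finset.mem_coe, Finset.mem_erase, Finset.mem_image] at hC
      obtain ⟨-, x, hx, rfl⟩ := hC
      rw [Finset.mem_coe, Finset.mem_image]
      exact ⟨x, hx, (N0_g S h0 hx).symm⟩
    · intro C hC C' hC' hCC
      rw [Finset.mem_coe, Finset.mem_erase, Finset.mem_image] at hC hC'
      obtain ⟨hCa, x, hx, rfl⟩ := hC
      obtain ⟨hCa', x', hx', rfl⟩ := hC'
      have h3 := (N0_g S h0 hx).symm.trans (hCC.trans (N0_g S h0 hx'))
      have h4 : x' ∈ S.filter fun y =>
          Relation.EqvGen (fun x y => r x y ∨ (x = a ∧ y = b) ∨ (x = b ∧ y = a)) x y := by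
        rw [h3]
        exact Finset.mem_filter.2 ⟨hx', Relation.EqvGen.refl _⟩
      rcases N0_key r a b (Finset.mem_filter.1 h4).2 with h5 | ⟨h5, -⟩ | ⟨-, h5⟩
      · exact N0_cls S h5
      · exact absurd (N0_cls S h5) hCa
      · exact absurd (N0_cls S h5).symm hCa'
  have h3 := Finset.pred_card_le_card_erase (s := S.image fun a => S.filter fun b => Relation.EqvGen r a b)
    (a := S.filter fun b => Relation.EqvGen r a b)
  have h4 : ncl S r = (S.image fun a => S.filter fun b => Relation.EqvGen r a b).card := rfl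
  omega

end Pool.Agent.LibGP88
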