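import Mathlib
import Pool.Agent.LibGP88.Defs
import Pool.Agent.LibGP88.D2
import Pool.Agent.LibGP88.N0
import Pool.Agent.LibGP88.N1

/-! Row N2. Board GP88. Removing one edge from E.
(1) cls_cls: the class of a facet F: X := (fcs V).filter (EqvGen (rE V E) F ·) satisfies Cls V E X. (2) pendant: e0 ∈ E is the only edge of E containing x ∈ e0. X := the class of F. If G ∉ X then e0 is in exactly one member of X (F ∈ X contains e0; e0 is in
exactly two facets (edge_two), F and G are the two if F ≠ G (if F = G: EqvGen.refl)): e0 ∈ bdy V X. bdy V X ⊆ E (bdy_sub), so the only edge of bdy V X containing x is e0: the filter has card 1, odd: contradiction with bdy_even.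
So G ∈ X: EqvGen F G. (3) del_one: rE V (E.erase e0) F G → rE V E F G ∨ (both contain e0, then {F, G} ⊆ the two facets a, b of e0 (edge_two), and F = G is possible!). So: for F ≠ G it is (a, b) or (b, a); for F = G use reflexivity:
apply ncl_mono first to r' restricted to F ≠ G (rE V (E.erase e0) F F ⊆ EqvGen anything by refl), then ncl_add. (4) del_pend: ncl_mono: every pair of rE V (E.erase e0) is in EqvGen (rE V E) (pendant for the new pairs). -/

set_option autoImplicit false

namespace Pool.Agent.LibGP88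

open Finset Pool.Agent.LibPol19 Pool.Agent.LibTet88
open scoped Classical

/-- N2: classes are closed -/
theorem cls_cls {V : Finset (Ed 3)} {E : Finset (Finset (Ed 3))} {F : Finset (Ed 3)} :
    Cls V E ((fcs V).filter fun G => Relation.EqvGen (rE V E) F G) := by
  constructor
  · intro G hG
    exact mem_fcs.1 (Finset.mem_filter.1 hG).1
  · intro G hG G' h
    refine Finset.mem_filter.2 ⟨mem_fcs.2 h.2.1, ?_⟩
    exact Relation.EqvGen.trans _ _ _ (Finset.mem_filter.1 hG).2 (Relation.EqvGen.rel _ _ h)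

/-- N2: the two sides of a pendant edge are in one class -/
theorem pendant {V : Finset (Ed 3)} (hV : Gen V) {E : Finset (Finset (Ed 3))} {e0 : Finset (Ed 3)} (he0 : e0 ∈ edg V)
    {x : Ed 3} (hx : x ∈ e0) (hu : ∀ e ∈ E, x ∈ e → e = e0) {F G : Finset (Ed 3)} (hF : Fct V F) (hG : Fct V G)
    (h1 : e0 ⊆ F) (h2 : e0 ⊆ G) : Relation.EqvGen (rE V E) F G := by
  by_contra hno
  have hX := cls_cls (V := V) (E := E) (F := F)
  obtain ⟨a, b, hab, ha, hb, hin, hall⟩ := edge_two hV he0
  have hFG : F ≠ G := by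
    rintro rfl
    exact hno (Relation.EqvGen.refl _)
  have hFX : F ∈ (fcs V).filter fun G => Relation.EqvGen (rE V E) F G :=
    Finset.mem_filter.2 ⟨mem_fcs.2 hF, Relation.EqvGen.refl _⟩
  have huni : ∀ H ∈ (fcs V).filter fun G => Relation.EqvGen (rE V E) F G, e0 ⊆ H → H = F := by
    intro H hH heH
    rw [Finset.mem_filter] at hH
    have hH1 := hall H (mem_fcs.1 hH.1) heH
    have hF1 := hall F hF h1
    have hG1 := hall G hG h2
    by_contra hHF
    have hHG : H = G := by
      rcases hH1 with h3 | h3 <;> rcases hF1 with h4 | h4 <;> rcases hG1 with h5 | h5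
      · exact h3.trans h5.symm
      · exact absurd (h3.trans h4.symm) hHF
      · exact h3.trans h5.symm
      · exact absurd (h4.trans h5.symm) hFG
      · exact absurd (h4.trans h5.symm) hFG
      · exact h3.trans h5.symm
      · exact absurd (h3.trans h4.symm) hHF
      · exact h3.trans h5.symm
    rw [hHG] at hH
    exact hno hH.2
  have hbd : e0 ∈ bdy V ((fcs V).filter fun G => Relation.EqvGen (rE V E) F G) := by
    unfold bdy
    refine Finset.mem_filter.2 ⟨he0, ?_⟩
    rw [Finset.card_eq_one]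
    refine ⟨F, ?_⟩
    ext H
    rw [Finset.mem_filter, Finset.mem_singleton]
    constructor
    · rintro ⟨h3, h4⟩
      exact huni H h3 h4
    · rintro rfl
      exact ⟨hFX, h1⟩
  have heven := bdy_even hV hX.sub x
  have hone : ((bdy V ((fcs V).filter fun G => Relation.EqvGen (rE V E) F G)).filter fun e => x ∈ e) = {e0} := by
    ext e
    rw [Finset.mem_filter, Finset.mem_singleton]
    constructor
    · rintro ⟨h3, h4⟩
      exact hu e (bdy_sub hV hX h3) h4
    · rintro rfl
      exact ⟨hbd, hx⟩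
  rw [hone, Finset.card_singleton] at heven
  exact absurd heven (by decide)

/-- N2: deleting an edge -/
theorem del_one {V : Finset (Ed 3)} (hV : Gen V) {E : Finset (Finset (Ed 3))} {e0 : Finset (Ed 3)} (he0 : e0 ∈ edg V) :
    ncl (fcs V) (rE V E) ≤ ncl (fcs V) (rE V (E.erase e0)) + 1 := by
  obtain ⟨a, b, hab, ha, hb, hin, hall⟩ := edge_two hV he0
  have h1 : ncl (fcs V) (rE V E) ≤
      ncl (fcs V) (fun F G => rE V E F G ∨ (F = a ∧ G = b) ∨ (F = b ∧ G = a)) + 1 :=
    ncl_add (fcs V) (rE V E) (fun F G => rE V E F G ∨ (F = a ∧ G = b) ∨ (F = b ∧ G = a)) a b fun _ _ h => h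
  have h2 : ncl (fcs V) (fun F G => rE V E F G ∨ (F = a ∧ G = b) ∨ (F = b ∧ G = a)) ≤
      ncl (fcs V) (rE V (E.erase e0)) := by
    refine ncl_mono (fcs V) (fun F G => rE V E F G ∨ (F = a ∧ G = b) ∨ (F = b ∧ G = a)) (rE V (E.erase e0)) ?_
    rintro F G ⟨hF, hG, e, he, heE, heF, heG⟩
    by_cases hE : e ∈ E
    · have hee : e = e0 := by
        by_contra hne
        exact heE (Finset.mem_erase.2 ⟨hne, hE⟩)
      subst hee
      rcases hall F hF heF with h3 | h3 <;> rcases hall G hG heG with h4 | h4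
      · rw [h3, h4]
        exact Relation.EqvGen.refl _
      · exact Relation.EqvGen.rel _ _ (Or.inr (Or.inl ⟨h3, h4⟩))
      · exact Relation.EqvGen.rel _ _ (Or.inr (Or.inr ⟨h3, h4⟩))
      · rw [h3, h4]
        exact Relation.EqvGen.refl _
    · exact Relation.EqvGen.rel _ _ (Or.inl ⟨hF, hG, e, he, hE, heF, heG⟩)
  omega

/-- N2: deleting a pendant edge -/
theorem del_pend {V : Finset (Ed 3)} (hV : Gen V) {E : Finset (Finset (Ed 3))} {e0 : Finset (Ed 3)} (he0 : e0 ∈ edg V)
    {x : Ed 3} (hx : x ∈ e0) (hu : ∀ e ∈ E, x ∈ e → e = e0) :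
    ncl (fcs V) (rE V E) ≤ ncl (fcs V) (rE V (E.erase e0)) := by
  refine ncl_mono (fcs V) (rE V E) (rE V (E.erase e0)) ?_
  rintro F G ⟨hF, hG, e, he, heE, heF, heG⟩
  by_cases hE : e ∈ E
  · have hee : e = e0 := by
      by_contra hne
      exact heE (Finset.mem_erase.2 ⟨hne, hE⟩)
    subst hee
    exact pendant hV he0 hx hu hF hG heF heG
  · exact Relation.EqvGen.rel _ _ ⟨hF, hG, e, he, hE, heF, heG⟩

end Pool.Agent.LibGP88
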