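import Mathlib
import Pool.Agent.LibGP88.Defs
import Pool.Agent.LibGP88.D2
import Pool.Agent.LibGP88.N2
import Pool.Agent.LibGP88.E4
import Pool.Agent.LibPol19.G17
import Pool.Agent.LibPol19.G03

/-! Row N3. Board GP88. e(U) + 2 ≤ |U| + number of regions.
(1) all_reg: EU V V = edg V (edges are ⊆ V, mem_edg); rE V (edg V) is empty, so the classes are singletons and ncl = (fcs V).card (the map a ↦ S.filter (EqvGen r a ·) = {a} is injective; EqvGen of an empty relation is equality). With euler.
(2) del_vertex: let E' := EU V (insert v U), D := E'.filter (v ∈ ·) (nonempty: the edge {v, u}), EU V U = E' \ D (an edge ⊆ insert v U not containing v is ⊆ U). Remove the edges of D one after the other: for D' ⊆ D with D' ≠ D: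
ncl (E') ≤ ncl (E' \ D') + D'.card (induction on D', del_one: (E' \ D').erase e = E' \ insert e D'), and for D' = D.erase e0 the edge e0 is the only edge of E' \ D' containing v: del_pend: ncl (E' \ D') ≤ ncl (E' \ D).
So ncl (E') ≤ ncl (EU V U) + (D.card - 1). Cards: E'.card = (EU V U).card + D.card, (insert v U).card = U.card + 1.
(3) regions: by strong induction on (V \ U).card: if U = V: all_reg. Otherwise there is v ∈ V \ U adjacent to some u ∈ U: conn_face (LibPol19.G17) for the face V (face_self G03) gives a chain from a point of U to a point outside; a first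
step leaving U. Apply the induction hypothesis to insert v U and del_vertex. -/

set_option autoImplicit false

namespace Pool.Agent.LibGP88

open Finset Pool.Agent.LibPol19 Pool.Agent.LibTet88
open scoped Classical

private theorem n3_eqv_false {α : Type} {r : α → α → Prop} (hr : ∀ x y, ¬ r x y) {a b : α} (h : Relation.EqvGen r a b) :
    a = b := by
  induction h with
  | rel x y h => exact absurd h (hr x y)
  | refl x => rfl
  | symm x y _ ih => exact ih.symm
  | trans x y z _ _ ih1 ih2 => exact ih1.trans ih2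

private theorem n3_ncl_false {α : Type} (S : Finset α) {r : α → α → Prop} (hr : ∀ x y, ¬ r x y) : ncl S r = S.card := by
  unfold ncl
  apply Finset.card_image_of_injOn
  intro a ha b hb hab
  have hb' : b ∈ S := hb
  have h1 : b ∈ S.filter fun c => Relation.EqvGen r b c := by
    rw [Finset.mem_filter]
    exact ⟨hb', Relation.EqvGen.refl b⟩
  have h2 : b ∈ S.filter fun c => Relation.EqvGen r a c := by
    have hab' : (S.filter fun c => Relation.EqvGen r a c) = S.filter fun c => Relation.EqvGen r b c := hab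
    rw [hab']
    exact h1
  rw [Finset.mem_filter] at h2
  exact n3_eqv_false hr h2.2

private theorem n3_mem_EU {V U : Finset (Ed 3)} {e : Finset (Ed 3)} : e ∈ EU V U ↔ e ∈ edg V ∧ e ⊆ U := by
  unfold EU
  rw [Finset.mem_filter]

private theorem n3_step {V : Finset (Ed 3)} (hV : Gen V) {E D' : Finset (Finset (Ed 3))} (hD : ∀ e ∈ D', e ∈ edg V) :
    ncl (fcs V) (rE V E) ≤ ncl (fcs V) (rE V (E \ D')) + D'.card := by
  induction D' using Finset.induction_on with
  | empty => simp
  | insert e D' he ih =>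
    have h1 := ih fun e' he' => hD e' (Finset.mem_insert_of_mem he')
    have h2 := del_one hV (E := E \ D') (hD e (Finset.mem_insert_self _ _))
    rw [Finset.card_insert_of_notMem he, Finset.sdiff_insert]
    omega

private theorem n3_leave {r : Ed 3 → Ed 3 → Prop} {U : Finset (Ed 3)} {x y : Ed 3} (h : Relation.ReflTransGen r x y)
    (hx : x ∈ U) (hy : y ∉ U) : ∃ u w, u ∈ U ∧ w ∉ U ∧ r u w := by
  induction h with
  | refl => exact absurd hx hy
  | @tail b c hab hbc ih =>
    by_cases hb : b ∈ U
    · exact ⟨b, c, hb, hy, hbc⟩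
    · exact ih hb

/-- N3: all edges -/
theorem all_reg {V : Finset (Ed 3)} (hV : Gen V) : (EU V V).card + 2 ≤ V.card + ncl (fcs V) (rE V (EU V V)) := by
  have h1 : EU V V = edg V := by
    ext e
    rw [n3_mem_EU]
    exact ⟨fun h => h.1, fun h => ⟨h, (mem_edg.1 h).1⟩⟩
  have h2 : ncl (fcs V) (rE V (edg V)) = (fcs V).card := by
    apply n3_ncl_false
    rintro F G ⟨-, -, e, he, hne, -⟩
    exact hne he
  rw [h1, h2]
  exact euler hV

/-- N3: deleting a vertex -/
theorem del_vertex {V : Finset (Ed 3)} (hV : Gen V) {U : Finset (Ed 3)} {v : Ed 3} (hv : v ∉ U) (hadj : ∃ u ∈ U, Adj V v u)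
    (h : (EU V (insert v U)).card + 2 ≤ (insert v U).card + ncl (fcs V) (rE V (EU V (insert v U)))) :
    (EU V U).card + 2 ≤ U.card + ncl (fcs V) (rE V (EU V U)) := by
  obtain ⟨u, hu, huv⟩ := hadj
  obtain ⟨E', hE'⟩ : ∃ E', E' = EU V (insert v U) := ⟨_, rfl⟩
  obtain ⟨D, hD⟩ : ∃ D, D = E'.filter fun e => v ∈ e := ⟨_, rfl⟩
  rw [← hE'] at h
  have hmemE : ∀ e, e ∈ E' ↔ e ∈ edg V ∧ e ⊆ insert v U := by
    intro e
    rw [hE']
    exact n3_mem_EU
  have hmemD : ∀ e, e ∈ D ↔ e ∈ E' ∧ v ∈ e := by
    intro e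
    rw [hD, Finset.mem_filter]
  have hDE : D ⊆ E' := fun e he => ((hmemD e).1 he).1
  have hDedg : ∀ e ∈ D, e ∈ edg V := fun e he => ((hmemE e).1 (hDE he)).1
  have he0E : ({v, u} : Finset (Ed 3)) ∈ E' := by
    rw [hmemE]
    refine ⟨pair_mem_edg.2 huv, ?_⟩
    intro z hz
    rw [Finset.mem_insert, Finset.mem_singleton] at hz
    rcases hz with rfl | rfl
    · exact Finset.mem_insert_self _ _
    · exact Finset.mem_insert_of_mem hu
  have he0D : ({v, u} : Finset (Ed 3)) ∈ D := (hmemD _).2 ⟨he0E, Finset.mem_insert_self _ _⟩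
  have hUE : EU V U = E' \ D := by
    ext e
    rw [n3_mem_EU, Finset.mem_sdiff, hmemD, hmemE]
    constructor
    · rintro ⟨h1, h2⟩
      exact ⟨⟨h1, h2.trans (Finset.subset_insert _ _)⟩, fun h3 => hv (h2 h3.2)⟩
    · rintro ⟨⟨h1, h2⟩, h3⟩
      refine ⟨h1, fun z hz => ?_⟩
      rcases Finset.mem_insert.1 (h2 hz) with rfl | h4
      · exact absurd ⟨⟨h1, h2⟩, hz⟩ h3
      · exact h4
  have h1 : ncl (fcs V) (rE V E') ≤ ncl (fcs V) (rE V (E' \ D.erase {v, u})) + (D.erase {v, u}).card :=
    n3_step hV fun e he => hDedg e (Finset.mem_of_mem_erase he)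
  have h2 : ncl (fcs V) (rE V (E' \ D.erase {v, u})) ≤ ncl (fcs V) (rE V ((E' \ D.erase {v, u}).erase {v, u})) := by
    apply del_pend hV (hDedg _ he0D) (x := v) (Finset.mem_insert_self _ _)
    intro e he hve
    rw [Finset.mem_sdiff] at he
    by_contra hne
    exact he.2 (Finset.mem_erase.2 ⟨hne, (hmemD e).2 ⟨he.1, hve⟩⟩)
  have h3 : (E' \ D.erase {v, u}).erase {v, u} = E' \ D := by
    rw [← Finset.sdiff_insert, Finset.insert_erase he0D]
  rw [h3, ← hUE] at h2
  have h4 : (D.erase {v, u}).card + 1 = D.card := Finset.card_erase_add_one he0D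
  have h5 : (E' \ D).card + D.card = E'.card := Finset.card_sdiff_add_card_eq_card hDE
  rw [← hUE] at h5
  rw [Finset.card_insert_of_notMem hv] at h
  omega

/-- N3: the inequality for the number of regions -/
theorem regions {V : Finset (Ed 3)} (hV : Gen V) {U : Finset (Ed 3)} (hU : U ⊆ V) (hne : U.Nonempty) :
    (EU V U).card + 2 ≤ U.card + ncl (fcs V) (rE V (EU V U)) := by
  induction hn : (V \ U).card using Nat.strong_induction_on generalizing U with
  | _ n ih =>
    by_cases hUV : U = V
    · rw [hUV]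
      exact all_reg hV
    · have hex : ∃ y ∈ V, y ∉ U := by
        by_contra hcon
        push Not at hcon
        exact hUV (Finset.Subset.antisymm hU hcon)
      obtain ⟨y, hyV, hyU⟩ := hex
      obtain ⟨x, hx⟩ := hne
      have hVne : V.Nonempty := ⟨y, hyV⟩
      obtain ⟨u, w, huU, hwU, hadj, hwV⟩ := n3_leave (conn_face hV.vert (face_self hVne) (hU hx) hyV) hx hyU
      apply del_vertex hV hwU ⟨u, huU, adj_symm hadj⟩
      apply ih (V \ insert w U).card _ _ ⟨u, Finset.mem_insert_of_mem huU⟩ rfl
      · rw [← hn]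
        apply Finset.card_lt_card
        refine ⟨Finset.sdiff_subset_sdiff (Finset.Subset.refl _) (Finset.subset_insert _ _), fun hsub => ?_⟩
        have h1 : w ∈ V \ insert w U := hsub (Finset.mem_sdiff.2 ⟨hwV, hwU⟩)
        exact (Finset.mem_sdiff.1 h1).2 (Finset.mem_insert_self _ _)
      · intro z hz
        rcases Finset.mem_insert.1 hz with rfl | h1
        · exact hwV
        · exact hU h1

end Pool.Agent.LibGP88
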