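import Mathlib
import Pool.Agent.LibGP88.Defs
import Pool.Agent.LibGP88.D4
import Pool.Agent.LibGP88.N1

/-! Row N4. Board GP88. The boundary of a set of facets in a polytope with triangle-free graph.
(1) bdy_empty: X is closed under Nx V: F ∈ X, e ⊆ F, e ⊆ G: e is in at least one member of X (F), at most two (le_two), not exactly one (e ∉ bdy V X = ∅), so in exactly two; only two facets contain e (edge_two), so both are in X, G is
one of them. fct_conn (D4): every facet is in X (Relation.ReflTransGen induction). (2) four_bdy: a nonempty even graph (bdy_even) without triangles has at least four edges: e = {x, y} ∈ bdy V X; the number of boundary edges at x is even and ≥ 1, so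
≥ 2: {x, x'} ∈ bdy, x' ≠ y; likewise {y, y'} ∈ bdy, y' ≠ x. x' ≠ y' (TF: x, y, x' would be pairwise adjacent). At x' there is another boundary edge {x', z}, z ≠ x. The four edges {x, y}, {x, x'}, {y, y'}, {x', z} are different: z ≠ y by TF
(x, y, x'), so {x', z} ≠ {x, y} (x' ∉ {x, y}), ≠ {x, x'} (z ≠ x), ≠ {y, y'} (x' ∉ {y, y'}). Card of a set of four different elements of bdy V X. (Members of bdy V X are edges: pair_mem_edg gives Adj.)
(3) fct_edges: the edges of a facet F: double counting with at_two: ∑ x ∈ F, 2 = 2 * number of edges contained in F. (4) fct_four: F.card ≥ 3 (fct_poly, LibGP88.Q3); if F.card = 3 then by fct_edges F has three edges, i.e. all three pairs are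
adjacent (two_at: each vertex is adjacent to the two others): TF is violated. -/

set_option autoImplicit false

namespace Pool.Agent.LibGP88

open Finset Pool.Agent.LibPol19 Pool.Agent.LibTet88
open scoped Classical

/-- N4: a nonempty set of facets without boundary is everything -/
theorem bdy_empty {V : Finset (Ed 3)} (hV : Gen V) {X : Finset (Finset (Ed 3))} (hX : ∀ F ∈ X, Fct V F) (hne : X.Nonempty)
    (h : bdy V X = ∅) : X = fcs V := by
  have hstep : ∀ F G, F ∈ X → Nx V F G → G ∈ X := by
    rintro F G hF ⟨hF', hG, e, he, heF, heG⟩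
    obtain ⟨A, B, hAB, hA, hB, hAB', hall⟩ := edge_two hV he
    have h1 : (X.filter fun F => e ⊆ F).card ≠ 1 := by
      intro hc
      have h2 : e ∈ bdy V X := by
        unfold bdy
        exact Finset.mem_filter.2 ⟨he, hc⟩
      rw [h] at h2
      exact absurd h2 (Finset.notMem_empty e)
    have h2 : F ∈ X.filter fun F => e ⊆ F := Finset.mem_filter.2 ⟨hF, heF⟩
    have h3 : 1 < (X.filter fun F => e ⊆ F).card := by
      have h4 := Finset.card_pos.2 ⟨F, h2⟩
      omega
    obtain ⟨H, hH, hHF⟩ := Finset.exists_mem_ne h3 F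
    rw [Finset.mem_filter] at hH
    by_cases hGF : G = F
    · rw [hGF]
      exact hF
    · have hGH : G = H := by
        rcases hall F hF' heF with h4 | h4 <;> rcases hall G hG heG with h5 | h5 <;>
          rcases hall H (hX H hH.1) hH.2 with h6 | h6 <;>
          first
            | exact absurd (h5.trans h4.symm) hGF
            | exact absurd (h6.trans h4.symm) hHF
            | exact h5.trans h6.symm
      rw [hGH]
      exact hH.1
  refine Finset.Subset.antisymm (fun F hF => mem_fcs.2 (hX F hF)) ?_
  intro G hG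
  obtain ⟨F, hF⟩ := hne
  have hc := fct_conn hV (hX F hF) (mem_fcs.1 hG)
  induction hc with
  | refl => exact hF
  | tail h1 h2 ih => exact hstep _ _ (ih (mem_fcs.2 h2.1)) h2

private theorem bdy_card {V : Finset (Ed 3)} {X : Finset (Finset (Ed 3))} {e : Finset (Ed 3)} (he : e ∈ bdy V X) :
    e.card = 2 := by
  unfold bdy at he
  rw [Finset.mem_filter] at he
  exact (mem_edg.1 he.1).2.1

private theorem bdy_adj {V : Finset (Ed 3)} {X : Finset (Finset (Ed 3))} {x y : Ed 3}
    (he : ({x, y} : Finset (Ed 3)) ∈ bdy V X) : Adj V x y := by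
  unfold bdy at he
  rw [Finset.mem_filter] at he
  exact pair_mem_edg.1 he.1

private theorem nxt {V : Finset (Ed 3)} (hV : Gen V) {X : Finset (Finset (Ed 3))} (hX : ∀ F ∈ X, Fct V F) {x y : Ed 3}
    (h : ({x, y} : Finset (Ed 3)) ∈ bdy V X) : ∃ z, z ≠ y ∧ z ≠ x ∧ ({x, z} : Finset (Ed 3)) ∈ bdy V X := by
  have h1 := bdy_even hV hX x
  have h2 : ({x, y} : Finset (Ed 3)) ∈ (bdy V X).filter fun e => x ∈ e :=
    Finset.mem_filter.2 ⟨h, Finset.mem_insert_self _ _⟩
  have h3 : 1 < ((bdy V X).filter fun e => x ∈ e).card := by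
    have h4 := Finset.card_pos.2 ⟨_, h2⟩
    obtain ⟨m, hm⟩ := h1
    omega
  obtain ⟨e, he, hne⟩ := Finset.exists_mem_ne h3 {x, y}
  rw [Finset.mem_filter] at he
  obtain ⟨a, b, hab, rfl⟩ := Finset.card_eq_two.1 (bdy_card he.1)
  have hx := he.2
  rw [Finset.mem_insert, Finset.mem_singleton] at hx
  rcases hx with rfl | rfl
  · refine ⟨b, ?_, hab.symm, he.1⟩
    rintro rfl
    exact hne rfl
  · refine ⟨a, ?_, hab, ?_⟩
    · rintro rfl
      exact hne (Finset.pair_comm _ _)
    · rw [Finset.pair_comm]
      exact he.1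

/-- N4: a nonempty boundary has at least four edges -/
theorem four_bdy {V : Finset (Ed 3)} (hV : Gen V) (hT : TF V) {X : Finset (Finset (Ed 3))} (hX : ∀ F ∈ X, Fct V F)
    (h : (bdy V X).Nonempty) : 4 ≤ (bdy V X).card := by
  obtain ⟨e, he⟩ := h
  obtain ⟨x, y, hxy, rfl⟩ := Finset.card_eq_two.1 (bdy_card he)
  obtain ⟨x', h1, h2, h3⟩ := nxt hV hX he
  have he' : ({y, x} : Finset (Ed 3)) ∈ bdy V X := by
    rw [Finset.pair_comm]
    exact he
  obtain ⟨y', h4, h5, h6⟩ := nxt hV hX he'
  have h3' : ({x', x} : Finset (Ed 3)) ∈ bdy V X := by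
    rw [Finset.pair_comm]
    exact h3
  obtain ⟨z, h7, h8, h9⟩ := nxt hV hX h3'
  have a1 : Adj V x y := bdy_adj he
  have a2 : Adj V x x' := bdy_adj h3
  have a3 : Adj V y y' := bdy_adj h6
  have a4 : Adj V x' z := bdy_adj h9
  have n1 : x' ≠ y' := by
    rintro rfl
    exact hT x y x' a1 a3 a2
  have n2 : z ≠ y := by
    rintro rfl
    exact hT x z x' a1 (adj_symm a4) a2
  have d1 : ({x, y} : Finset (Ed 3)) ≠ {x, x'} := by
    intro hc
    have h : y ∈ ({x, x'} : Finset (Ed 3)) := by
      rw [← hc]
      simp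
    simp only [Finset.mem_insert, Finset.mem_singleton] at h
    rcases h with h | h
    · exact hxy h.symm
    · exact h1 h.symm
  have d2 : ({x, y} : Finset (Ed 3)) ≠ {y, y'} := by
    intro hc
    have h : x ∈ ({y, y'} : Finset (Ed 3)) := by
      rw [← hc]
      simp
    simp only [Finset.mem_insert, Finset.mem_singleton] at h
    rcases h with h | h
    · exact hxy h
    · exact h4 h.symm
  have d3 : ({x, y} : Finset (Ed 3)) ≠ {x', z} := by
    intro hc
    have h : x' ∈ ({x, y} : Finset (Ed 3)) := by
      rw [hc]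
      simp
    simp only [Finset.mem_insert, Finset.mem_singleton] at h
    rcases h with h | h
    · exact h2 h
    · exact h1 h
  have d4 : ({x, x'} : Finset (Ed 3)) ≠ {y, y'} := by
    intro hc
    have h : x ∈ ({y, y'} : Finset (Ed 3)) := by
      rw [← hc]
      simp
    simp only [Finset.mem_insert, Finset.mem_singleton] at h
    rcases h with h | h
    · exact hxy h
    · exact h4 h.symm
  have d5 : ({x, x'} : Finset (Ed 3)) ≠ {x', z} := by
    intro hc
    have h : x ∈ ({x', z} : Finset (Ed 3)) := by
      rw [← hc]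
      simp
    simp only [Finset.mem_insert, Finset.mem_singleton] at h
    rcases h with h | h
    · exact h2 h.symm
    · exact h7 h.symm
  have d6 : ({y, y'} : Finset (Ed 3)) ≠ {x', z} := by
    intro hc
    have h : x' ∈ ({y, y'} : Finset (Ed 3)) := by
      rw [hc]
      simp
    simp only [Finset.mem_insert, Finset.mem_singleton] at h
    rcases h with h | h
    · exact h1 h
    · exact n1 h
  have hsub : ({{x, y}, {x, x'}, {y, y'}, {x', z}} : Finset (Finset (Ed 3))) ⊆ bdy V X := by
    intro e he1
    simp only [Finset.mem_insert, Finset.mem_singleton] at he1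
    rcases he1 with rfl | rfl | rfl | rfl
    · exact he
    · exact h3
    · exact h6
    · exact h9
  have hcard : ({{x, y}, {x, x'}, {y, y'}, {x', z}} : Finset (Finset (Ed 3))).card = 4 := by
    rw [Finset.card_insert_of_notMem, Finset.card_insert_of_notMem, Finset.card_insert_of_notMem,
      Finset.card_singleton]
    · rw [Finset.mem_singleton]
      exact d6
    · rw [Finset.mem_insert, Finset.mem_singleton, not_or]
      exact ⟨d4, d5⟩
    · rw [Finset.mem_insert, Finset.mem_insert, Finset.mem_singleton, not_or, not_or]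
      exact ⟨d1, d2, d3⟩
  rw [← hcard]
  exact Finset.card_le_card hsub

/-- N4: a facet has as many edges as vertices -/
theorem fct_edges {V : Finset (Ed 3)} (hV : Gen V) {F : Finset (Ed 3)} (hF : Fct V F) :
    ((edg V).filter fun e => e ⊆ F).card = F.card := by
  have h1 : ∑ x ∈ F, ((edg V).filter fun e => x ∈ e ∧ e ⊆ F).card = 2 * F.card := by
    rw [Finset.sum_congr rfl fun x hx => at_two hV hF hx, Finset.sum_const, smul_eq_mul, mul_comm]
  have h2 : ∑ x ∈ F, ((edg V).filter fun e => x ∈ e ∧ e ⊆ F).card =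
      ∑ x ∈ F, (Finset.bipartiteAbove (fun (x : Ed 3) (e : Finset (Ed 3)) => x ∈ e)
        ((edg V).filter fun e => e ⊆ F) x).card := by
    refine Finset.sum_congr rfl fun x _ => ?_
    congr 1
    ext e
    rw [Finset.mem_bipartiteAbove, Finset.mem_filter, Finset.mem_filter]
    tauto
  have h3 : ∀ e ∈ (edg V).filter fun e => e ⊆ F,
      (Finset.bipartiteBelow (fun (x : Ed 3) (e : Finset (Ed 3)) => x ∈ e) F e).card = 2 := by
    intro e he
    rw [Finset.mem_filter] at he
    have h4 : Finset.bipartiteBelow (fun (x : Ed 3) (e : Finset (Ed 3)) => x ∈ e) F e = e := by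
      ext x
      rw [Finset.mem_bipartiteBelow]
      exact ⟨fun h => h.2, fun h => ⟨he.2 h, h⟩⟩
    rw [h4]
    exact (mem_edg.1 he.1).2.1
  rw [h2, Finset.sum_card_bipartiteAbove_eq_sum_card_bipartiteBelow, Finset.sum_congr rfl h3, Finset.sum_const,
    smul_eq_mul] at h1
  omega

/-- N4: facets have at least four vertices -/
theorem fct_four {V : Finset (Ed 3)} (hV : Gen V) (hT : TF V) {F : Finset (Ed 3)} (hF : Fct V F) : 4 ≤ F.card := by
  have h3 := (fct_poly hV hF).2.1
  by_contra hlt
  have hc : F.card = 3 := by omega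
  have h1 := fct_edges hV hF
  have h2 : ((edg V).filter fun e => e ⊆ F) ⊆ F.powersetCard 2 := by
    intro e he
    rw [Finset.mem_filter] at he
    exact Finset.mem_powersetCard.2 ⟨he.2, (mem_edg.1 he.1).2.1⟩
  have h4 : ((edg V).filter fun e => e ⊆ F) = F.powersetCard 2 := by
    refine Finset.eq_of_subset_of_card_le h2 ?_
    rw [h1, Finset.card_powersetCard, hc]
    decide
  have h5 : ∀ x y, x ∈ F → y ∈ F → x ≠ y → Adj V x y := by
    intro x y hx hy hxy
    have h6 : ({x, y} : Finset (Ed 3)) ∈ F.powersetCard 2 := by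
      rw [Finset.mem_powersetCard]
      refine ⟨?_, Finset.card_pair hxy⟩
      intro z hz
      rw [Finset.mem_insert, Finset.mem_singleton] at hz
      rcases hz with rfl | rfl
      · exact hx
      · exact hy
    rw [← h4, Finset.mem_filter] at h6
    exact pair_mem_edg.1 h6.1
  obtain ⟨x, y, z, hxy, hxz, hyz, rfl⟩ := Finset.card_eq_three.1 hc
  exact hT x y z (h5 x y (by simp) (by simp) hxy) (h5 y z (by simp) (by simp) hyz) (h5 x z (by simp) (by simp) hxz)

end Pool.Agent.LibGP88
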