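import Mathlib
import Pool.Agent.LibGP88.Defs
import Pool.Agent.LibGP88.N2
import Pool.Agent.LibGP88.N3
import Pool.Agent.LibGP88.N4

/-! Row N5. Board GP88. The planarity inequality.
E := EU V U. cl F := (fcs V).filter (EqvGen (rE V E) F ·), C := (fcs V).image cl, C.card = ncl (fcs V) (rE V E) (definition). Every X ∈ C satisfies Cls V E X (cls_cls), X ≠ ∅ (F ∈ cl F), the X ∈ C are pairwise disjoint with union fcs V.
wt X := ∑ F ∈ X, (E.filter (· ⊆ F)).card. ∑ X ∈ C, wt X = ∑ F ∈ fcs V, (E.filter (· ⊆ F)).card = 2 * E.card (every edge is in exactly two facets, edge_two).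
wt X ≥ (bdy V X).card: bdy V X ⊆ E (bdy_sub) and every e ∈ bdy V X is contained in a member of X (double counting: wt X = ∑ e ∈ E, (X.filter (e ⊆ ·)).card).
(a) A facet F ⊆ U: all edges of F are in E, so no rE pair starts or ends at F: cl F = {F} (EqvGen of a relation not involving F: show EqvGen (rE V E) F G → G = F, by induction on EqvGen for the statement (F = x ↔ F = y));
wt (cl F) = F.card (fct_edges, an edge ⊆ F is ⊆ U).
(b) Case 1: some X ∈ C has bdy V X = ∅: X = fcs V (bdy_empty), so C = {fcs V} (classes are disjoint or equal), C.card = 1; no facet F is ⊆ U (cl F = {F} = fcs V, but there are at least two facets by edge_two; an edge exists: three_nb). So the sum over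
facets ⊆ U is 0 and regions gives E.card + 2 ≤ U.card + 1: 2 E.card + 8 ≤ 2 U.card + 6 ≤ 4 U.card. (c) Case 2: all bdy V X are nonempty: wt X ≥ 4 (four_bdy). For the classes {F}, F ⊆ U, wt = F.card = 4 + (F.card - 4) (fct_four).
So 2 E.card = ∑ wt ≥ 4 C.card + ∑_{F ⊆ U} (F.card - 4), and C.card ≥ E.card + 2 - U.card (regions): the claim. -/

set_option autoImplicit false

namespace Pool.Agent.LibGP88

open Finset Pool.Agent.LibPol19 Pool.Agent.LibTet88
open scoped Classical

private lemma n5_two {V : Finset (Ed 3)} (hV : Gen V) {e : Finset (Ed 3)} (he : e ∈ edg V) :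
    ((fcs V).filter fun F => e ⊆ F).card = 2 := by
  obtain ⟨F, F', hne, hF, hF', hi, ho⟩ := edge_two hV he
  have h : ((fcs V).filter fun F => e ⊆ F) = {F, F'} := by
    ext G
    rw [Finset.mem_filter, mem_fcs, Finset.mem_insert, Finset.mem_singleton]
    constructor
    · rintro ⟨h1, h2⟩
      exact ho G h1 h2
    · rintro (rfl | rfl)
      · exact ⟨hF, by rw [← hi]; exact Finset.inter_subset_left⟩
      · exact ⟨hF', by rw [← hi]; exact Finset.inter_subset_right⟩
  rw [h, Finset.card_pair hne]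

private lemma n5_single {V U F : Finset (Ed 3)} (hFU : F ⊆ U) {x y : Finset (Ed 3)}
    (h : Relation.EqvGen (rE V (EU V U)) x y) : x = F ↔ y = F := by
  induction h with
  | rel x y hxy =>
    obtain ⟨-, -, e, he, hn, h1, h2⟩ := hxy
    constructor
    · rintro rfl
      have h3 : e ∈ EU V U := by unfold EU; exact Finset.mem_filter.2 ⟨he, h1.trans hFU⟩
      exact absurd h3 hn
    · rintro rfl
      have h3 : e ∈ EU V U := by unfold EU; exact Finset.mem_filter.2 ⟨he, h2.trans hFU⟩
      exact absurd h3 hn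
  | refl x => exact Iff.rfl
  | symm x y _ ih => exact ih.symm
  | trans x y z _ _ ih1 ih2 => exact ih1.trans ih2

private lemma n5_swap (E X : Finset (Finset (Ed 3))) :
    ∑ F ∈ X, (E.filter fun e => e ⊆ F).card = ∑ e ∈ E, (X.filter fun F => e ⊆ F).card := by
  simp only [Finset.card_filter]
  exact Finset.sum_comm

private lemma n5_bdy {V : Finset (Ed 3)} {E X : Finset (Finset (Ed 3))} (h : bdy V X ⊆ E) :
    (bdy V X).card ≤ ∑ F ∈ X, (E.filter fun e => e ⊆ F).card := by
  rw [n5_swap]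
  calc (bdy V X).card = ∑ e ∈ bdy V X, 1 := by rw [Finset.sum_const, smul_eq_mul, mul_one]
    _ ≤ ∑ e ∈ bdy V X, (X.filter fun F => e ⊆ F).card := by
        refine Finset.sum_le_sum fun e he => ?_
        exact (Finset.mem_filter.1 he).2.ge
    _ ≤ ∑ e ∈ E, (X.filter fun F => e ⊆ F).card :=
        Finset.sum_le_sum_of_subset_of_nonneg h fun _ _ _ => Nat.zero_le _

private lemma n5_edges {V U F : Finset (Ed 3)} (hV : Gen V) (hF : Fct V F) (hFU : F ⊆ U) :
    ((EU V U).filter fun e => e ⊆ F).card = F.card := by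
  rw [← fct_edges hV hF]
  congr 1
  ext e
  simp only [EU, Finset.mem_filter]
  constructor
  · rintro ⟨⟨h1, -⟩, h3⟩
    exact ⟨h1, h3⟩
  · rintro ⟨h1, h3⟩
    exact ⟨⟨h1, h3.trans hFU⟩, h3⟩

private lemma n5_img {α β : Type} (i1 i2 : DecidableEq β) (f : α → β) (S : Finset α) :
    @Finset.image α β i1 f S = @Finset.image α β i2 f S := by
  rw [Subsingleton.elim i1 i2]

/-- N5: planarity of the graph of a polytope without triangles -/
theorem planar {V : Finset (Ed 3)} (hV : Gen V) (hT : TF V) {U : Finset (Ed 3)} (hU : U ⊆ V) (h3 : 3 ≤ U.card) :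
    2 * (EU V U).card + ∑ F ∈ (fcs V).filter (fun F => F ⊆ U), (F.card - 4) + 8 ≤ 4 * U.card := by
  have hne : U.Nonempty := Finset.card_pos.1 (by omega)
  have hreg := regions hV hU hne
  obtain ⟨cl, hcl⟩ : ∃ cl : Finset (Ed 3) → Finset (Finset (Ed 3)),
      cl = fun F => (fcs V).filter fun G => Relation.EqvGen (rE V (EU V U)) F G := ⟨_, rfl⟩
  obtain ⟨C, hC⟩ : ∃ C : Finset (Finset (Finset (Ed 3))), C = (fcs V).image cl := ⟨_, rfl⟩
  have hncl : ncl (fcs V) (rE V (EU V U)) = C.card := by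
    rw [hC, hcl]
    unfold ncl
    exact congrArg Finset.card (n5_img _ _ _ _)
  rw [hncl] at hreg
  have hmem : ∀ F G, G ∈ cl F ↔ G ∈ fcs V ∧ Relation.EqvGen (rE V (EU V U)) F G := fun F G => by
    rw [hcl]; exact Finset.mem_filter
  have hself : ∀ F ∈ fcs V, F ∈ cl F := fun F hF => (hmem F F).2 ⟨hF, Relation.EqvGen.refl F⟩
  have hclo : ∀ X ∈ C, ∀ F ∈ X, F ∈ fcs V ∧ cl F = X := by
    intro X hX F hF
    rw [hC] at hX
    obtain ⟨G, hG, rfl⟩ := Finset.mem_image.1 hX
    obtain ⟨h1, h2⟩ := (hmem G F).1 hF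
    refine ⟨h1, ?_⟩
    ext H
    rw [hmem, hmem]
    exact ⟨fun h => ⟨h.1, h2.trans _ _ _ h.2⟩, fun h => ⟨h.1, (h2.symm _ _).trans _ _ _ h.2⟩⟩
  have hfib : ∀ X ∈ C, ((fcs V).filter fun F => cl F = X) = X := by
    intro X hX
    ext F
    rw [Finset.mem_filter]
    constructor
    · rintro ⟨h1, rfl⟩
      exact hself F h1
    · intro h
      exact hclo X hX F h
  have hsum : ∀ f : Finset (Ed 3) → ℕ, ∑ F ∈ fcs V, f F = ∑ X ∈ C, ∑ F ∈ X, f F := by
    intro f
    rw [← Finset.sum_fiberwise_of_maps_to (s := fcs V) (t := C) (g := cl) (fun F hF => by rw [hC]; exact Finset.mem_image_of_mem _ hF) f]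
    exact Finset.sum_congr rfl fun X hX => by rw [hfib X hX]
  have hXne : ∀ X ∈ C, X.Nonempty := by
    intro X hX
    rw [hC] at hX
    obtain ⟨G, hG, rfl⟩ := Finset.mem_image.1 hX
    exact ⟨G, hself G hG⟩
  have hXcls : ∀ X ∈ C, Cls V (EU V U) X := by
    intro X hX
    rw [hC] at hX
    obtain ⟨G, hG, rfl⟩ := Finset.mem_image.1 hX
    rw [hcl]
    exact cls_cls
  have hsing : ∀ F ∈ fcs V, F ⊆ U → cl F = {F} := by
    intro F hF hFU
    ext G
    rw [hmem, Finset.mem_singleton]
    constructor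
    · rintro ⟨-, h⟩
      exact (n5_single hFU h).1 rfl
    · rintro rfl
      exact ⟨hF, Relation.EqvGen.refl _⟩
  by_cases hcase : ∃ X ∈ C, bdy V X = ∅
  · obtain ⟨X, hX, hb⟩ := hcase
    have hall : X = fcs V := bdy_empty hV (hXcls X hX).sub (hXne X hX) hb
    have hCone : C ⊆ {fcs V} := by
      intro Y hY
      obtain ⟨F, hF⟩ := hXne Y hY
      have h1 := hclo Y hY F hF
      have h2 := (hclo X hX F (by rw [hall]; exact h1.1)).2
      rw [Finset.mem_singleton, ← h1.2, h2, hall]
    have hCc : C.card ≤ 1 := by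
      have := Finset.card_le_card hCone
      rwa [Finset.card_singleton] at this
    have hempty : (fcs V).filter (fun F => F ⊆ U) = ∅ := by
      rw [Finset.filter_eq_empty_iff]
      intro F hF hFU
      have h1 : cl F ∈ C := by rw [hC]; exact Finset.mem_image_of_mem _ hF
      have h2 := Finset.mem_singleton.1 (hCone h1)
      rw [hsing F hF hFU] at h2
      obtain ⟨v, hv⟩ := hne
      have h3' := three_nb hV (hU hv)
      obtain ⟨u, hu⟩ : (nb V v).Nonempty := Finset.card_pos.1 (by omega)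
      have hadj : Adj V v u := (Finset.mem_filter.1 hu).2
      obtain ⟨A, B, hAB, hA, hB, -, -⟩ := edge_two hV (pair_mem_edg.2 hadj)
      have hA' : A ∈ fcs V := mem_fcs.2 hA
      have hB' : B ∈ fcs V := mem_fcs.2 hB
      rw [← h2, Finset.mem_singleton] at hA' hB'
      exact hAB (hA'.trans hB'.symm)
    rw [hempty, Finset.sum_empty]
    omega
  · push Not at hcase
    have hwt : ∀ X ∈ C, 4 + ∑ F ∈ X, (if F ⊆ U then F.card - 4 else 0) ≤ ∑ F ∈ X, ((EU V U).filter fun e => e ⊆ F).card := by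
      intro X hX
      by_cases hex : ∃ F ∈ X, F ⊆ U
      · obtain ⟨F, hFX, hFU⟩ := hex
        obtain ⟨h1, h2⟩ := hclo X hX F hFX
        have h4 : X = {F} := by rw [← h2]; exact hsing F h1 hFU
        rw [h4, Finset.sum_singleton, Finset.sum_singleton, if_pos hFU, n5_edges hV (mem_fcs.1 h1) hFU]
        have := fct_four hV hT (mem_fcs.1 h1)
        omega
      · push Not at hex
        have h1 : ∑ F ∈ X, (if F ⊆ U then F.card - 4 else 0) = 0 :=
          Finset.sum_eq_zero fun F hF => if_neg (hex F hF)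
        rw [h1, add_zero]
        have h2 : (bdy V X).Nonempty := hcase X hX
        exact (four_bdy hV hT (hXcls X hX).sub h2).trans (n5_bdy (bdy_sub hV (hXcls X hX)))
    have h1 : ∑ F ∈ fcs V, ((EU V U).filter fun e => e ⊆ F).card = 2 * (EU V U).card := by
      have h5 : ∑ e ∈ EU V U, ((fcs V).filter fun F => e ⊆ F).card = ∑ e ∈ EU V U, 2 :=
        Finset.sum_congr rfl fun e he => n5_two hV (Finset.mem_filter.1 he).1
      rw [n5_swap, h5, Finset.sum_const, smul_eq_mul, mul_comm]
    have h2 : ∑ F ∈ (fcs V).filter (fun F => F ⊆ U), (F.card - 4) = ∑ F ∈ fcs V, (if F ⊆ U then F.card - 4 else 0) :=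
      Finset.sum_filter _ _
    rw [hsum] at h1 h2
    have h4 := Finset.sum_le_sum hwt
    rw [Finset.sum_add_distrib, Finset.sum_const, smul_eq_mul, h1, ← h2] at h4
    omega

end Pool.Agent.LibGP88
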