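import Mathlib
import Pool.Agent.LibGP88.Defs
import Pool.Agent.LibGP88.K2
import Pool.Agent.LibGP88.N5
import Pool.Agent.LibGP88.E1

/-! Row K5. Board GP88. The counting inequality at a vertex w with ∑ F.card ≤ 15.
(1) deg_three: all facets have ≥ 4 vertices (fct_four) so 4 (fat V w).card ≤ 15, (fat V w).card ≤ 3; ≥ 3 by fat_card and three_nb. So (Zw V w).card + 6 = ∑ F.card (zw_card).
(2) star_count: S disjoint from insert w (Zw V w), U := insert w (S ∪ Zw V w), U.card = S.card + (Zw V w).card + 1 ≥ 3. EU V U contains the pairwise disjoint sets EU V S; btw := the edges with one vertex in S and one in Zw; Ze V w (card = |Zw|, ze_card); the chords Ch V w; and the three edges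
{w, u}, u ∈ nb V w (nb V w ⊆ Zw, card = (fat V w).card = 3): so (EU V U).card ≥ e_S + k + |Zw| + c + 3. (Members: w ∉ the first four kinds; EU V S ⊆ S; Ze, Ch ⊆ Zw, Ch = EU V (Zw) \ Ze.) The facets through w are ⊆ U (their other vertices are in Zw), so
∑_{F ⊆ U} (F.card - 4) ≥ ∑_{F ∈ fat V w} (F.card - 4) = ∑ F.card - 12 = |Zw| - 6 (fct_four; write it additively: ∑ (F.card - 4) + 12 = ∑ F.card). planar: 2 (e_S + k + |Zw| + c + 3) + (|Zw| - 6) + 8 ≤ 4 (|S| + |Zw| + 1). -/

set_option autoImplicit false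

namespace Pool.Agent.LibGP88

open Finset Pool.Agent.LibPol19 Pool.Agent.LibTet88
open scoped Classical

/-- the chords of the boundary of the star -/
noncomputable def Ch (V : Finset (Ed 3)) (w : Ed 3) : Finset (Finset (Ed 3)) := EU V (Zw V w) \ Ze V w

/-- the edges between `S` and the boundary of the star -/
noncomputable def btw (V : Finset (Ed 3)) (w : Ed 3) (S : Finset (Ed 3)) : Finset (Finset (Ed 3)) :=
  (edg V).filter fun e => (∃ x ∈ e, x ∈ S) ∧ ∃ x ∈ e, x ∈ Zw V w

theorem deg_three {V : Finset (Ed 3)} (hV : Gen V) (hT : TF V) {w : Ed 3} (hw : w ∈ V) (h15 : ∑ F ∈ fat V w, F.card ≤ 15) :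
    (fat V w).card = 3 ∧ (Zw V w).card ≤ 9 := by
  have h1 : (fat V w).card * 4 ≤ ∑ F ∈ fat V w, F.card :=
    Finset.card_nsmul_le_sum _ _ _ fun F hF => fct_four hV hT (mem_fat.1 hF).1
  have h2 := fat_card hV hw
  have h3 := three_nb hV hw
  have h4 := zw_card hV hw
  have h5 : (fat V w).card = 3 := by omega
  refine ⟨h5, ?_⟩
  omega

private theorem K5_edg {V e : Finset (Ed 3)} (he : e ∈ edg V) : e.card = 2 :=
  (Finset.mem_powersetCard.1 (Finset.mem_filter.1 he).1).2

private theorem K5_mem_EU {V U e : Finset (Ed 3)} : e ∈ EU V U ↔ e ∈ edg V ∧ e ⊆ U := by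
  unfold EU
  rw [Finset.mem_filter]

private theorem K5_mem_btw {V S e : Finset (Ed 3)} {w : Ed 3} :
    e ∈ btw V w S ↔ e ∈ edg V ∧ (∃ x ∈ e, x ∈ S) ∧ ∃ x ∈ e, x ∈ Zw V w := by
  unfold btw
  rw [Finset.mem_filter]

private theorem K5_not_mem {V : Finset (Ed 3)} {w : Ed 3} : w ∉ Zw V w := by
  intro h
  unfold Zw at h
  rw [Finset.mem_filter] at h
  exact h.2.1 rfl

private theorem K5_ch {V : Finset (Ed 3)} {w : Ed 3} :
    (EU V (Zw V w)).card = (Ze V w).card + (Ch V w).card := by
  have h1 : Ze V w ⊆ EU V (Zw V w) := by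
    intro e he
    rw [K5_mem_EU]
    refine ⟨?_, ze_sub he⟩
    unfold Ze at he
    exact (Finset.mem_filter.1 he).1
  have h2 := Finset.card_sdiff_add_card_eq_card h1
  unfold Ch
  omega

private theorem K5_edges {V : Finset (Ed 3)} (hV : Gen V) {w : Ed 3} {S : Finset (Ed 3)}
    (hwS : w ∉ S) (hd : ∀ x ∈ S, x ∉ Zw V w) :
    (EU V S).card + (btw V w S).card + (EU V (Zw V w)).card + (nb V w).card ≤
      (EU V (insert w (S ∪ Zw V w))).card := by
  have hwZ : w ∉ Zw V w := K5_not_mem
  set A5 : Finset (Finset (Ed 3)) := (nb V w).image fun u => {w, u} with hA5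
  have hnbw : ∀ u ∈ nb V w, Adj V w u := fun u hu => (Finset.mem_filter.1 hu).2
  have hc5 : A5.card = (nb V w).card := by
    rw [hA5, Finset.card_image_of_injOn]
    intro u hu v hv huv
    have hu' := hnbw u hu
    have hv' := hnbw v hv
    have h1 : u ∈ ({w, v} : Finset (Ed 3)) := by
      have h2 : ({w, u} : Finset (Ed 3)) = {w, v} := huv
      rw [← h2]
      exact Finset.mem_insert_of_mem (Finset.mem_singleton_self u)
    rw [Finset.mem_insert, Finset.mem_singleton] at h1
    rcases h1 with h1 | h1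
    · exact absurd h1.symm hu'.1
    · exact h1
  have hw5 : ∀ e ∈ A5, w ∈ e ∧ ∃ u ∈ nb V w, e = {w, u} := by
    intro e he
    rw [hA5, Finset.mem_image] at he
    obtain ⟨u, hu, rfl⟩ := he
    exact ⟨Finset.mem_insert_self _ _, u, hu, rfl⟩
  have d12 : Disjoint (EU V S) (btw V w S) := by
    rw [Finset.disjoint_left]
    intro e he he'
    rw [K5_mem_EU] at he
    rw [K5_mem_btw] at he'
    obtain ⟨x, hx, hx'⟩ := he'.2.2
    exact hd x (he.2 hx) hx'
  have d13 : Disjoint (EU V S ∪ btw V w S) (EU V (Zw V w)) := by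
    rw [Finset.disjoint_left]
    intro e he he'
    rw [K5_mem_EU] at he'
    rw [Finset.mem_union, K5_mem_EU, K5_mem_btw] at he
    rcases he with he | he
    · have h2 := K5_edg he.1
      obtain ⟨x, hx⟩ := Finset.card_pos.1 (by omega : 0 < e.card)
      exact hd x (he.2 hx) (he'.2 hx)
    · obtain ⟨x, hx, hx'⟩ := he.2.1
      exact hd x hx' (he'.2 hx)
  have d15 : Disjoint (EU V S ∪ btw V w S ∪ EU V (Zw V w)) A5 := by
    rw [Finset.disjoint_left]
    intro e he he'
    obtain ⟨hwe, u, hu, rfl⟩ := hw5 e he'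
    rw [Finset.mem_union, Finset.mem_union, K5_mem_EU, K5_mem_btw, K5_mem_EU] at he
    rcases he with (he | he) | he
    · exact hwS (he.2 hwe)
    · obtain ⟨x, hx, hx'⟩ := he.2.1
      rw [Finset.mem_insert, Finset.mem_singleton] at hx
      rcases hx with rfl | rfl
      · exact hwS hx'
      · exact hd _ hx' (nb_sub_zw hV hu)
    · exact hwZ (he.2 hwe)
  have hsub : EU V S ∪ btw V w S ∪ EU V (Zw V w) ∪ A5 ⊆ EU V (insert w (S ∪ Zw V w)) := by
    intro e he
    rw [K5_mem_EU]
    rw [Finset.mem_union, Finset.mem_union, Finset.mem_union, K5_mem_EU, K5_mem_btw, K5_mem_EU] at he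
    rcases he with ((he | he) | he) | he
    · exact ⟨he.1, fun x hx => Finset.mem_insert_of_mem (Finset.mem_union_left _ (he.2 hx))⟩
    · refine ⟨he.1, ?_⟩
      obtain ⟨a, ha, haS⟩ := he.2.1
      obtain ⟨b, hb, hbZ⟩ := he.2.2
      have hab : a ≠ b := fun h => hd a haS (h ▸ hbZ)
      have h2 := K5_edg he.1
      have h3 : ({a, b} : Finset (Ed 3)) = e := by
        apply Finset.eq_of_subset_of_card_le
        · intro x hx
          rw [Finset.mem_insert, Finset.mem_singleton] at hx
          rcases hx with rfl | rfl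
          · exact ha
          · exact hb
        · rw [Finset.card_pair hab, h2]
      rw [← h3]
      intro x hx
      rw [Finset.mem_insert, Finset.mem_singleton] at hx
      rcases hx with rfl | rfl
      · exact Finset.mem_insert_of_mem (Finset.mem_union_left _ haS)
      · exact Finset.mem_insert_of_mem (Finset.mem_union_right _ hbZ)
    · exact ⟨he.1, fun x hx => Finset.mem_insert_of_mem (Finset.mem_union_right _ (he.2 hx))⟩
    · obtain ⟨-, u, hu, rfl⟩ := hw5 e he
      refine ⟨pair_mem_edg.2 (hnbw u hu), ?_⟩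
      intro x hx
      rw [Finset.mem_insert, Finset.mem_singleton] at hx
      rcases hx with rfl | rfl
      · exact Finset.mem_insert_self _ _
      · exact Finset.mem_insert_of_mem (Finset.mem_union_right _ (nb_sub_zw hV hu))
  have h := Finset.card_le_card hsub
  rw [Finset.card_union_of_disjoint d15, Finset.card_union_of_disjoint d13,
    Finset.card_union_of_disjoint d12, hc5] at h
  exact h

/-- K5: the counting inequality -/
theorem star_count {V : Finset (Ed 3)} (hV : Gen V) (hT : TF V) {w : Ed 3} (hw : w ∈ V) (h15 : ∑ F ∈ fat V w, F.card ≤ 15)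
    {S : Finset (Ed 3)} (hS : S ⊆ V) (hd : Disjoint S (insert w (Zw V w))) :
    2 * (EU V S).card + 2 * (btw V w S).card + 2 * (Ch V w).card + 4 ≤ 4 * S.card + (Zw V w).card := by
  obtain ⟨h3, -⟩ := deg_three hV hT hw h15
  rw [Finset.disjoint_left] at hd
  have hwS : w ∉ S := fun h => hd h (Finset.mem_insert_self _ _)
  have hdZ : ∀ x ∈ S, x ∉ Zw V w := fun x hx h => hd hx (Finset.mem_insert_of_mem h)
  have hwZ : w ∉ Zw V w := K5_not_mem
  have hdS : Disjoint S (Zw V w) := Finset.disjoint_left.2 hdZ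
  have hcU : (insert w (S ∪ Zw V w)).card = S.card + (Zw V w).card + 1 := by
    rw [Finset.card_insert_of_notMem, Finset.card_union_of_disjoint hdS]
    rw [Finset.mem_union]
    rintro (h | h)
    · exact hwS h
    · exact hwZ h
  have hnb := Finset.card_le_card (nb_sub_zw hV (w := w))
  have hfc := fat_card hV hw
  have hZV : Zw V w ⊆ V := fun x hx => Finset.mem_of_mem_erase (zw_sub hx)
  have hUV : insert w (S ∪ Zw V w) ⊆ V := by
    intro x hx
    rw [Finset.mem_insert, Finset.mem_union] at hx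
    rcases hx with rfl | hx | hx
    · exact hw
    · exact hS hx
    · exact hZV hx
  have hpl := planar hV hT hUV (by omega)
  have hed := K5_edges hV hwS hdZ
  have hch := K5_ch (V := V) (w := w)
  have hze := ze_card hV hw
  have hzw := zw_card hV hw
  have hfs : fat V w ⊆ (fcs V).filter (fun F => F ⊆ insert w (S ∪ Zw V w)) := by
    intro F hF
    rw [Finset.mem_filter, mem_fcs]
    rw [mem_fat] at hF
    refine ⟨hF.1, ?_⟩
    intro x hx
    by_cases hxw : x = w
    · rw [hxw]
      exact Finset.mem_insert_self _ _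
    · refine Finset.mem_insert_of_mem (Finset.mem_union_right _ ?_)
      unfold Zw
      rw [Finset.mem_filter]
      exact ⟨hF.1.1.2.1 hx, hxw, F, hF.1, hF.2, hx⟩
  have hsum : ∑ F ∈ fat V w, (F.card - 4) ≤
      ∑ F ∈ (fcs V).filter (fun F => F ⊆ insert w (S ∪ Zw V w)), (F.card - 4) :=
    Finset.sum_le_sum_of_subset hfs
  have hs4 : ∑ F ∈ fat V w, (F.card - 4) + 12 = ∑ F ∈ fat V w, F.card := by
    have h1 : ∑ F ∈ fat V w, F.card = ∑ F ∈ fat V w, ((F.card - 4) + 4) := by
      apply Finset.sum_congr rfl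
      intro F hF
      have := fct_four hV hT (mem_fat.1 hF).1
      omega
    rw [h1, Finset.sum_add_distrib, Finset.sum_const, h3]
    rfl
  omega

end Pool.Agent.LibGP88
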