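import Mathlib
import Pool.Agent.LibGP88.Defs
import Pool.Agent.LibGP88.K5
import Pool.Agent.LibGP88.N5

/-! Row K6. Board GP88. Sets in which all vertices have four neighbours.
(1) bad_sum: for S disjoint from insert w Zw: ∑ v ∈ S, ((S ∪ Zw).filter (Adj V v)).card = 2 (EU V S).card + (btw V w S).card (each edge inside S is counted twice, each edge between S and Zw once; split the neighbours in S ∪ Zw (disjoint)).
(2) bad_one: bad_sum ≥ 4 S.card, so 2 e_S + k ≥ 4 |S|. star_count: 2 e_S + 2 k + 2 c + 4 ≤ 4 |S| + |Zw|, |Zw| ≤ 9 (deg_three): so k + 2 c + 4 ≤ 9. If |S| ≥ 3: planar for U := S: 2 e_S + 8 ≤ 4 |S|, so k ≥ 8: contradiction. If |S| = 2: EU V S has at most one element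
(a subset of S with two elements is S): 2 e_S ≤ 2, k ≥ 6: contradiction. So |S| = 1: EU V S = ∅, k ≥ 4, 2 c ≤ 1: Ch V w = ∅. (3) ch_le: star_count for S = ∅ (EU V ∅ = ∅, btw ∅ = ∅): 2 c + 4 ≤ 9. -/

set_option autoImplicit false

namespace Pool.Agent.LibGP88

open Finset Pool.Agent.LibPol19 Pool.Agent.LibTet88
open scoped Classical

/-- all vertices of `S` have at least four neighbours in `S` and the boundary of the star -/
structure Bad (V : Finset (Ed 3)) (w : Ed 3) (S : Finset (Ed 3)) : Prop where
  sub : S ⊆ V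
  dis : Disjoint S (insert w (Zw V w))
  ne : S.Nonempty
  four : ∀ v ∈ S, 4 ≤ ((S ∪ Zw V w).filter fun u => Adj V v u).card

private theorem mem_edg' {V e : Finset (Ed 3)} : e ∈ edg V ↔ e ⊆ V ∧ e.card = 2 ∧ IsFace V e := by
  unfold edg
  rw [Finset.mem_filter, Finset.mem_powersetCard]
  tauto

private theorem adj_comm' {V : Finset (Ed 3)} {u v : Ed 3} (h : Adj V u v) : Adj V v u := by
  refine ⟨h.1.symm, ?_⟩
  have := h.2
  rwa [Finset.pair_comm] at this

private theorem adj_of_edge {V : Finset (Ed 3)} {u v : Ed 3} (huv : u ≠ v)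
    (h : ({u, v} : Finset (Ed 3)) ∈ edg V) : Adj V u v :=
  ⟨huv, (mem_edg'.1 h).2.2⟩

private theorem edge_of_adj {V : Finset (Ed 3)} {u v : Ed 3} (h : Adj V u v) :
    ({u, v} : Finset (Ed 3)) ∈ edg V :=
  mem_edg'.2 ⟨h.2.2.1, Finset.card_pair h.1, h.2⟩

/-- the neighbours of `v` in `T` correspond to the edges `{v, u}` -/
private theorem nb_card {V T : Finset (Ed 3)} {E : Finset (Finset (Ed 3))} {v : Ed 3}
    (hE : ∀ e, e ∈ E ∧ v ∈ e ↔ ∃ u ∈ T, Adj V v u ∧ e = {v, u}) :
    (T.filter fun u => Adj V v u).card = (E.filter fun e => v ∈ e).card := by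
  refine Finset.card_bij (fun u _ => ({v, u} : Finset (Ed 3))) ?_ ?_ ?_
  · intro u hu
    rw [Finset.mem_filter] at hu
    rw [Finset.mem_filter]
    exact (hE _).2 ⟨u, hu.1, hu.2, rfl⟩
  · intro u hu u' hu' h
    rw [Finset.mem_filter] at hu hu'
    have h1 : u ∈ ({v, u'} : Finset (Ed 3)) := by
      rw [← h]
      simp
    rw [Finset.mem_insert, Finset.mem_singleton] at h1
    rcases h1 with h1 | h1
    · exact absurd h1.symm hu.2.1
    · exact h1
  · intro e he
    rw [Finset.mem_filter] at he
    obtain ⟨u, hu, ha, rfl⟩ := (hE e).1 he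
    exact ⟨u, Finset.mem_filter.2 ⟨hu, ha⟩, rfl⟩

private theorem dbl {S : Finset (Ed 3)} {E : Finset (Finset (Ed 3))} :
    ∑ v ∈ S, (E.filter fun e => v ∈ e).card = ∑ e ∈ E, (S.filter fun v => v ∈ e).card :=
  Finset.sum_card_bipartiteAbove_eq_sum_card_bipartiteBelow (s := S) (t := E) (fun v e => v ∈ e)

theorem bad_sum {V : Finset (Ed 3)} {w : Ed 3} {S : Finset (Ed 3)} (hS : S ⊆ V) (hd : Disjoint S (insert w (Zw V w))) :
    ∑ v ∈ S, ((S ∪ Zw V w).filter fun u => Adj V v u).card = 2 * (EU V S).card + (btw V w S).card := by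
  have hdZ : ∀ x ∈ S, x ∉ Zw V w := fun x hx hz =>
    Finset.disjoint_left.1 hd hx (Finset.mem_insert_of_mem hz)
  have hdis : Disjoint S (Zw V w) := Finset.disjoint_left.2 hdZ
  have hsplit : ∀ v ∈ S, ((S ∪ Zw V w).filter fun u => Adj V v u).card
      = (S.filter fun u => Adj V v u).card + ((Zw V w).filter fun u => Adj V v u).card := by
    intro v _
    rw [Finset.filter_union]
    exact Finset.card_union_of_disjoint (Finset.disjoint_filter_filter hdis)
  rw [Finset.sum_congr rfl hsplit, Finset.sum_add_distrib]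
  congr 1
  · -- edges inside S
    have h1 : ∀ v ∈ S, (S.filter fun u => Adj V v u).card = ((EU V S).filter fun e => v ∈ e).card := by
      intro v hv
      refine nb_card ?_
      intro e
      constructor
      · rintro ⟨he, hve⟩
        unfold EU at he
        rw [Finset.mem_filter] at he
        obtain ⟨a, b, hab, rfl⟩ := Finset.card_eq_two.1 (mem_edg'.1 he.1).2.1
        rw [Finset.mem_insert, Finset.mem_singleton] at hve
        rcases hve with rfl | rfl
        · exact ⟨b, he.2 (by simp), adj_of_edge hab he.1, rfl⟩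
        · refine ⟨a, he.2 (by simp), ?_, Finset.pair_comm _ _⟩
          exact adj_comm' (adj_of_edge hab he.1)
      · rintro ⟨u, hu, ha, rfl⟩
        refine ⟨?_, by simp⟩
        unfold EU
        rw [Finset.mem_filter]
        refine ⟨edge_of_adj ha, ?_⟩
        intro x hx
        rw [Finset.mem_insert, Finset.mem_singleton] at hx
        rcases hx with rfl | rfl
        · exact hv
        · exact hu
    rw [Finset.sum_congr rfl h1, dbl]
    have h2 : ∀ e ∈ EU V S, (S.filter fun v => v ∈ e).card = 2 := by
      intro e he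
      unfold EU at he
      rw [Finset.mem_filter] at he
      have : (S.filter fun v => v ∈ e) = e := by
        ext x
        rw [Finset.mem_filter]
        exact ⟨fun h => h.2, fun h => ⟨he.2 h, h⟩⟩
      rw [this]
      exact (mem_edg'.1 he.1).2.1
    rw [Finset.sum_congr rfl h2, Finset.sum_const, smul_eq_mul, mul_comm]
  · -- edges between S and the boundary
    have h1 : ∀ v ∈ S, ((Zw V w).filter fun u => Adj V v u).card = ((btw V w S).filter fun e => v ∈ e).card := by
      intro v hv
      refine nb_card ?_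
      intro e
      constructor
      · rintro ⟨he, hve⟩
        unfold btw at he
        rw [Finset.mem_filter] at he
        obtain ⟨hed, -, ⟨y, hy, hyZ⟩⟩ := he
        obtain ⟨a, b, hab, rfl⟩ := Finset.card_eq_two.1 (mem_edg'.1 hed).2.1
        have hvy : v ≠ y := by
          rintro rfl
          exact hdZ _ hv hyZ
        rw [Finset.mem_insert, Finset.mem_singleton] at hve hy
        rcases hve with rfl | rfl
        · rcases hy with rfl | rfl
          · exact absurd rfl hvy
          · exact ⟨_, hyZ, adj_of_edge hab hed, rfl⟩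
        · rcases hy with rfl | rfl
          · exact ⟨_, hyZ, adj_comm' (adj_of_edge hab hed), Finset.pair_comm _ _⟩
          · exact absurd rfl hvy
      · rintro ⟨u, hu, ha, rfl⟩
        refine ⟨?_, by simp⟩
        unfold btw
        rw [Finset.mem_filter]
        exact ⟨edge_of_adj ha, ⟨v, by simp, hv⟩, ⟨u, by simp, hu⟩⟩
    rw [Finset.sum_congr rfl h1, dbl]
    have h2 : ∀ e ∈ btw V w S, (S.filter fun v => v ∈ e).card = 1 := by
      intro e he
      unfold btw at he
      rw [Finset.mem_filter] at he
      obtain ⟨hed, ⟨x, hx, hxS⟩, ⟨y, hy, hyZ⟩⟩ := he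
      obtain ⟨a, b, hab, rfl⟩ := Finset.card_eq_two.1 (mem_edg'.1 hed).2.1
      have hxy : x ≠ y := by
        rintro rfl
        exact hdZ _ hxS hyZ
      rw [Finset.card_eq_one]
      refine ⟨x, ?_⟩
      ext z
      rw [Finset.mem_filter, Finset.mem_singleton]
      constructor
      · rintro ⟨hz, hze⟩
        rw [Finset.mem_insert, Finset.mem_singleton] at hze hx hy
        have hzy : z ≠ y := by
          rintro rfl
          exact hdZ _ hz hyZ
        rcases hze with rfl | rfl <;> rcases hx with rfl | rfl <;> rcases hy with rfl | rfl <;>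
          first
            | rfl
            | exact absurd rfl hxy
            | exact absurd rfl hzy
      · rintro rfl
        exact ⟨hxS, hx⟩
    rw [Finset.sum_congr rfl h2, Finset.sum_const, smul_eq_mul, mul_one]

private theorem eu_small {V S : Finset (Ed 3)} (h : S.card = 2) : (EU V S).card ≤ 1 := by
  have : EU V S ⊆ {S} := by
    intro e he
    unfold EU at he
    rw [Finset.mem_filter] at he
    rw [Finset.mem_singleton]
    exact Finset.eq_of_subset_of_card_le he.2 (by rw [h, (mem_edg'.1 he.1).2.1])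
  exact (Finset.card_le_card this).trans (by simp)

private theorem eu_zero {V S : Finset (Ed 3)} (h : S.card ≤ 1) : (EU V S).card = 0 := by
  rw [Finset.card_eq_zero, Finset.eq_empty_iff_forall_notMem]
  intro e he
  unfold EU at he
  rw [Finset.mem_filter] at he
  have h1 := Finset.card_le_card he.2
  rw [(mem_edg'.1 he.1).2.1] at h1
  omega

/-- K6: a bad set is one vertex, and then there is no chord -/
theorem bad_one {V : Finset (Ed 3)} (hV : Gen V) (hT : TF V) {w : Ed 3} (hw : w ∈ V) (h15 : ∑ F ∈ fat V w, F.card ≤ 15)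
    {S : Finset (Ed 3)} (hS : Bad V w S) : S.card = 1 ∧ Ch V w = ∅ := by
  have hsum := bad_sum hS.sub hS.dis
  have hge : 4 * S.card ≤ ∑ v ∈ S, ((S ∪ Zw V w).filter fun u => Adj V v u).card := by
    have := Finset.card_nsmul_le_sum S (fun v => ((S ∪ Zw V w).filter fun u => Adj V v u).card) 4 hS.four
    rw [smul_eq_mul] at this
    omega
  have hc := star_count hV hT hw h15 hS.sub hS.dis
  have h9 := (deg_three hV hT hw h15).2
  have hne := hS.ne.card_pos
  have hcard : S.card = 1 := by
    by_contra hne1
    rcases Nat.lt_or_ge S.card 3 with h3 | h3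
    · have h2 : S.card = 2 := by omega
      have := eu_small (V := V) h2
      omega
    · have := planar hV hT hS.sub h3
      omega
  refine ⟨hcard, ?_⟩
  have h0 := eu_zero (V := V) (S := S) (by omega)
  rw [← Finset.card_eq_zero]
  omega

/-- K6: at most two chords -/
theorem ch_le {V : Finset (Ed 3)} (hV : Gen V) (hT : TF V) {w : Ed 3} (hw : w ∈ V) (h15 : ∑ F ∈ fat V w, F.card ≤ 15) :
    (Ch V w).card ≤ 2 := by
  have h9 := (deg_three hV hT hw h15).2
  have hc := star_count hV hT hw h15 (S := ∅) (Finset.empty_subset _) (Finset.disjoint_empty_left _)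
  rw [Finset.card_empty] at hc
  omega

end Pool.Agent.LibGP88
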