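import Mathlib
import Pool.Agent.LibGP88.Defs
import Pool.Agent.LibGP88.K1
import Pool.Agent.LibGP88.K3
import Pool.Agent.LibGP88.K4
import Pool.Agent.LibGP88.K6

/-! Row K7a. Board GP88. The colouring if there is no chord.
Zw is nonempty (nb_sub_zw, three_nb). z ∈ Zw, A0 := (Zw).erase z. Frs V A0: z_forest: A0 ≠ Zw, and x, y ∈ A0 adjacent: {x, y} ∈ EU V Zw, Ch = ∅, so {x, y} ∈ Ze. Let R := V \ insert w Zw.
Case 1: no Bad set. B0 := {z} (Frs: frs_pair z z or frs_insert). extend with A0, B0, R: A0 ∪ B0 = Zw; for S ⊆ R nonempty some v ∈ S has ≤ 3 neighbours in S ∪ Zw (else S is Bad). Get A ⊇ A0, B ⊇ {z}, A ∪ B = Zw ∪ R = V.erase w.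
Case 2: a Bad set {s} exists (bad_one: card 1; Finset.card_eq_one), s ∈ R. B0 := {z, s}: frs_pair. R' := R.erase s. For S ⊆ R' nonempty: if all v ∈ S had ≥ 4 neighbours in S ∪ (A0 ∪ B0) = S ∪ Zw ∪ {s}, then insert s S would be Bad (s has ≥ 4 neighbours in {s} ∪ Zw, hence in the larger
set) with at least two elements: contradiction to bad_one. extend. Col: uni, dis, fa, fb clear. g, g' from run_one z. mx: e ∈ Ze, e = {x, y} ⊆ Zw = A0 ∪ {z}, A ∩ Zw = A0 and B ∩ Zw = {z} (A, B disjoint, A0 ⊆ A, z ∈ B): Mx A B e iff one of x, y is z (and the other is then in A0) iff z ∈ e. -/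

set_option autoImplicit false

namespace Pool.Agent.LibGP88

open Finset Pool.Agent.LibPol19 Pool.Agent.LibTet88
open scoped Classical

/-- the membership in the boundary of the star -/
private theorem K7a_mz {V : Finset (Ed 3)} {w x : Ed 3} : x ∈ Zw V w ↔ x ∈ V ∧ x ≠ w ∧ ∃ A, Fct V A ∧ w ∈ A ∧ x ∈ A := by
  unfold Zw
  rw [Finset.mem_filter]

/-- the last step: two forests extending the two parts of the boundary give a good colouring -/
private theorem K7a_fin {V : Finset (Ed 3)} (hV : Gen V) {w : Ed 3} (hw : w ∈ V) {z : Ed 3} (hz : z ∈ Zw V w)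
    {A B : Finset (Ed 3)} (hA0 : (Zw V w).erase z ⊆ A) (hB0 : z ∈ B) (hd : Disjoint A B) (hu : A ∪ B = V.erase w)
    (fA : Frs V A) (fB : Frs V B) : ∃ A B g g', Col V w A B g g' := by
  obtain ⟨g, g', hg, hg', hne, hrun⟩ := run_one hV hw hz
  refine ⟨A, B, g, g', hu, hd, fA, fB, hg, hg', hne, ?_⟩
  intro e he
  have hez : e ⊆ Zw V w := ze_sub he
  rw [← hrun e he]
  have hB : ∀ x ∈ Zw V w, x ∈ B → x = z := by
    intro x hx hxB
    by_contra hxz
    exact Finset.disjoint_left.1 hd (hA0 (Finset.mem_erase.2 ⟨hxz, hx⟩)) hxB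
  constructor
  · rintro ⟨-, b, hbe, hbB⟩
    rw [← hB b (hez hbe) hbB]
    exact hbe
  · intro hze
    have hc2 : e.card = 2 := by
      unfold Ze edg at he
      rw [Finset.mem_filter, Finset.mem_filter, Finset.mem_powersetCard] at he
      exact he.1.1.2
    obtain ⟨a, hae, haz⟩ := Finset.exists_mem_ne (by omega : 1 < e.card) z
    exact ⟨⟨a, hae, hA0 (Finset.mem_erase.2 ⟨haz, hez hae⟩)⟩, z, hze, hB0⟩

/-- K7a: no chords -/
theorem col_a {V : Finset (Ed 3)} (hV : Gen V) (hT : TF V) {w : Ed 3} (hw : w ∈ V) (h15 : ∑ F ∈ fat V w, F.card ≤ 15)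
    (hc : Ch V w = ∅) : ∃ A B g g', Col V w A B g g' := by
  have h3 := three_nb hV hw
  obtain ⟨z, hz0⟩ := Finset.card_pos.1 (by omega : 0 < (nb V w).card)
  have hz : z ∈ Zw V w := nb_sub_zw hV hz0
  have hzw : z ≠ w := (K7a_mz.1 hz).2.1
  have fA : Frs V ((Zw V w).erase z) := by
    refine z_forest hV hw (Finset.erase_subset _ _) ?_ ?_
    · intro h
      have h2 := hz
      rw [← h] at h2
      exact (Finset.mem_erase.1 h2).1 rfl
    · intro a ha b hb hab
      rw [Finset.mem_erase] at ha hb
      by_contra hno
      have hch : ({a, b} : Finset (Ed 3)) ∈ Ch V w := by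
        unfold Ch EU
        rw [Finset.mem_sdiff, Finset.mem_filter]
        refine ⟨⟨pair_mem_edg.2 hab, ?_⟩, hno⟩
        intro y hy
        rw [Finset.mem_insert, Finset.mem_singleton] at hy
        rcases hy with hy | hy
        · rw [hy]; exact ha.2
        · rw [hy]; exact hb.2
      rw [hc] at hch
      exact Finset.notMem_empty _ hch
  by_cases hb : ∃ S, Bad V w S
  · obtain ⟨S, hS⟩ := hb
    obtain ⟨s, rfl⟩ := Finset.card_eq_one.1 (bad_one hV hT hw h15 hS).1
    have hsV : s ∈ V := hS.sub (Finset.mem_singleton_self s)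
    have hsz : s ∉ insert w (Zw V w) := Finset.disjoint_left.1 hS.dis (Finset.mem_singleton_self s)
    have hsw : s ≠ w := fun h => hsz (by rw [h]; exact Finset.mem_insert_self _ _)
    have hsZ : s ∉ Zw V w := fun h => hsz (Finset.mem_insert_of_mem h)
    have hs4 := hS.four s (Finset.mem_singleton_self s)
    have hd : Disjoint ((Zw V w).erase z) ({z, s} : Finset (Ed 3)) := by
      rw [Finset.disjoint_left]
      intro x hx hx2
      rw [Finset.mem_erase] at hx
      rw [Finset.mem_insert, Finset.mem_singleton] at hx2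
      rcases hx2 with hx2 | hx2
      · exact hx.1 hx2
      · exact hsZ (hx2 ▸ hx.2)
    have hun : (Zw V w).erase z ∪ ({z, s} : Finset (Ed 3)) = insert s (Zw V w) := by
      ext x
      rw [Finset.mem_union, Finset.mem_erase, Finset.mem_insert, Finset.mem_singleton, Finset.mem_insert]
      constructor
      · rintro (h | h | h)
        · exact Or.inr h.2
        · exact Or.inr (h ▸ hz)
        · exact Or.inl h
      · rintro (h | h)
        · exact Or.inr (Or.inr h)
        · by_cases hx : x = z
          · exact Or.inr (Or.inl hx)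
          · exact Or.inl ⟨hx, h⟩
    have hR : Disjoint ((V \ insert w (Zw V w)).erase s) ((Zw V w).erase z ∪ ({z, s} : Finset (Ed 3))) := by
      rw [hun, Finset.disjoint_left]
      intro x hx hx2
      rw [Finset.mem_erase, Finset.mem_sdiff] at hx
      rw [Finset.mem_insert] at hx2
      rcases hx2 with hx2 | hx2
      · exact hx.1 hx2
      · exact hx.2.2 (Finset.mem_insert_of_mem hx2)
    obtain ⟨A, B, hA0, hB0, hAB, huAB, frA, frB⟩ := extend fA (frs_pair z s) hd hR (by
      intro T hT2 hTne
      by_contra hno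
      push Not at hno
      have hbad : Bad V w (insert s T) := by
        refine ⟨?_, ?_, Finset.insert_nonempty _ _, ?_⟩
        · intro x hx
          rw [Finset.mem_insert] at hx
          rcases hx with hx | hx
          · rw [hx]; exact hsV
          · exact (Finset.mem_sdiff.1 (Finset.mem_of_mem_erase (hT2 hx))).1
        · rw [Finset.disjoint_left]
          intro x hx
          rw [Finset.mem_insert] at hx
          rcases hx with hx | hx
          · rw [hx]; exact hsz
          · exact (Finset.mem_sdiff.1 (Finset.mem_of_mem_erase (hT2 hx))).2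
        · intro v hv
          rw [Finset.mem_insert] at hv
          rcases hv with hv | hv
          · rw [hv]
            refine hs4.trans (Finset.card_le_card (Finset.filter_subset_filter _ ?_))
            intro x hx
            rw [Finset.mem_union, Finset.mem_singleton] at hx
            rw [Finset.mem_union, Finset.mem_insert]
            rcases hx with hx | hx
            · exact Or.inl (Or.inl hx)
            · exact Or.inr hx
          · have h4 := hno v hv
            rw [hun] at h4
            have h5 : T ∪ insert s (Zw V w) = insert s T ∪ Zw V w := by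
              ext x
              simp only [Finset.mem_union, Finset.mem_insert]
              tauto
            rw [h5] at h4
            omega
      have h1 := (bad_one hV hT hw h15 hbad).1
      obtain ⟨t, ht⟩ := hTne
      have hst : t = s := Finset.card_le_one.1 h1.le t (Finset.mem_insert_of_mem ht) s (Finset.mem_insert_self _ _)
      exact (Finset.mem_erase.1 (hT2 ht)).1 hst)
    refine K7a_fin hV hw hz hA0 (hB0 (Finset.mem_insert_self _ _)) hAB ?_ frA frB
    rw [huAB, hun]
    ext x
    rw [Finset.mem_union, Finset.mem_erase, Finset.mem_sdiff, Finset.mem_insert, Finset.mem_insert, Finset.mem_erase]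
    constructor
    · rintro ((h | h) | h)
      · rw [h]; exact ⟨hsw, hsV⟩
      · exact ⟨(K7a_mz.1 h).2.1, (K7a_mz.1 h).1⟩
      · exact ⟨fun hh => h.2.2 (Or.inl hh), h.2.1⟩
    · rintro ⟨h1, h2⟩
      by_cases hxs : x = s
      · exact Or.inl (Or.inl hxs)
      · by_cases hxz : x ∈ Zw V w
        · exact Or.inl (Or.inr hxz)
        · refine Or.inr ⟨hxs, h2, ?_⟩
          rintro (hh | hh)
          · exact h1 hh
          · exact hxz hh
  · have hd : Disjoint ((Zw V w).erase z) ({z, z} : Finset (Ed 3)) := by
      rw [Finset.disjoint_left]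
      intro x hx hx2
      rw [Finset.mem_erase] at hx
      rw [Finset.mem_insert, Finset.mem_singleton] at hx2
      exact hx.1 (or_self_iff.1 hx2)
    have hun : (Zw V w).erase z ∪ ({z, z} : Finset (Ed 3)) = Zw V w := by
      ext x
      rw [Finset.mem_union, Finset.mem_erase, Finset.mem_insert, Finset.mem_singleton]
      constructor
      · rintro (h | h | h)
        · exact h.2
        · exact h ▸ hz
        · exact h ▸ hz
      · intro h
        by_cases hx : x = z
        · exact Or.inr (Or.inl hx)
        · exact Or.inl ⟨hx, h⟩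
    have hR : Disjoint (V \ insert w (Zw V w)) ((Zw V w).erase z ∪ ({z, z} : Finset (Ed 3))) := by
      rw [hun, Finset.disjoint_left]
      intro x hx hx2
      exact (Finset.mem_sdiff.1 hx).2 (Finset.mem_insert_of_mem hx2)
    obtain ⟨A, B, hA0, hB0, hAB, huAB, frA, frB⟩ := extend fA (frs_pair z z) hd hR (by
      intro S hS hSne
      by_contra hno
      push Not at hno
      refine hb ⟨S, fun x hx => (Finset.mem_sdiff.1 (hS hx)).1, ?_, hSne, ?_⟩
      · rw [Finset.disjoint_left]
        intro x hx
        exact (Finset.mem_sdiff.1 (hS hx)).2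
      · intro v hv
        have := hno v hv
        rw [hun] at this
        omega)
    refine K7a_fin hV hw hz hA0 (hB0 (Finset.mem_insert_self _ _)) hAB ?_ frA frB
    rw [huAB, hun]
    ext x
    rw [Finset.mem_union, Finset.mem_sdiff, Finset.mem_insert, Finset.mem_erase]
    constructor
    · rintro (h | h)
      · exact ⟨(K7a_mz.1 h).2.1, (K7a_mz.1 h).1⟩
      · exact ⟨fun hh => h.2 (Or.inl hh), h.1⟩
    · intro h
      by_cases hx : x ∈ Zw V w
      · exact Or.inl hx
      · refine Or.inr ⟨h.2, ?_⟩
        rintro (hh | hh)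
        · exact h.1 hh
        · exact hx hh

end Pool.Agent.LibGP88
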