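import Mathlib
import Pool.Agent.LibGP88.Defs
import Pool.Agent.LibGP88.K1
import Pool.Agent.LibGP88.K3
import Pool.Agent.LibGP88.K4
import Pool.Agent.LibGP88.K6

/-! Row K7b. Board GP88. The colouring if there are chords.
There is no Bad set (bad_one). (1) touch: some facet F ∈ fat V w meets every chord: a chord e = {x, y} ∈ Ch V w: x ∈ Zw is on a facet through w, y too; no facet through w contains both (else e ∈ Ze). So e meets at least two of the three (deg_three) facets in fat V w. There are at most two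
chords (ch_le): two subsets of a 3-element set with at least two elements each have a common element (card_union_add_card_inter). (2) B0 := F.erase w ⊆ Zw, A0 := Zw \ F. Frs V B0: z_forest: B0 ≠ Zw (another facet G through w, G ≠ F (fat has 3 elements), has a vertex not in F:
G ⊆ F would give G = F (dm_lt G08), this vertex is ≠ w, so in Zw), x, y ∈ B0 adjacent: {x, y} ⊆ F: in Ze. Frs V A0: z_forest: A0 ≠ Zw (B0 nonempty: F has a vertex ≠ w), x, y ∈ A0 adjacent: if {x, y} ∉ Ze it is a chord not meeting F: contradiction.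
extend with R := V \ insert w Zw: for S ⊆ R nonempty some v has ≤ 3 neighbours in S ∪ Zw (no Bad set; A0 ∪ B0 = Zw). g, g' from run_fct F. mx: for e ∈ Ze, e ⊆ Zw, w ∉ e: x ∈ e is in B iff x ∈ F, in A iff x ∉ F. -/

set_option autoImplicit false

namespace Pool.Agent.LibGP88

open Finset Pool.Agent.LibPol19 Pool.Agent.LibTet88
open scoped Classical

/-- K7b: a facet through `w` meeting all chords -/
theorem touch {V : Finset (Ed 3)} (hV : Gen V) (hT : TF V) {w : Ed 3} (hw : w ∈ V) (h15 : ∑ F ∈ fat V w, F.card ≤ 15) :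
    ∃ F, Fct V F ∧ w ∈ F ∧ ∀ e ∈ Ch V w, ∃ x ∈ e, x ∈ F := by
  have h3 := (deg_three hV hT hw h15).1
  have hle := ch_le hV hT hw h15
  have key : ∀ e ∈ Ch V w, 2 ≤ ((fat V w).filter fun F => ∃ x ∈ e, x ∈ F).card := by
    intro e he
    unfold Ch at he
    rw [Finset.mem_sdiff] at he
    obtain ⟨he1, he2⟩ := he
    unfold EU at he1
    rw [Finset.mem_filter] at he1
    obtain ⟨he1, hez⟩ := he1
    have hc2 : e.card = 2 := by
      unfold edg at he1
      rw [Finset.mem_filter, Finset.mem_powersetCard] at he1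
      exact he1.1.2
    obtain ⟨x, y, hxy, rfl⟩ := Finset.card_eq_two.1 hc2
    have hx : x ∈ Zw V w := hez (Finset.mem_insert_self _ _)
    have hy : y ∈ Zw V w := hez (Finset.mem_insert_of_mem (Finset.mem_singleton_self _))
    unfold Zw at hx hy
    rw [Finset.mem_filter] at hx hy
    obtain ⟨hxV, hxw, A, hA, hwA, hxA⟩ := hx
    obtain ⟨hyV, hyw, B, hB, hwB, hyB⟩ := hy
    have hAB : A ≠ B := by
      intro hh
      apply he2
      unfold Ze
      rw [Finset.mem_filter]
      refine ⟨he1, ?_, A, hA, hwA, ?_⟩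
      · intro hwe
        rw [Finset.mem_insert, Finset.mem_singleton] at hwe
        rcases hwe with hwe | hwe
        · exact hxw hwe.symm
        · exact hyw hwe.symm
      · intro z hz
        rw [Finset.mem_insert, Finset.mem_singleton] at hz
        rcases hz with hz | hz
        · rw [hz]; exact hxA
        · rw [hz, hh]; exact hyB
    have hsub : ({A, B} : Finset (Finset (Ed 3))) ⊆ (fat V w).filter fun F => ∃ x' ∈ ({x, y} : Finset (Ed 3)), x' ∈ F := by
      intro G hG
      rw [Finset.mem_insert, Finset.mem_singleton] at hG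
      rw [Finset.mem_filter, mem_fat]
      rcases hG with hG | hG
      · rw [hG]
        exact ⟨⟨hA, hwA⟩, x, Finset.mem_insert_self _ _, hxA⟩
      · rw [hG]
        exact ⟨⟨hB, hwB⟩, y, Finset.mem_insert_of_mem (Finset.mem_singleton_self _), hyB⟩
    calc 2 = ({A, B} : Finset (Finset (Ed 3))).card := (Finset.card_pair hAB).symm
      _ ≤ _ := Finset.card_le_card hsub
  by_cases hne : (Ch V w).Nonempty
  · obtain ⟨e1, he1⟩ := hne
    have k1 := key e1 he1
    by_cases hne2 : ((Ch V w).erase e1).Nonempty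
    · obtain ⟨e2, he2⟩ := hne2
      have k2 := key e2 (Finset.mem_of_mem_erase he2)
      have hcard : ((Ch V w).erase e1).card ≤ 1 := by
        rw [Finset.card_erase_of_mem he1]
        omega
      have hint : (((fat V w).filter fun F => ∃ x ∈ e1, x ∈ F) ∩ ((fat V w).filter fun F => ∃ x ∈ e2, x ∈ F)).Nonempty := by
        rw [← Finset.card_pos]
        have hu := Finset.card_union_add_card_inter ((fat V w).filter fun F => ∃ x ∈ e1, x ∈ F)
          ((fat V w).filter fun F => ∃ x ∈ e2, x ∈ F)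
        have hu2 : (((fat V w).filter fun F => ∃ x ∈ e1, x ∈ F) ∪ ((fat V w).filter fun F => ∃ x ∈ e2, x ∈ F)).card ≤
            (fat V w).card :=
          Finset.card_le_card (Finset.union_subset (Finset.filter_subset _ _) (Finset.filter_subset _ _))
        omega
      obtain ⟨F, hF⟩ := hint
      rw [Finset.mem_inter, Finset.mem_filter, Finset.mem_filter, mem_fat] at hF
      refine ⟨F, hF.1.1.1, hF.1.1.2, ?_⟩
      intro e he
      by_cases hee : e = e1
      · rw [hee]; exact hF.1.2
      · have : e = e2 := Finset.card_le_one.1 hcard e (Finset.mem_erase.2 ⟨hee, he⟩) e2 he2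
        rw [this]; exact hF.2.2
    · have hpos : 0 < ((fat V w).filter fun F => ∃ x ∈ e1, x ∈ F).card := by omega
      obtain ⟨F, hF⟩ := Finset.card_pos.1 hpos
      rw [Finset.mem_filter, mem_fat] at hF
      refine ⟨F, hF.1.1, hF.1.2, ?_⟩
      intro e he
      have hee : e = e1 := by
        by_contra hh
        exact hne2 ⟨e, Finset.mem_erase.2 ⟨hh, he⟩⟩
      rw [hee]; exact hF.2
  · have hpos : 0 < (fat V w).card := by omega
    obtain ⟨F, hF⟩ := Finset.card_pos.1 hpos
    rw [mem_fat] at hF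
    refine ⟨F, hF.1, hF.2, ?_⟩
    intro e he
    exact absurd ⟨e, he⟩ hne

/-- K7b: chords -/
theorem col_b {V : Finset (Ed 3)} (hV : Gen V) (hT : TF V) {w : Ed 3} (hw : w ∈ V) (h15 : ∑ F ∈ fat V w, F.card ≤ 15)
    (hc : Ch V w ≠ ∅) : ∃ A B g g', Col V w A B g g' := by
  obtain ⟨F, hF, hwF, ht⟩ := touch hV hT hw h15
  have h3 := (deg_three hV hT hw h15).1
  have hFV : F ⊆ V := hF.1.2.1
  have hmz : ∀ x, x ∈ Zw V w ↔ x ∈ V ∧ x ≠ w ∧ ∃ A, Fct V A ∧ w ∈ A ∧ x ∈ A := by
    intro x
    unfold Zw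
    rw [Finset.mem_filter]
  have hB0 : F.erase w ⊆ Zw V w := by
    intro x hx
    rw [Finset.mem_erase] at hx
    exact (hmz x).2 ⟨hFV hx.2, hx.1, F, hF, hwF, hx.2⟩
  -- a vertex outside `F`
  obtain ⟨G, hG, hGF⟩ := Finset.exists_mem_ne (by omega : 1 < (fat V w).card) F
  rw [mem_fat] at hG
  have hnot : ¬ G ⊆ F := by
    intro hsub
    have hlt := dm_lt hG.1.1 (Finset.ssubset_iff_subset_ne.2 ⟨hsub, hGF⟩) hFV
    have e1 := hG.1.2
    have e2 := hF.2
    omega
  obtain ⟨y, hyG, hyF⟩ := Finset.not_subset.1 hnot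
  have hyw : y ≠ w := fun h => hyF (by rw [h]; exact hwF)
  have hyz : y ∈ Zw V w := (hmz y).2 ⟨hG.1.1.2.1 hyG, hyw, G, hG.1, hG.2, hyG⟩
  have hB1 : F.erase w ≠ Zw V w := by
    intro h
    rw [← h] at hyz
    exact hyF (Finset.mem_of_mem_erase hyz)
  -- a vertex of `F` different from `w`
  have h2 := two_at hV hF hwF
  obtain ⟨u, hu⟩ := Finset.card_pos.1 (by omega : 0 < (nb V w ∩ F).card)
  rw [Finset.mem_inter] at hu
  have huw : u ≠ w := by
    have h := hu.1
    unfold nb at h
    rw [Finset.mem_filter] at h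
    exact fun hh => h.2.1 hh.symm
  have huz : u ∈ Zw V w := hB0 (Finset.mem_erase.2 ⟨huw, hu.2⟩)
  have hA1 : Zw V w \ F ≠ Zw V w := by
    intro h
    rw [← h] at huz
    exact (Finset.mem_sdiff.1 huz).2 hu.2
  have fB : Frs V (F.erase w) := by
    refine z_forest hV hw hB0 hB1 ?_
    intro a ha b hb hab
    rw [Finset.mem_erase] at ha hb
    unfold Ze
    rw [Finset.mem_filter]
    refine ⟨pair_mem_edg.2 hab, ?_, F, hF, hwF, ?_⟩
    · intro h
      rw [Finset.mem_insert, Finset.mem_singleton] at h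
      rcases h with h | h
      · exact ha.1 h.symm
      · exact hb.1 h.symm
    · intro z hz
      rw [Finset.mem_insert, Finset.mem_singleton] at hz
      rcases hz with hz | hz
      · rw [hz]; exact ha.2
      · rw [hz]; exact hb.2
  have fA : Frs V (Zw V w \ F) := by
    refine z_forest hV hw Finset.sdiff_subset hA1 ?_
    intro a ha b hb hab
    rw [Finset.mem_sdiff] at ha hb
    by_contra hno
    have hch : ({a, b} : Finset (Ed 3)) ∈ Ch V w := by
      unfold Ch EU
      rw [Finset.mem_sdiff, Finset.mem_filter]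
      refine ⟨⟨pair_mem_edg.2 hab, ?_⟩, hno⟩
      intro z hz
      rw [Finset.mem_insert, Finset.mem_singleton] at hz
      rcases hz with hz | hz
      · rw [hz]; exact ha.1
      · rw [hz]; exact hb.1
    obtain ⟨z, hz, hzF⟩ := ht _ hch
    rw [Finset.mem_insert, Finset.mem_singleton] at hz
    rcases hz with hz | hz
    · exact ha.2 (hz ▸ hzF)
    · exact hb.2 (hz ▸ hzF)
  have hun : (Zw V w \ F) ∪ F.erase w = Zw V w := by
    ext x
    rw [Finset.mem_union, Finset.mem_sdiff, Finset.mem_erase]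
    constructor
    · rintro (h | h)
      · exact h.1
      · exact hB0 (Finset.mem_erase.2 h)
    · intro h
      by_cases hx : x ∈ F
      · exact Or.inr ⟨((hmz x).1 h).2.1, hx⟩
      · exact Or.inl ⟨h, hx⟩
  have hd : Disjoint (Zw V w \ F) (F.erase w) := by
    rw [Finset.disjoint_left]
    intro x hx hx2
    exact (Finset.mem_sdiff.1 hx).2 (Finset.mem_of_mem_erase hx2)
  have hR : Disjoint (V \ insert w (Zw V w)) ((Zw V w \ F) ∪ F.erase w) := by
    rw [hun, Finset.disjoint_left]
    intro x hx hx2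
    exact (Finset.mem_sdiff.1 hx).2 (Finset.mem_insert_of_mem hx2)
  obtain ⟨A, B, hA0, hB0', hAB, huAB, frA, frB⟩ := extend fA fB hd hR (by
    intro S hS hSne
    by_contra hno
    push Not at hno
    refine hc (bad_one hV hT hw h15 (S := S) ⟨fun x hx => (Finset.mem_sdiff.1 (hS hx)).1, ?_, hSne, ?_⟩).2
    · rw [Finset.disjoint_left]
      intro x hx
      exact (Finset.mem_sdiff.1 (hS hx)).2
    · intro v hv
      have := hno v hv
      rw [hun] at this
      omega)
  obtain ⟨g, g', hg, hg', hne, hrun⟩ := run_fct hV hw hF hwF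
  have hzA : ∀ x ∈ Zw V w, (x ∈ A ↔ x ∉ F) := by
    intro x hx
    constructor
    · intro hxA hxF
      have hxB : x ∈ B := hB0' (Finset.mem_erase.2 ⟨((hmz x).1 hx).2.1, hxF⟩)
      exact Finset.disjoint_left.1 hAB hxA hxB
    · intro hxF
      exact hA0 (Finset.mem_sdiff.2 ⟨hx, hxF⟩)
  have hzB : ∀ x ∈ Zw V w, (x ∈ B ↔ x ∈ F) := by
    intro x hx
    constructor
    · intro hxB
      by_contra hxF
      exact Finset.disjoint_left.1 hAB (hA0 (Finset.mem_sdiff.2 ⟨hx, hxF⟩)) hxB
    · intro hxF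
      exact hB0' (Finset.mem_erase.2 ⟨((hmz x).1 hx).2.1, hxF⟩)
  refine ⟨A, B, g, g', ?_, hAB, frA, frB, hg, hg', hne, ?_⟩
  · rw [huAB, hun]
    ext x
    rw [Finset.mem_union, Finset.mem_sdiff, Finset.mem_insert, Finset.mem_erase]
    constructor
    · rintro (h | h)
      · exact ⟨((hmz x).1 h).2.1, ((hmz x).1 h).1⟩
      · exact ⟨fun hh => h.2 (Or.inl hh), h.1⟩
    · intro h
      by_cases hx : x ∈ Zw V w
      · exact Or.inl hx
      · refine Or.inr ⟨h.2, ?_⟩
        rintro (hh | hh)
        · exact h.1 hh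
        · exact hx hh
  · intro e he
    have hez : e ⊆ Zw V w := ze_sub he
    rw [← hrun e he]
    unfold Mx
    constructor
    · rintro ⟨⟨a, hae, haA⟩, b, hbe, hbB⟩
      exact ⟨⟨b, hbe, (hzB b (hez hbe)).1 hbB⟩, a, hae, (hzA a (hez hae)).1 haA⟩
    · rintro ⟨⟨b, hbe, hbF⟩, a, hae, haF⟩
      exact ⟨⟨a, hae, (hzA a (hez hae)).2 haF⟩, b, hbe, (hzB b (hez hbe)).2 hbF⟩

end Pool.Agent.LibGP88
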