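import Mathlib
import Pool.Agent.LibGP88.Defs
import Pool.Agent.LibGP88.N1
import Pool.Agent.LibGP88.E1
import Pool.Agent.LibGP88.Q3
import Pool.Agent.LibPol19.G17

/-! Row K8a. Board GP88. Two-coloured even graphs.
(1) mx_even: D a set of edges of V with an even number of members at every vertex (hD), all of whose vertices are in A ∪ B, A, B disjoint: the number of members with one end in A and one in B is even: ∑ a ∈ A, (D.filter (a ∈ ·)).card is even and equals 2 * (number of members with both ends in A) +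
(number of mixed members). (Every member is a pair {x, y}, x ≠ y: mem_edg.) (2) fct_even: F ∈ Fw V w, F ⊆ A ∪ B: apply mx_even to D := (edg V).filter (· ⊆ F): two members at every vertex of F (at_two), none at other points.
(3) mono: if D is a set of edges with an even number of members at every vertex, no member is mixed, all vertices in A ∪ B, A and B forests, then D = ∅: otherwise e = {x, y} ∈ D, both ends in A, say. W := the points of A on members of D: every x ∈ W has an even number ≥ 1, so ≥ 2, members of D at x,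
their other ends are in A (not mixed, in A ∪ B) and in W: x has ≥ 2 neighbours in W (different members at x have different other ends): contradiction to Frs V A. Same for B. (4) fct_mixed: F a facet ⊆ A ∪ B: some edge of F is mixed: otherwise mono with D as in (2) gives D = ∅, but F has edges (at_two). -/

set_option autoImplicit false

namespace Pool.Agent.LibGP88

open Finset Pool.Agent.LibPol19 Pool.Agent.LibTet88
open scoped Classical

private theorem k8a_cnt {V A B : Finset (Ed 3)} (hAB : Disjoint A B) {e : Finset (Ed 3)} (he : e ∈ edg V)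
    (hs : e ⊆ A ∪ B) : Odd (A.filter fun a => a ∈ e).card ↔ Mx A B e := by
  obtain ⟨-, h2, -⟩ := mem_edg.1 he
  have hA : (A.filter fun a => a ∈ e) = e.filter fun a => a ∈ A := by
    ext a
    rw [Finset.mem_filter, Finset.mem_filter]
    tauto
  have hB : (e.filter fun a => ¬ a ∈ A) = e.filter fun a => a ∈ B := by
    ext a
    rw [Finset.mem_filter, Finset.mem_filter]
    constructor
    · rintro ⟨h3, h4⟩
      refine ⟨h3, ?_⟩
      rcases Finset.mem_union.1 (hs h3) with h5 | h5
      · exact absurd h5 h4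
      · exact h5
    · rintro ⟨h3, h4⟩
      exact ⟨h3, fun h5 => Finset.disjoint_left.1 hAB h5 h4⟩
  have hsum := Finset.card_filter_add_card_filter_not (s := e) (fun a => a ∈ A)
  rw [hB, h2] at hsum
  rw [hA]
  constructor
  · intro h
    have h1 : (e.filter fun a => a ∈ A).card = 1 := by
      rcases h with ⟨k, hk⟩
      omega
    have h3 : 0 < (e.filter fun a => a ∈ A).card := by omega
    have h4 : 0 < (e.filter fun a => a ∈ B).card := by omega
    obtain ⟨a, ha⟩ := Finset.card_pos.1 h3
    obtain ⟨b, hb⟩ := Finset.card_pos.1 h4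
    exact ⟨⟨a, (Finset.mem_filter.1 ha).1, (Finset.mem_filter.1 ha).2⟩,
      ⟨b, (Finset.mem_filter.1 hb).1, (Finset.mem_filter.1 hb).2⟩⟩
  · rintro ⟨⟨a, ha, ha'⟩, ⟨b, hb, hb'⟩⟩
    have h3 : 0 < (e.filter fun a => a ∈ A).card := Finset.card_pos.2 ⟨a, Finset.mem_filter.2 ⟨ha, ha'⟩⟩
    have h4 : 0 < (e.filter fun a => a ∈ B).card := Finset.card_pos.2 ⟨b, Finset.mem_filter.2 ⟨hb, hb'⟩⟩
    have h1 : (e.filter fun a => a ∈ A).card = 1 := by omega
    rw [h1]
    exact odd_one

private theorem k8a_side {V A : Finset (Ed 3)} (hA : Frs V A) {D : Finset (Finset (Ed 3))} (hD : D ⊆ edg V)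
    (he : ∀ x, Even (D.filter fun e => x ∈ e).card) (hc : ∀ e ∈ D, ∀ x ∈ e, x ∈ A → e ⊆ A) :
    ∀ e ∈ D, ∀ x ∈ e, x ∉ A := by
  intro e heD x hxe hxA
  have hne : (A.filter fun x => ∃ e ∈ D, x ∈ e).Nonempty := ⟨x, Finset.mem_filter.2 ⟨hxA, e, heD, hxe⟩⟩
  obtain ⟨z, hz, hz1⟩ := hA _ (Finset.filter_subset _ _) hne
  rw [Finset.mem_filter] at hz
  obtain ⟨hzA, f, hf, hzf⟩ := hz
  have h1 : 0 < (D.filter fun e => z ∈ e).card := Finset.card_pos.2 ⟨f, Finset.mem_filter.2 ⟨hf, hzf⟩⟩
  have h2 : 2 ≤ (D.filter fun e => z ∈ e).card := by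
    obtain ⟨k, hk⟩ := he z
    omega
  have hsub : (D.filter fun e => z ∈ e) ⊆
      (((A.filter fun x => ∃ e ∈ D, x ∈ e).filter fun u => Adj V z u).image fun u => ({z, u} : Finset (Ed 3))) := by
    intro g hg
    rw [Finset.mem_filter] at hg
    obtain ⟨hgD, hzg⟩ := hg
    obtain ⟨-, hg2, -⟩ := mem_edg.1 (hD hgD)
    have hge : (g.erase z).card = 1 := by
      rw [Finset.card_erase_of_mem hzg, hg2]
    obtain ⟨u, hu⟩ := Finset.card_eq_one.1 hge
    have hgu : g = {z, u} := by
      rw [← Finset.insert_erase hzg, hu]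
    have hug : u ∈ g := by
      rw [hgu]
      exact Finset.mem_insert_of_mem (Finset.mem_singleton_self u)
    rw [Finset.mem_image]
    refine ⟨u, Finset.mem_filter.2 ⟨Finset.mem_filter.2 ⟨hc g hgD z hzg hzA hug, g, hgD, hug⟩, ?_⟩, hgu.symm⟩
    rw [← pair_mem_edg, ← hgu]
    exact hD hgD
  have h3 := (Finset.card_le_card hsub).trans Finset.card_image_le
  omega

private theorem k8a_deg {V : Finset (Ed 3)} (hV : Gen V) {F : Finset (Ed 3)} (hF : Fct V F) (x : Ed 3) :
    Even (((edg V).filter fun e => e ⊆ F).filter fun e => x ∈ e).card := by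
  by_cases hx : x ∈ F
  · have h := at_two hV hF hx
    have h1 : (((edg V).filter fun e => e ⊆ F).filter fun e => x ∈ e) = (edg V).filter fun e => x ∈ e ∧ e ⊆ F := by
      ext e
      simp only [Finset.mem_filter]
      tauto
    rw [h1, h]
    exact even_two
  · have h1 : (((edg V).filter fun e => e ⊆ F).filter fun e => x ∈ e) = ∅ := by
      apply Finset.filter_eq_empty_iff.2
      intro e he hxe
      exact hx ((Finset.mem_filter.1 he).2 hxe)
    rw [h1, Finset.card_empty]
    exact Even.zero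

/-- K8a: parity -/
theorem mx_even {V A B : Finset (Ed 3)} (hAB : Disjoint A B) {D : Finset (Finset (Ed 3))} (hD : D ⊆ edg V)
    (hs : ∀ e ∈ D, e ⊆ A ∪ B) (he : ∀ x, Even (D.filter fun e => x ∈ e).card) : Even (D.filter fun e => Mx A B e).card := by
  have h1 : Even (∑ a ∈ A, (D.filter fun e => a ∈ e).card) := Finset.even_sum _ fun a _ => he a
  have h2 : ∑ a ∈ A, (D.filter fun e => a ∈ e).card = ∑ e ∈ D, (A.filter fun a => a ∈ e).card := by
    simp only [Finset.card_filter]
    exact Finset.sum_comm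
  rw [h2, Finset.even_sum_iff_even_card_odd] at h1
  have h3 : (D.filter fun e => Mx A B e) = D.filter fun e => Odd (A.filter fun a => a ∈ e).card := by
    apply Finset.filter_congr
    intro e heD
    exact (k8a_cnt hAB (hD heD) (hs e heD)).symm
  rw [h3]
  exact h1

/-- K8a: an even graph without mixed edges is empty -/
theorem mono {V A B : Finset (Ed 3)} (hAB : Disjoint A B) (hA : Frs V A) (hB : Frs V B) {D : Finset (Finset (Ed 3))}
    (hD : D ⊆ edg V) (hs : ∀ e ∈ D, e ⊆ A ∪ B) (he : ∀ x, Even (D.filter fun e => x ∈ e).card)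
    (hm : ∀ e ∈ D, ¬ Mx A B e) : D = ∅ := by
  by_contra hne
  obtain ⟨e, heD⟩ := Finset.nonempty_iff_ne_empty.2 hne
  have h1 := k8a_side hA hD he (fun f hf x hx hxA y hy => by
    rcases Finset.mem_union.1 (hs f hf hy) with h | h
    · exact h
    · exact absurd ⟨⟨x, hx, hxA⟩, ⟨y, hy, h⟩⟩ (hm f hf))
  have h2 := k8a_side hB hD he (fun f hf x hx hxB y hy => by
    rcases Finset.mem_union.1 (hs f hf hy) with h | h
    · exact absurd ⟨⟨y, hy, h⟩, ⟨x, hx, hxB⟩⟩ (hm f hf)
    · exact h)
  obtain ⟨-, hc2, -⟩ := mem_edg.1 (hD heD)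
  obtain ⟨x, hx⟩ := Finset.card_pos.1 (by omega : 0 < e.card)
  rcases Finset.mem_union.1 (hs e heD hx) with h | h
  · exact h1 e heD x hx h
  · exact h2 e heD x hx h

/-- K8a: facets have an even number of mixed edges -/
theorem fct_even {V : Finset (Ed 3)} (hV : Gen V) {A B : Finset (Ed 3)} (hAB : Disjoint A B) {F : Finset (Ed 3)} (hF : Fct V F)
    (hs : F ⊆ A ∪ B) : Even ((edg V).filter fun e => e ⊆ F ∧ Mx A B e).card := by
  have h := mx_even (V := V) hAB (D := (edg V).filter fun e => e ⊆ F) (Finset.filter_subset _ _)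
    (fun e he => (Finset.mem_filter.1 he).2.trans hs) (k8a_deg hV hF)
  rw [Finset.filter_filter] at h
  exact h

/-- K8a: facets have a mixed edge -/
theorem fct_mixed {V : Finset (Ed 3)} (hV : Gen V) {A B : Finset (Ed 3)} (hAB : Disjoint A B) (hA : Frs V A) (hB : Frs V B)
    {F : Finset (Ed 3)} (hF : Fct V F) (hs : F ⊆ A ∪ B) : ∃ e ∈ edg V, e ⊆ F ∧ Mx A B e := by
  by_contra hno
  push Not at hno
  have h := mono (V := V) hAB hA hB (D := (edg V).filter fun e => e ⊆ F) (Finset.filter_subset _ _)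
    (fun e he => (Finset.mem_filter.1 he).2.trans hs) (k8a_deg hV hF)
    (fun e he => hno e (Finset.mem_filter.1 he).1 (Finset.mem_filter.1 he).2)
  obtain ⟨x, hx⟩ := hF.1.1
  have h2 := at_two hV hF hx
  obtain ⟨e, he⟩ := Finset.card_pos.1 (by omega : 0 < ((edg V).filter fun e => x ∈ e ∧ e ⊆ F).card)
  rw [Finset.mem_filter] at he
  have h3 : e ∈ (edg V).filter fun e => e ⊆ F := Finset.mem_filter.2 ⟨he.1, he.2.2⟩
  rw [h] at h3
  exact absurd h3 (Finset.notMem_empty e)

end Pool.Agent.LibGP88
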