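import Mathlib
import Pool.Agent.LibGP88.Defs
import Pool.Agent.LibGP88.N1
import Pool.Agent.LibGP88.N4
import Pool.Agent.LibGP88.E1
import Pool.Agent.LibGP88.Q3
import Pool.Agent.LibGP88.K8a
import Pool.Agent.LibGP88.K2

/-! Row K8b. Board GP88. The mixed edges are connected through the facets not containing w.
Gm V w A B := the mixed edges not containing w (below). R a b := ∃ F ∈ Fw V w, a ∈ xs Γ F ∧ b ∈ xs Γ F, Γ := Gm. Claim: every e ∈ Γ is EqvGen R e g; then the theorem by symmetry and transitivity.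
Suppose not EqvGen R e g. X := (Fw V w).filter (fun F => ∃ a ∈ xs Γ F, EqvGen R e a). All members are facets. Members of xs Γ F for F ∈ X are all equivalent to e. D := bdy V X.
D has an even number of members at every vertex (bdy_even). Every member d of D is contained in a member F of X, so w ∉ d (w ∉ F) and d ⊆ V.erase w = A ∪ B (h.uni).
A mixed member d of D: d ∈ Γ, d ⊆ F ∈ X, so EqvGen R e d. If d ∉ Ze V w then d ∈ Est V w (Est: edges on no facet through w; w ∉ d), est_two (Q3): d is in exactly two members F1, F2 of Fw V w, one of them is F; the other one F' contains d ∈ xs Γ F', so F' ∈ X: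
d is in two members of X: not in bdy. So d ∈ Ze V w, and h.mx: d = g or d = g'. d = g is impossible (EqvGen R e g). So the mixed members of D are ⊆ {g'}; their number is even (mx_even), so there is none; mono (K8a): D = ∅. bdy_empty (N4): X = fcs V
(X is nonempty: e is contained in some member of Fw V w: edge_two: two facets F1 ∩ F2 = e, w ∉ e so one of them does not contain w). But a facet through w exists (fat_ne) and is not in Fw: contradiction. -/

set_option autoImplicit false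

namespace Pool.Agent.LibGP88

open Finset Pool.Agent.LibPol19 Pool.Agent.LibTet88
open scoped Classical

/-- the mixed edges not containing `w` -/
noncomputable def Gm (V : Finset (Ed 3)) (w : Ed 3) (A B : Finset (Ed 3)) : Finset (Finset (Ed 3)) :=
  (edg V).filter fun e => w ∉ e ∧ Mx A B e

private theorem mem_Gm {V : Finset (Ed 3)} {w : Ed 3} {A B e : Finset (Ed 3)} :
    e ∈ Gm V w A B ↔ e ∈ edg V ∧ w ∉ e ∧ Mx A B e := by
  unfold Gm
  rw [Finset.mem_filter]

private theorem mem_xs' {Γ : Finset (Finset (Ed 3))} {F e : Finset (Ed 3)} : e ∈ xs Γ F ↔ e ∈ Γ ∧ e ⊆ F := by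
  unfold xs
  rw [Finset.mem_filter]

private theorem gm_g {V : Finset (Ed 3)} (hV : Gen V) {w : Ed 3} (hw : w ∈ V) {A B g g' : Finset (Ed 3)} (h : Col V w A B g g')
    {e : Finset (Ed 3)} (he : e ∈ Gm V w A B) :
    Relation.EqvGen (fun a b => ∃ F ∈ Fw V w, a ∈ xs (Gm V w A B) F ∧ b ∈ xs (Gm V w A B) F) e g := by
  by_contra hn
  set R : Finset (Ed 3) → Finset (Ed 3) → Prop :=
    fun a b => ∃ F ∈ Fw V w, a ∈ xs (Gm V w A B) F ∧ b ∈ xs (Gm V w A B) F with hR
  set X : Finset (Finset (Ed 3)) := (Fw V w).filter fun F => ∃ a ∈ xs (Gm V w A B) F, Relation.EqvGen R e a with hX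
  have hXw : ∀ F ∈ X, Fct V F ∧ w ∉ F := fun F hF => mem_Fw.1 (Finset.mem_filter.1 hF).1
  have hXf : ∀ F ∈ X, Fct V F := fun F hF => (hXw F hF).1
  have hXin : ∀ F ∈ X, ∀ a ∈ xs (Gm V w A B) F, Relation.EqvGen R e a := by
    intro F hF a ha
    obtain ⟨hF1, b, hb, hb1⟩ := Finset.mem_filter.1 hF
    exact hb1.trans _ _ _ (Relation.EqvGen.rel _ _ ⟨F, hF1, hb, ha⟩)
  have hXnew : ∀ F ∈ Fw V w, ∀ a ∈ xs (Gm V w A B) F, Relation.EqvGen R e a → F ∈ X := by
    intro F hF a ha h1
    exact Finset.mem_filter.2 ⟨hF, a, ha, h1⟩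
  have hDsub : bdy V X ⊆ edg V := by
    unfold bdy
    exact Finset.filter_subset _ _
  have hDcard : ∀ d ∈ bdy V X, (X.filter fun F => d ⊆ F).card = 1 := by
    intro d hd
    unfold bdy at hd
    exact (Finset.mem_filter.1 hd).2
  have hDF : ∀ d ∈ bdy V X, ∃ F ∈ X, d ⊆ F := by
    intro d hd
    have h1 := hDcard d hd
    obtain ⟨F, hF⟩ := Finset.card_pos.1 (by omega : 0 < (X.filter fun F => d ⊆ F).card)
    exact ⟨F, (Finset.mem_filter.1 hF).1, (Finset.mem_filter.1 hF).2⟩
  have hwd : ∀ d ∈ bdy V X, w ∉ d := by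
    intro d hd h1
    obtain ⟨F, hF, hdF⟩ := hDF d hd
    exact (hXw F hF).2 (hdF h1)
  have hs : ∀ d ∈ bdy V X, d ⊆ A ∪ B := by
    intro d hd x hx
    rw [h.uni, Finset.mem_erase]
    refine ⟨fun h1 => hwd d hd (h1 ▸ hx), ?_⟩
    exact (mem_edg.1 (hDsub hd)).1 hx
  have hmix : ∀ d ∈ bdy V X, Mx A B d → d = g' := by
    intro d hd hM
    obtain ⟨F, hF, hdF⟩ := hDF d hd
    have hdΓ : d ∈ Gm V w A B := mem_Gm.2 ⟨hDsub hd, hwd d hd, hM⟩
    have hed : Relation.EqvGen R e d := hXin F hF d (mem_xs'.2 ⟨hdΓ, hdF⟩)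
    by_cases hz : d ∈ Ze V w
    · rcases (h.mx d hz).1 hM with h1 | h1
      · exact absurd (h1 ▸ hed) hn
      · exact h1
    · exfalso
      have hE : d ∈ Est V w := by
        unfold Est
        refine Finset.mem_filter.2 ⟨hDsub hd, fun A' hA' hwA' hdA' => hz ?_⟩
        unfold Ze
        exact Finset.mem_filter.2 ⟨hDsub hd, hwd d hd, A', hA', hwA', hdA'⟩
      obtain ⟨F1, F2, hne, hF1, hF2, -, hfil⟩ := est_two hV hE
      have h1 : F1 ∈ (Fw V w).filter fun G => d ⊆ G := by rw [hfil]; exact Finset.mem_insert_self _ _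
      have h2 : F2 ∈ (Fw V w).filter fun G => d ⊆ G := by
        rw [hfil]; exact Finset.mem_insert_of_mem (Finset.mem_singleton_self _)
      have k1 : F1 ∈ X := hXnew F1 hF1 d (mem_xs'.2 ⟨hdΓ, (Finset.mem_filter.1 h1).2⟩) hed
      have k2 : F2 ∈ X := hXnew F2 hF2 d (mem_xs'.2 ⟨hdΓ, (Finset.mem_filter.1 h2).2⟩) hed
      have hsub : ({F1, F2} : Finset (Finset (Ed 3))) ⊆ X.filter fun G => d ⊆ G := by
        intro G hG
        rw [Finset.mem_insert, Finset.mem_singleton] at hG
        rcases hG with rfl | rfl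
        · exact Finset.mem_filter.2 ⟨k1, (Finset.mem_filter.1 h1).2⟩
        · exact Finset.mem_filter.2 ⟨k2, (Finset.mem_filter.1 h2).2⟩
      have hc := Finset.card_le_card hsub
      rw [Finset.card_pair hne, hDcard d hd] at hc
      omega
  have heven : ∀ x, Even ((bdy V X).filter fun d => x ∈ d).card := fun x => bdy_even hV hXf x
  have hmx : Even ((bdy V X).filter fun d => Mx A B d).card := mx_even h.dis hDsub hs heven
  have hle : ((bdy V X).filter fun d => Mx A B d).card ≤ 1 := by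
    have h1 : ((bdy V X).filter fun d => Mx A B d) ⊆ {g'} := by
      intro d hd
      rw [Finset.mem_singleton]
      exact hmix d (Finset.mem_filter.1 hd).1 (Finset.mem_filter.1 hd).2
    exact (Finset.card_le_card h1).trans (Finset.card_singleton g').le
  have h0 : ((bdy V X).filter fun d => Mx A B d).card = 0 := by
    obtain ⟨r, hr⟩ := hmx
    omega
  have hno : ∀ d ∈ bdy V X, ¬ Mx A B d := by
    intro d hd hM
    have h1 := Finset.card_eq_zero.1 h0
    have h2 : d ∈ (bdy V X).filter fun d => Mx A B d := Finset.mem_filter.2 ⟨hd, hM⟩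
    rw [h1] at h2
    exact Finset.notMem_empty _ h2
  have hD : bdy V X = ∅ := mono h.dis h.fa h.fb hDsub hs heven hno
  have hXne : X.Nonempty := by
    obtain ⟨heE, hwe, -⟩ := mem_Gm.1 he
    obtain ⟨F1, F2, -, hF1, hF2, hFF, -⟩ := edge_two hV heE
    by_cases hw1 : w ∈ F1
    · have hw2 : w ∉ F2 := fun h2 => hwe (by rw [← hFF]; exact Finset.mem_inter.2 ⟨hw1, h2⟩)
      refine ⟨F2, hXnew F2 (mem_Fw.2 ⟨hF2, hw2⟩) e (mem_xs'.2 ⟨he, ?_⟩) (Relation.EqvGen.refl _)⟩
      rw [← hFF]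
      exact Finset.inter_subset_right
    · refine ⟨F1, hXnew F1 (mem_Fw.2 ⟨hF1, hw1⟩) e (mem_xs'.2 ⟨he, ?_⟩) (Relation.EqvGen.refl _)⟩
      rw [← hFF]
      exact Finset.inter_subset_left
  have hall : X = fcs V := bdy_empty hV hXf hXne hD
  obtain ⟨F, hF⟩ := fat_ne hV hw
  obtain ⟨hF1, hF2⟩ := mem_fat.1 hF
  have hFX : F ∈ X := by
    rw [hall]
    exact mem_fcs.2 hF1
  exact (hXw F hFX).2 hF2

/-- K8b: the mixed edges are connected -/
theorem gm_conn {V : Finset (Ed 3)} (hV : Gen V) {w : Ed 3} (hw : w ∈ V) {A B g g' : Finset (Ed 3)} (h : Col V w A B g g')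
    {e e' : Finset (Ed 3)} (he : e ∈ Gm V w A B) (he' : e' ∈ Gm V w A B) :
    Relation.EqvGen (fun a b => ∃ F ∈ Fw V w, a ∈ xs (Gm V w A B) F ∧ b ∈ xs (Gm V w A B) F) e e' :=
  (gm_g hV hw h he).trans _ _ _ ((gm_g hV hw h he').symm _ _)

end Pool.Agent.LibGP88
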