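import Mathlib
import Pool.Agent.LibGP88.Defs
import Pool.Agent.LibGP88.K7a
import Pool.Agent.LibGP88.K7b
import Pool.Agent.LibGP88.K8a
import Pool.Agent.LibGP88.K8b
import Pool.Agent.LibGP88.G5
import Pool.Agent.LibGP88.N5

/-! Row K9. Board GP88. The trail and the tetrahedralization.
(1) trail_of_col: Γ := Gm V w A B. edge: filter. two: e ∈ Γ, e ≠ g, g': e ∉ Ze V w (h.mx), so no facet through w contains e (w ∉ e): e ∈ Est V w; est_two (Q3): the filter is {F, F'}, F ≠ F': card 2. one, one': g ∈ Ze V w: g ∈ edg V, w ∉ g, A' a facet through w with g ⊆ A':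
bd_one (Q3): the filter is {F}: card 1. hg, hg': g ∈ Γ: Mx by h.mx. hne: h.ne. even: F ∈ Fw V w: F ⊆ V.erase w = A ∪ B; xs Γ F = (edg V).filter (e ⊆ F ∧ Mx A B e) (w ∉ e because w ∉ F): fct_even. nonempty: fct_mixed. conn: gm_conn.
(2) ham_of: col_a or col_b, trail_of_col, tet_of_trail (G5). (3) exists_small: planar with U := V (four_le; EU V V = edg V): 2 (edg V).card + 8 ≤ 4 V.card; ∑ v ∈ V, (nb V v).card = 2 (edg V).card (double counting), so some v ∈ V has (nb V v).card ≤ 3 (otherwise the sum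
is ≥ 4 V.card); (fat V v).card = (nb V v).card ≤ 3 (fat_card) and every facet has ≤ 5 vertices: ∑ ≤ 15 (Finset.sum_le_card_nsmul). -/

set_option autoImplicit false

namespace Pool.Agent.LibGP88

open Finset Pool.Agent.LibPol19 Pool.Agent.LibTet88
open scoped Classical

private theorem K9_mem_Gm {V : Finset (Ed 3)} {w : Ed 3} {A B e : Finset (Ed 3)} :
    e ∈ Gm V w A B ↔ e ∈ edg V ∧ w ∉ e ∧ Mx A B e := by
  unfold Gm
  rw [Finset.mem_filter]

private theorem K9_mem_Ze {V : Finset (Ed 3)} {w : Ed 3} {e : Finset (Ed 3)} :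
    e ∈ Ze V w ↔ e ∈ edg V ∧ w ∉ e ∧ ∃ A, Fct V A ∧ w ∈ A ∧ e ⊆ A := by
  unfold Ze
  rw [Finset.mem_filter]

private theorem K9_sub {V : Finset (Ed 3)} {w : Ed 3} {A B g g' : Finset (Ed 3)} (h : Col V w A B g g')
    {F : Finset (Ed 3)} (hF : F ∈ Fw V w) : F ⊆ A ∪ B := by
  intro x hx
  rw [h.uni, Finset.mem_erase]
  have h1 := mem_Fw.1 hF
  exact ⟨fun h2 => h1.2 (h2 ▸ hx), h1.1.1.2.1 hx⟩

private theorem K9_xs {V : Finset (Ed 3)} {w : Ed 3} {A B : Finset (Ed 3)} {F : Finset (Ed 3)} (hF : F ∈ Fw V w) :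
    xs (Gm V w A B) F = (edg V).filter fun e => e ⊆ F ∧ Mx A B e := by
  have h1 := mem_Fw.1 hF
  ext e
  unfold xs
  rw [Finset.mem_filter, Finset.mem_filter, K9_mem_Gm]
  constructor
  · rintro ⟨⟨h2, h3, h4⟩, h5⟩
    exact ⟨h2, h5, h4⟩
  · rintro ⟨h2, h5, h4⟩
    exact ⟨⟨h2, fun h => h1.2 (h5 h), h4⟩, h5⟩

private theorem K9_one {V : Finset (Ed 3)} (hV : Gen V) {w : Ed 3} {g : Finset (Ed 3)} (hg : g ∈ Ze V w) :
    ((Fw V w).filter fun F => g ⊆ F).card = 1 := by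
  obtain ⟨h1, h2, A, hA, hwA, hgA⟩ := K9_mem_Ze.1 hg
  obtain ⟨F, hF, -, hf⟩ := bd_one hV h1 h2 hA hwA hgA
  rw [hf, Finset.card_singleton]

private theorem K9_two {V : Finset (Ed 3)} (hV : Gen V) {w : Ed 3} {e : Finset (Ed 3)} (he : e ∈ edg V) (hw : w ∉ e)
    (hz : e ∉ Ze V w) : ((Fw V w).filter fun F => e ⊆ F).card = 2 := by
  have h1 : e ∈ Est V w := by
    unfold Est
    rw [Finset.mem_filter]
    exact ⟨he, fun A hA hwA heA => hz (K9_mem_Ze.2 ⟨he, hw, A, hA, hwA, heA⟩)⟩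
  obtain ⟨F, F', hne, -, -, -, hf⟩ := est_two hV h1
  rw [hf, Finset.card_pair hne]

/-- K9: the trail of a colouring -/
theorem trail_of_col {V : Finset (Ed 3)} (hV : Gen V) {w : Ed 3} (hw : w ∈ V) {A B g g' : Finset (Ed 3)} (h : Col V w A B g g') :
    Trail V w (Gm V w A B) g g' := by
  have hg : g ∈ Gm V w A B := by
    have h1 := K9_mem_Ze.1 h.ze
    exact K9_mem_Gm.2 ⟨h1.1, h1.2.1, (h.mx g h.ze).2 (Or.inl rfl)⟩
  have hg' : g' ∈ Gm V w A B := by
    have h1 := K9_mem_Ze.1 h.ze'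
    exact K9_mem_Gm.2 ⟨h1.1, h1.2.1, (h.mx g' h.ze').2 (Or.inr rfl)⟩
  refine ⟨?_, ?_, K9_one hV h.ze, K9_one hV h.ze', hg, hg', h.ne, ?_, ?_, ?_⟩
  · intro e he
    exact (K9_mem_Gm.1 he).1
  · intro e he h1 h2
    obtain ⟨h3, h4, h5⟩ := K9_mem_Gm.1 he
    refine K9_two hV h3 h4 fun hz => ?_
    rcases (h.mx e hz).1 h5 with h6 | h6
    · exact h1 h6
    · exact h2 h6
  · intro F hF
    rw [K9_xs hF]
    exact fct_even hV h.dis (mem_Fw.1 hF).1 (K9_sub h hF)
  · intro F hF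
    obtain ⟨e, he, heF, hm⟩ := fct_mixed hV h.dis h.fa h.fb (mem_Fw.1 hF).1 (K9_sub h hF)
    rw [K9_xs hF]
    exact ⟨e, Finset.mem_filter.2 ⟨he, heF, hm⟩⟩
  · intro e he e' he'
    exact gm_conn hV hw h he he'

/-- K9: Hamiltonian pulling tetrahedralizations -/
theorem ham_of {V : Finset (Ed 3)} (hV : Gen V) (hT : TF V) {w : Ed 3} (hw : w ∈ V) (h15 : ∑ F ∈ fat V w, F.card ≤ 15) :
    ∃ U : Finset (Finset (Ed 3)),
      (∀ t ∈ U, w ∈ t ∧ t ⊆ V ∧ t.card = 4 ∧ AffineIndependent ℝ (fun x : t => (x.1 : Ed 3))) ∧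
      (⋃ t ∈ U, convexHull ℝ (t : Set (Ed 3))) = convexHull ℝ (V : Set (Ed 3)) ∧
      (∀ t ∈ U, ∀ u ∈ U, convexHull ℝ (t : Set (Ed 3)) ∩ convexHull ℝ (u : Set (Ed 3)) =
        convexHull ℝ ((t ∩ u : Finset (Ed 3)) : Set (Ed 3))) ∧
      ∃ f : ℕ → Finset (Ed 3), (∀ i < U.card, f i ∈ U) ∧ (∀ i < U.card, ∀ j < U.card, f i = f j → i = j) ∧
        ∀ i, i + 1 < U.card → (f i ∩ f (i + 1)).card = 3 := by
  have h : ∃ A B g g', Col V w A B g g' := by
    by_cases hc : Ch V w = ∅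
    · exact col_a hV hT hw h15 hc
    · exact col_b hV hT hw h15 hc
  obtain ⟨A, B, g, g', h⟩ := h
  exact tet_of_trail hV hw (trail_of_col hV hw h)

private theorem K9_deg {V : Finset (Ed 3)} {v : Ed 3} (hv : v ∈ V) :
    (nb V v).card = ((edg V).filter fun e => v ∈ e).card := by
  have h1 : (edg V).filter (fun e => v ∈ e) = (nb V v).image fun u => ({v, u} : Finset (Ed 3)) := by
    ext e
    rw [Finset.mem_filter, Finset.mem_image]
    constructor
    · rintro ⟨he, hve⟩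
      obtain ⟨x, y, rfl, hxy⟩ : ∃ x y, e = {x, y} ∧ Adj V x y := by
        obtain ⟨h2, h3, h4⟩ := mem_edg.1 he
        obtain ⟨x, y, hxy, rfl⟩ := Finset.card_eq_two.1 h3
        exact ⟨x, y, rfl, hxy, h4⟩
      have hs : ∀ a b : Ed 3, Adj V a b → b ∈ V := by
        intro a b hab
        exact hab.2.2.1 (Finset.mem_insert_of_mem (Finset.mem_singleton_self b))
      rcases Finset.mem_insert.1 hve with h5 | h5
      · subst h5
        exact ⟨y, by unfold nb; rw [Finset.mem_filter]; exact ⟨hs _ _ hxy, hxy⟩, rfl⟩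
      · rw [Finset.mem_singleton] at h5
        subst h5
        have h6 : Adj V v x := ⟨hxy.1.symm, by rw [Finset.pair_comm]; exact hxy.2⟩
        exact ⟨x, by unfold nb; rw [Finset.mem_filter]; exact ⟨hs _ _ h6, h6⟩, Finset.pair_comm _ _⟩
    · rintro ⟨u, hu, rfl⟩
      unfold nb at hu
      rw [Finset.mem_filter] at hu
      exact ⟨pair_mem_edg.2 hu.2, Finset.mem_insert_self _ _⟩
  rw [h1, Finset.card_image_of_injOn]
  intro a ha b hb hab
  have ha' : v ≠ a := by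
    have := Finset.mem_coe.1 ha
    unfold nb at this
    exact (Finset.mem_filter.1 this).2.1
  have h2 : a ∈ ({v, b} : Finset (Ed 3)) := by
    have h3 : ({v, a} : Finset (Ed 3)) = {v, b} := hab
    rw [← h3]
    exact Finset.mem_insert_of_mem (Finset.mem_singleton_self a)
  rcases Finset.mem_insert.1 h2 with h3 | h3
  · exact absurd h3.symm ha'
  · exact Finset.mem_singleton.1 h3

private theorem K9_sum {V : Finset (Ed 3)} : ∑ v ∈ V, (nb V v).card = 2 * (edg V).card := by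
  have h1 : ∑ v ∈ V, (nb V v).card = ∑ v ∈ V, ((edg V).filter fun e => v ∈ e).card :=
    Finset.sum_congr rfl fun v hv => K9_deg hv
  rw [h1]
  have h2 : ∑ v ∈ V, ((edg V).filter fun e => v ∈ e).card = ∑ e ∈ edg V, (V.filter fun v => v ∈ e).card := by
    simp only [Finset.card_filter]
    rw [Finset.sum_comm]
  rw [h2]
  have h3 : ∀ e ∈ edg V, (V.filter fun v => v ∈ e).card = 2 := by
    intro e he
    obtain ⟨h4, h5, -⟩ := mem_edg.1 he
    have h6 : V.filter (fun v => v ∈ e) = e := by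
      ext x
      rw [Finset.mem_filter]
      exact ⟨fun h => h.2, fun h => ⟨h4 h, h⟩⟩
    rw [h6, h5]
  rw [Finset.sum_congr rfl h3, Finset.sum_const, smul_eq_mul, mul_comm]

/-- K9: a small star exists if all facets have at most five vertices -/
theorem exists_small {V : Finset (Ed 3)} (hV : Gen V) (hT : TF V) (h5 : ∀ F, Fct V F → F.card ≤ 5) :
    ∃ w ∈ V, ∑ F ∈ fat V w, F.card ≤ 15 := by
  have h4 := four_le hV
  have hE : EU V V = edg V := by
    unfold EU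
    rw [Finset.filter_eq_self]
    intro e he
    exact (mem_edg.1 he).1
  have hp := planar hV hT (Finset.Subset.refl V) (by omega)
  rw [hE] at hp
  have h1 : ∃ v ∈ V, (nb V v).card ≤ 3 := by
    by_contra hcon
    push Not at hcon
    have h2 : V.card * 4 ≤ ∑ v ∈ V, (nb V v).card := by
      have := Finset.card_nsmul_le_sum V (fun v => (nb V v).card) 4 fun v hv => hcon v hv
      rwa [smul_eq_mul] at this
    rw [K9_sum] at h2
    omega
  obtain ⟨v, hv, h3⟩ := h1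
  refine ⟨v, hv, ?_⟩
  have h5' : ∑ F ∈ fat V v, F.card ≤ (fat V v).card • 5 := by
    refine Finset.sum_le_card_nsmul _ _ _ fun F hF => h5 F ?_
    exact (mem_fat.1 hF).1
  rw [fat_card hV hv, smul_eq_mul] at h5'
  omega

end Pool.Agent.LibGP88
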