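import Mathlib
import Pool.Agent.LibGP88.Defs
import Pool.Agent.LibGP88.Q3
import Pool.Agent.LibGP88.D2
import Pool.Agent.LibTet88.Z2
import Pool.Agent.LibPol19.G08
import Pool.Agent.LibPol19.G09

/-! Row Z1. Board GP88. Translation of the hypotheses. -/

set_option autoImplicit false

namespace Pool.Agent.LibGP88

open Finset Pool.Agent.LibPol19 Pool.Agent.LibTet88
open scoped Classical

theorem gen_of {S : Finset (Ed 3)} (h1 : affineSpan ℝ (S : Set (Ed 3)) = ⊤)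
    (h2 : ∀ p ∈ S, p ∉ convexHull ℝ ((S.erase p : Finset (Ed 3)) : Set (Ed 3))) : Gen S := by
  refine ⟨Z2_vert h2, ?_⟩
  unfold Full
  rw [← direction_affineSpan, h1, AffineSubspace.direction_top]

theorem dm_full {V : Finset (Ed 3)} (hV : Gen V) : dm V = 3 := by
  have h := hV.full
  unfold Full at h
  unfold dm
  rw [h, finrank_top, finrank_euclideanSpace, Fintype.card_fin]

theorem fct_iff {V F : Finset (Ed 3)} (hV : Gen V) : Fct V F ↔
    3 ≤ F.card ∧ ∃ (ℓ : Ed 3 →ₗ[ℝ] ℝ) (c : ℝ), ℓ ≠ 0 ∧ (∀ v ∈ V, ℓ v ≤ c) ∧ F = V.filter fun v => ℓ v = c := by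
  constructor
  · intro hF
    refine ⟨(fct_poly hV hF).2.1, ?_⟩
    obtain ⟨⟨hne, hFV, ℓ, c, h⟩, h2⟩ := hF
    have hFe : F = V.filter fun v => ℓ v = c := by
      ext v
      rw [Finset.mem_filter]
      constructor
      · intro hv
        exact ⟨hFV hv, ((h v (hFV hv)).2).2 hv⟩
      · rintro ⟨hv, hc⟩
        exact ((h v hv).2).1 hc
    refine ⟨ℓ, c, ?_, fun v hv => (h v hv).1, hFe⟩
    rintro rfl
    obtain ⟨x, hx⟩ := hne
    have h3 : (0 : ℝ) = c := ((h x (hFV hx)).2).2 hx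
    have h4 : F = V := by
      rw [hFe]
      ext v
      rw [Finset.mem_filter]
      exact ⟨fun h => h.1, fun h => ⟨h, by rw [← h3]; rfl⟩⟩
    rw [h4, dm_full hV] at h2
    omega
  · rintro ⟨h3, ℓ, c, hℓ, hle, hFe⟩
    have hFV : F ⊆ V := by rw [hFe]; exact Finset.filter_subset _ _
    have hF : IsFace V F := by
      refine ⟨Finset.card_pos.1 (by omega), hFV, ℓ, c, fun v hv => ⟨hle v hv, ?_⟩⟩
      rw [hFe, Finset.mem_filter]
      exact ⟨fun h => ⟨hv, h⟩, fun h => h.2⟩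
    have h2 : 2 ≤ dm F := two_le_dm hV.vert hFV h3
    have hne : F ≠ V := by
      intro hFV'
      apply hℓ
      have h5 : vectorSpan ℝ (V : Set (Ed 3)) ≤ LinearMap.ker ℓ := by
        unfold vectorSpan
        rw [Submodule.span_le]
        rintro _ ⟨a, ha, b, hb, rfl⟩
        have ha' : a ∈ F := by rw [hFV']; exact_mod_cast ha
        have hb' : b ∈ F := by rw [hFV']; exact_mod_cast hb
        rw [hFe, Finset.mem_filter] at ha' hb'
        change ℓ (a -ᵥ b) = 0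
        rw [vsub_eq_sub, map_sub, ha'.2, hb'.2, sub_self]
      have h6 := hV.full
      unfold Full at h6
      rw [h6] at h5
      exact LinearMap.ker_eq_top.1 (top_le_iff.1 h5)
    have h7 : dm F < dm V := dm_lt hF (Finset.ssubset_iff_subset_ne.2 ⟨hFV, hne⟩) (Finset.Subset.refl V)
    rw [dm_full hV] at h7
    exact ⟨hF, by omega⟩

theorem adj_iff {V : Finset (Ed 3)} (hV : Gen V) {v u : Ed 3} (hv : v ∈ V) (hu : u ∈ V) :
    Adj V v u ↔ u ≠ v ∧ IsExposed ℝ (convexHull ℝ (V : Set (Ed 3))) (segment ℝ v u) := by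
  rw [Z2_face hV.vert hv hu]
  exact ⟨fun h => ⟨h.1.symm, h.2⟩, fun h => ⟨h.1.symm, h.2⟩⟩

theorem tf_of {V : Finset (Ed 3)} (hV : Gen V)
    (h : ∀ x ∈ V, ∀ y ∈ V, ∀ z ∈ V, (y ≠ x ∧ IsExposed ℝ (convexHull ℝ (V : Set (Ed 3))) (segment ℝ x y)) →
      (z ≠ y ∧ IsExposed ℝ (convexHull ℝ (V : Set (Ed 3))) (segment ℝ y z)) →
      (z ≠ x ∧ IsExposed ℝ (convexHull ℝ (V : Set (Ed 3))) (segment ℝ x z)) → False) : TF V := by
  intro x y z h1 h2 h3
  have hx : x ∈ V := h1.2.2.1 (Finset.mem_insert_self _ _)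
  have hy : y ∈ V := h2.2.2.1 (Finset.mem_insert_self _ _)
  have hz : z ∈ V := h3.2.2.1 (Finset.mem_insert_of_mem (Finset.mem_singleton_self _))
  exact h x hx y hy z hz ((adj_iff hV hx hy).1 h1) ((adj_iff hV hy hz).1 h2) ((adj_iff hV hx hz).1 h3)

end Pool.Agent.LibGP88
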